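import Pool.Agent.Lib.MP_b8d9b4_co.Low.Stm

/-!
# MP_b8d9b4_co, low range: piece LLc
-/

set_option autoImplicit false

namespace Pool.Agent.MP_b8d9b4_co.Low

open Pool.Agent.MP_b8d9b4_co.Top (Sq Line lv att board)

private theorem LLc_cnt (a b M r : ℤ) (hM : 0 < M) (X : Fin 4) :
    (((Finset.Icc a b).filter (fun v => v % M = r)).image (fun v => ((X, v) : Line))).card ≤
      (b / M + 1 - a / M).toNat := by
  refine Finset.card_image_le.trans ?_
  rw [← Int.card_Icc]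
  apply Finset.card_le_card_of_injOn (fun v => v / M)
  · intro v hv
    rw [Finset.mem_coe, Finset.mem_filter, Finset.mem_Icc] at hv
    rw [Finset.mem_coe, Finset.mem_Icc]
    exact ⟨Int.ediv_le_ediv hM hv.1.1, Int.ediv_le_ediv hM hv.1.2⟩
  · intro v hv w hw h
    rw [Finset.mem_coe, Finset.mem_filter] at hv hw
    have h1 := Int.emod_add_mul_ediv v M
    have h2 := Int.emod_add_mul_ediv w M
    have h' : v / M = w / M := h
    rw [hv.2, h'] at h1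
    rw [hw.2] at h2
    exact h1.symm.trans h2

private theorem LLc_un {S1 S2 S3 S4 S5 S6 : Finset Line} {b1 b2 b3 b4 b5 b6 : ℕ}
    (h1 : S1.card ≤ b1) (h2 : S2.card ≤ b2) (h3 : S3.card ≤ b3) (h4 : S4.card ≤ b4)
    (h5 : S5.card ≤ b5) (h6 : S6.card ≤ b6) :
    (S1 ∪ S2 ∪ S3 ∪ S4 ∪ S5 ∪ S6).card ≤ b1 + b2 + b3 + b4 + b5 + b6 := by
  have e1 := Finset.card_union_le (S1 ∪ S2 ∪ S3 ∪ S4 ∪ S5) S6
  have e2 := Finset.card_union_le (S1 ∪ S2 ∪ S3 ∪ S4) S5
  have e3 := Finset.card_union_le (S1 ∪ S2 ∪ S3) S4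
  have e4 := Finset.card_union_le (S1 ∪ S2) S3
  have e5 := Finset.card_union_le S1 S2
  omega

theorem p_LLc : S_LLc := by
  intro n q W R A hP
  obtain ⟨hA, hA2, hW, h7, hR, h4, hRq, hn1, hn2⟩ := id hP
  have hq : 0 < q := by omega
  have hu := LLc_un (LLc_cnt 1 n 2 0 (by norm_num) 0) (LLc_cnt 1 n 2 0 (by norm_num) 1)
    (LLc_cnt (-(11 * q)) (11 * q) 4 0 (by norm_num) 2)
    (LLc_cnt (-(3 * q)) (3 * q) 4 2 (by norm_num) 2)
    (LLc_cnt (3 * q) (25 * q + 112) 4 0 (by norm_num) 3)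
    (LLc_cnt (11 * q) (17 * q + 112) 4 2 (by norm_num) 3)
  unfold LL
  refine (Nat.cast_le.2 hu).trans ?_
  push_cast
  omega

end Pool.Agent.MP_b8d9b4_co.Low
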