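import Pool.Agent.Lib.MP_b8d9b4_co.Low.Stm

/-!
# LOW VV: all lines
-/

set_option autoImplicit false

namespace Pool.Agent.MP_b8d9b4_co.Low

open Pool.Agent.MP_b8d9b4_co.Top (Sq Line lv att board queensGraph)

private theorem VV_mem (n : ℤ) (X : Fin 4) (v : ℤ) : ((X, v) : Line) ∈ VV n ↔
    (X = 0 ∧ 1 ≤ v ∧ v ≤ n) ∨ (X = 1 ∧ 1 ≤ v ∧ v ≤ n) ∨ (X = 2 ∧ -n ≤ v ∧ v ≤ n) ∨
      (X = 3 ∧ 0 ≤ v ∧ v ≤ 2 * n + 112) := by
  unfold VV
  simp only [Finset.mem_union, Finset.mem_image, Finset.mem_Icc, Prod.mk.injEq, exists_eq_right_right]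
  constructor
  · rintro (((h | h) | h) | h)
    · exact Or.inl ⟨h.2.symm, h.1⟩
    · exact Or.inr (Or.inl ⟨h.2.symm, h.1⟩)
    · exact Or.inr (Or.inr (Or.inl ⟨h.2.symm, h.1⟩))
    · exact Or.inr (Or.inr (Or.inr ⟨h.2.symm, h.1⟩))
  · rintro (h | h | h | h)
    · exact Or.inl (Or.inl (Or.inl ⟨h.2, h.1.symm⟩))
    · exact Or.inl (Or.inl (Or.inr ⟨h.2, h.1.symm⟩))
    · exact Or.inl (Or.inr ⟨h.2, h.1.symm⟩)
    · exact Or.inr ⟨h.2, h.1.symm⟩

private theorem VV_lohi (k : Seg) (hk : Ok k) :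
    (0 ≤ lo k 0 ∧ hi k 0 ≤ 14) ∧ (0 ≤ lo k 1 ∧ hi k 1 ≤ 14) ∧ (-14 ≤ lo k 2 ∧ hi k 2 ≤ 14) ∧
      (0 ≤ lo k 3 ∧ hi k 3 ≤ 28) := by
  obtain ⟨h1, h2, h3, h4, -⟩ := hk
  simp only [lo, hi, lv]
  omega

private theorem VV_TT (ty : ℕ) (A a b : ℤ) (hA : 0 ≤ A) (h : AB ty A a b) (X : Fin 4) (t : ℤ)
    (ht : t ∈ TT ty X a b) : -(4 * A) ≤ t ∧ t ≤ 4 * A := by
  unfold AB at h
  unfold TT at ht
  split_ifs at h ht
  · fin_cases X <;> simp at ht <;> omega
  · rw [Finset.mem_singleton] at ht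
    omega

/-- [LOW VV] all lines. -/
theorem p_VV (h1 : S_ok) (h2 : S_mg) : S_VV := by
  intro n q W R A hP
  obtain ⟨p1, p2, p3, p4, p5, p6, p7, p8, p9⟩ := id hP
  have hn : 0 ≤ n := by omega
  refine ⟨?_, ?_, ?_, ?_⟩
  · have h3 : (Finset.Icc 1 n).image (fun v => ((0, v) : Line)) ⊆ VV n := by
      intro l hl
      rw [Finset.mem_image] at hl
      obtain ⟨v, hv, rfl⟩ := hl
      rw [Finset.mem_Icc] at hv
      rw [VV_mem]
      exact Or.inl ⟨rfl, hv⟩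
    have h4 := Finset.card_le_card h3
    rw [Finset.card_image_of_injective _ (fun x y h => (Prod.mk.inj h).2), Int.card_Icc] at h4
    omega
  · have h3 : (VV n).card ≤ ((Finset.Icc 1 n).image (fun v => ((0, v) : Line))).card +
        ((Finset.Icc 1 n).image (fun v => ((1, v) : Line))).card +
        ((Finset.Icc (-n) n).image (fun v => ((2, v) : Line))).card +
        ((Finset.Icc 0 (2 * n + 112)).image (fun v => ((3, v) : Line))).card := by
      unfold VV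
      refine (Finset.card_union_le _ _).trans (Nat.add_le_add_right ?_ _)
      refine (Finset.card_union_le _ _).trans (Nat.add_le_add_right ?_ _)
      exact Finset.card_union_le _ _
    have h4 : ∀ (X : Fin 4) (S : Finset ℤ), (S.image (fun v => ((X, v) : Line))).card = S.card :=
      fun X S => Finset.card_image_of_injective _ (fun x y h => (Prod.mk.inj h).2)
    rw [h4, h4, h4, h4, Int.card_Icc, Int.card_Icc, Int.card_Icc] at h3
    omega
  · intro l hl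
    unfold LL at hl
    simp only [Finset.mem_union, Finset.mem_image, Finset.mem_filter, Finset.mem_Icc] at hl
    rcases hl with ((((⟨v, hv, rfl⟩ | ⟨v, hv, rfl⟩) | ⟨v, hv, rfl⟩) | ⟨v, hv, rfl⟩) | ⟨v, hv, rfl⟩) | ⟨v, hv, rfl⟩
    · rw [VV_mem]
      exact Or.inl ⟨rfl, hv.1⟩
    · rw [VV_mem]
      exact Or.inr (Or.inl ⟨rfl, hv.1⟩)
    · rw [VV_mem]
      exact Or.inr (Or.inr (Or.inl ⟨rfl, by omega, by omega⟩))
    · rw [VV_mem]
      exact Or.inr (Or.inr (Or.inl ⟨rfl, by omega, by omega⟩))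
    · rw [VV_mem]
      exact Or.inr (Or.inr (Or.inr ⟨rfl, by omega, by omega⟩))
    · rw [VV_mem]
      exact Or.inr (Or.inr (Or.inr ⟨rfl, by omega, by omega⟩))
  · intro i hi l hl
    rw [mem_JJ (by omega)] at hi
    obtain ⟨i1, i2, i3⟩ := hi
    rw [mem_ed] at hl
    have hk := h1 _ i1
    have hS := (mem_St.1 i2).2
    generalize sg i.1 = k at *
    obtain ⟨X, v⟩ := l
    have h3 := VV_TT _ A _ _ (by omega) i3 X _ hl
    have h4 := h2 n q W R A hP k hk _ hS X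
    have h5 := VV_lohi k hk
    simp only at h3
    rw [VV_mem]
    have hq : 0 ≤ q := by omega
    obtain ⟨⟨a1, a2⟩, ⟨b1, b2⟩, ⟨c1, c2⟩, ⟨d1, d2⟩⟩ := h5
    fin_cases X
    · refine Or.inl ⟨rfl, ?_⟩
      have e1 : 0 ≤ q * lo k 0 := mul_nonneg hq a1
      have e2 : q * hi k 0 ≤ q * 14 := mul_le_mul_of_nonneg_left a2 hq
      simp only [Fin.zero_eta] at h3 h4
      omega
    · refine Or.inr (Or.inl ⟨rfl, ?_⟩)
      have e1 : 0 ≤ q * lo k 1 := mul_nonneg hq b1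
      have e2 : q * hi k 1 ≤ q * 14 := mul_le_mul_of_nonneg_left b2 hq
      simp only [Fin.mk_one] at h3 h4
      omega
    · refine Or.inr (Or.inr (Or.inl ⟨rfl, ?_⟩))
      have e1 : q * (-14) ≤ q * lo k 2 := mul_le_mul_of_nonneg_left c1 hq
      have e2 : q * hi k 2 ≤ q * 14 := mul_le_mul_of_nonneg_left c2 hq
      simp only [Fin.reduceFinMk] at h3 h4
      omega
    · refine Or.inr (Or.inr (Or.inr ⟨rfl, ?_⟩))
      have e1 : 0 ≤ q * lo k 3 := mul_nonneg hq d1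
      have e2 : q * hi k 3 ≤ q * 28 := mul_le_mul_of_nonneg_left d2 hq
      simp only [Fin.reduceFinMk] at h3 h4
      omega

end Pool.Agent.MP_b8d9b4_co.Low
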