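import Pool.Agent.Lib.MP_b8d9b4_co.Low.Stm

set_option autoImplicit false

/-!
# MP_b8d9b4_co, project LOW: piece c1 (counting, upper bound)
-/

namespace Pool.Agent.MP_b8d9b4_co.Low

theorem p_c1 : S_c1 := by
  intro κ M W x0 c S hκ hM hW hdvd hS
  obtain ⟨h, hh⟩ := hdvd
  have hκ' : 0 < |κ| := abs_pos.2 hκ
  have hκM : 0 < |κ| * M := mul_pos hκ' hM
  have hh0 : 0 < h := by
    rw [hh] at hW
    exact pos_of_mul_pos_right hW hκM.le
  have key : (S.card : ℤ) ≤ h := by
    rcases S.eq_empty_or_nonempty with he | hne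
    · rw [he, Finset.card_empty]
      exact hh0.le
    · obtain ⟨a, ha, hmin⟩ := S.exists_min_image id hne
      have hd : ∀ x ∈ S, M ∣ x - a := by
        intro x hx
        have h1 := dvd_sub (hS x hx).1 (hS a ha).1
        have e : x - x0 - (a - x0) = x - a := by ring
        rwa [e] at h1
      have hlt : ∀ x ∈ S, 0 ≤ x - a ∧ x - a < M * h := by
        intro x hx
        have h1 : a ≤ x := hmin x hx
        refine ⟨by linarith, ?_⟩
        obtain ⟨-, h2, h3⟩ := hS x hx
        obtain ⟨-, h4, h5⟩ := hS a ha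
        have h6 : |κ| * (x - a) < |κ| * (M * h) := by
          have e1 : |κ| * (x - a) = |κ * (x - a)| := by
            rw [abs_mul, abs_of_nonneg (by linarith : 0 ≤ x - a)]
          rw [e1, ← mul_assoc, ← hh, abs_lt]
          constructor <;> linarith
        exact lt_of_mul_lt_mul_left h6 hκ'.le
      have hcard : S.card ≤ (Finset.Ico (0 : ℤ) h).card := by
        refine Finset.card_le_card_of_injOn (fun x => (x - a) / M) ?_ ?_
        · intro x hx
          obtain ⟨h1, h2⟩ := hlt x hx
          rw [Finset.coe_Ico, Set.mem_Ico]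
          refine ⟨Int.ediv_nonneg h1 hM.le, ?_⟩
          apply Int.ediv_lt_of_lt_mul hM
          linarith
        · intro x hx y hy hxy
          have h1 := Int.ediv_mul_cancel (hd x hx)
          have h2 := Int.ediv_mul_cancel (hd y hy)
          have hxy' : (x - a) / M = (y - a) / M := hxy
          rw [hxy'] at h1
          linarith
      rw [Int.card_Ico, sub_zero] at hcard
      have h7 : ((h.toNat : ℕ) : ℤ) = h := Int.toNat_of_nonneg hh0.le
      calc (S.card : ℤ) ≤ (h.toNat : ℤ) := by exact_mod_cast hcard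
        _ = h := h7
  rw [hh]
  calc (S.card : ℤ) * (|κ| * M) ≤ h * (|κ| * M) := mul_le_mul_of_nonneg_right key hκM.le
    _ = |κ| * M * h := by ring

end Pool.Agent.MP_b8d9b4_co.Low
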