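import Pool.Agent.Lib.MP_b8d9b4_co.Low.Stm

/-! Piece c2: counting, exact. -/

set_option autoImplicit false

namespace Pool.Agent.MP_b8d9b4_co.Low

theorem p_c2 : S_c2 := by
  rintro κ M W x0 c hκ hM hW ⟨h, hh⟩
  have hk : 0 < κ * M := mul_pos hκ hM
  have hh0 : 0 < h := by
    rw [hh] at hW
    exact pos_of_mul_pos_right hW hk.le
  obtain ⟨k, hkd⟩ : ∃ k, k = κ * M := ⟨_, rfl⟩
  rw [← hkd] at hk hh ⊢
  obtain ⟨c', hc'⟩ : ∃ c', c' = κ * x0 + c := ⟨_, rfl⟩
  obtain ⟨f, hf⟩ : ∃ f, f = c' / k := ⟨_, rfl⟩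
  obtain ⟨r, hr⟩ : ∃ r, r = c' % k := ⟨_, rfl⟩
  have hr0 : 0 ≤ r := by rw [hr]; exact Int.emod_nonneg _ hk.ne'
  have hrk : r < k := by rw [hr]; exact Int.emod_lt_of_pos _ hk
  have hdm : c' = k * f + r := by rw [hf, hr]; exact (Int.mul_ediv_add_emod c' k).symm
  have hlin : ∀ y : ℤ, κ * (x0 + M * y) + c = k * (y + f) + r := by
    intro y
    have e : κ * (x0 + M * y) + c = k * y + c' := by rw [hkd, hc']; ring
    rw [e, hdm]
    ring
  refine ⟨(Finset.Ico (-f) (-f + h)).image (fun y => x0 + M * y), ?_, ?_⟩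
  · intro x
    rw [Finset.mem_image]
    constructor
    · rintro ⟨y, hy, rfl⟩
      rw [Finset.mem_Ico] at hy
      refine ⟨⟨y, by ring⟩, ?_, ?_⟩
      · rw [hlin]
        have : 0 ≤ k * (y + f) := mul_nonneg hk.le (by linarith [hy.1])
        linarith
      · rw [hlin, hh]
        have : k * (y + f) ≤ k * (h - 1) := mul_le_mul_of_nonneg_left (by linarith [hy.2]) hk.le
        nlinarith
    · rintro ⟨⟨y, hy⟩, h1, h2⟩
      have hx : x = x0 + M * y := by linarith
      rw [hx, hlin] at h1 h2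
      refine ⟨y, ?_, hx.symm⟩
      rw [Finset.mem_Ico]
      constructor
      · by_contra hc
        push Not at hc
        have : k * (y + f) ≤ k * (-1) := mul_le_mul_of_nonneg_left (by linarith) hk.le
        linarith
      · by_contra hc
        push Not at hc
        have : k * h ≤ k * (y + f) := mul_le_mul_of_nonneg_left (by linarith) hk.le
        rw [hh] at h2
        linarith
  · rw [Finset.card_image_of_injective _ (by
      intro a b hab
      have h1 : M * a = M * b := by
        simp only at hab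
        linarith
      exact mul_left_cancel₀ hM.ne' h1), Int.card_Ico, hh]
    have e : ((-f + h - -f).toNat : ℤ) = h := by
      rw [Int.toNat_of_nonneg (by linarith)]
      ring
    rw [e]
    ring

end Pool.Agent.MP_b8d9b4_co.Low
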