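import Pool.Agent.Lib.MP_b8d9b4_co.Low.Stm

/-!
# MP_b8d9b4_co, low range: piece `cl`
-/

set_option autoImplicit false

namespace Pool.Agent.MP_b8d9b4_co.Low

open Pool.Agent.MP_b8d9b4_co.Top (Sq Line lv att board queensGraph)

theorem p_cl : S_cl := by
  intro ty p hty hk X
  obtain ⟨h1, h2⟩ := hk
  obtain ⟨x, y⟩ := p
  simp only at h1 h2
  have h5 : ty = 0 ∨ ty = 1 ∨ ty = 2 ∨ ty = 3 ∨ ty = 4 := by omega
  have h4 : X = 0 ∨ X = 1 ∨ X = 2 ∨ X = 3 := by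
    revert X
    decide
  rcases h4 with rfl | rfl | rfl | rfl <;> rcases h5 with rfl | rfl | rfl | rfl | rfl <;>
    simp [cls, lv] at h1 h2 ⊢ <;> first | omega | (split_ifs <;> omega)

end Pool.Agent.MP_b8d9b4_co.Low
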