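import Pool.Agent.Lib.MP_b8d9b4_co.Low.Stm

/-!
# MP_b8d9b4_co, low range: piece cod
-/

set_option autoImplicit false

namespace Pool.Agent.MP_b8d9b4_co.Low

open Pool.Agent.MP_b8d9b4_co.Top (Sq Line lv att board)

private theorem cod_am (σ : ℝ) (h0 : 0 ≤ σ) (h1 : σ ≤ 1) (j : ℕ) : 0 ≤ am σ j := by
  unfold am
  have h2 : 0 ≤ (if j < 168 then 1 - σ else σ) := by
    split_ifs
    · linarith
    · exact h0
  exact div_nonneg (mul_nonneg h2 (Nat.cast_nonneg _)) (by positivity)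

private theorem cod_split (s : Finset ℕ) (f t : ℕ → ℕ) :
    ∑ j ∈ s, f j = ∑ j ∈ s.filter (fun j => t j = 4), f j +
      ∑ j ∈ s.filter (fun j => t j ≠ 4), f j :=
  (Finset.sum_filter_add_sum_filter_not _ _ _).symm

private theorem cod_sum (h3 : S_num) (σ : ℝ) (h0 : 0 ≤ σ) (h1 : σ ≤ 1) :
    ∑ j ∈ Finset.range 408, am σ j ≤ 40 := by
  obtain ⟨-, -, -, e1, e2, e3⟩ := h3
  have hsplit : Finset.range 408 = Finset.range 168 ∪ Finset.Ico 168 408 := by
    ext j
    simp only [Finset.mem_range, Finset.mem_union, Finset.mem_Ico]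
    omega
  have hdisj : Disjoint (Finset.range 168) (Finset.Ico 168 408) := by
    rw [Finset.disjoint_left]
    intro j hj1 hj2
    simp only [Finset.mem_range, Finset.mem_Ico] at hj1 hj2
    omega
  have e4 : ∑ j ∈ Finset.Ico 168 408, (sg j).al = 588538656 + 1399999920 := by
    rw [cod_split (Finset.Ico 168 408) (fun j => (sg j).al) (fun j => (sg j).ty), e3, e2]
  rw [hsplit, Finset.sum_union hdisj]
  have s1 : ∑ j ∈ Finset.range 168, am σ j = (1 - σ) * (1404158576 : ℝ) / 10 ^ 8 := by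
    have : ∀ j ∈ Finset.range 168, am σ j = (1 - σ) / 10 ^ 8 * ((sg j).al : ℝ) := by
      intro j hj
      unfold am
      rw [if_pos (Finset.mem_range.1 hj)]
      ring
    rw [Finset.sum_congr rfl this, ← Finset.mul_sum, ← Nat.cast_sum, e1]
    push_cast
    ring
  have s2 : ∑ j ∈ Finset.Ico 168 408, am σ j = σ * (588538656 + 1399999920 : ℝ) / 10 ^ 8 := by
    have : ∀ j ∈ Finset.Ico 168 408, am σ j = σ / 10 ^ 8 * ((sg j).al : ℝ) := by
      intro j hj
      unfold am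
      rw [if_neg (not_lt.2 (Finset.mem_Ico.1 hj).1)]
      ring
    rw [Finset.sum_congr rfl this, ← Finset.mul_sum, ← Nat.cast_sum, e4]
    push_cast
    ring
  rw [s1, s2]
  norm_num
  linarith

theorem p_cod (h1 : S_kF) (h2 : S_kG) (h3 : S_num) : S_cod := by
  intro n q W R A hP σ h0 h01 l1 l2 hl
  have hA : (0 : ℤ) ≤ A := by
    have := hP.1
    omega
  have hW : (0 : ℝ) ≤ 36 / (W : ℝ) := by
    have h4 : (0 : ℝ) < (W : ℝ) := by exact_mod_cast hP.2.2.1
    positivity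
  have hA' : (0 : ℝ) ≤ 18 / (A : ℝ) := by
    have h4 : (0 : ℝ) ≤ (A : ℝ) := by exact_mod_cast hA
    positivity
  have hj : ∀ j < 408, ∑ i ∈ JJ q W R A with (i.1 = j ∧ l1 ∈ ed i ∧ l2 ∈ ed i), wt σ W A i ≤
      am σ j * (36 / W + 18 / A) := by
    intro j hj
    by_cases ht : (sg j).ty = 4
    · exact h2 n q W R A hP σ h0 h01 j hj ht l1 l2 hl
    · refine (h1 n q W R A hP σ h0 h01 j hj ht l1 l2 hl).trans ?_
      exact mul_le_mul_of_nonneg_left (by linarith) (cod_am σ h0 h01 j)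
  have hmaps : ∀ i ∈ (JJ q W R A).filter (fun i => l1 ∈ ed i ∧ l2 ∈ ed i),
      i.1 ∈ Finset.range 408 := by
    intro i hi
    rw [Finset.mem_filter, mem_JJ hA] at hi
    exact Finset.mem_range.2 hi.1.1
  rw [← Finset.sum_fiberwise_of_maps_to hmaps]
  have hstep : ∀ j ∈ Finset.range 408,
      ∑ i ∈ ((JJ q W R A).filter (fun i => l1 ∈ ed i ∧ l2 ∈ ed i)).filter (fun i => i.1 = j),
        wt σ W A i ≤ am σ j * (36 / W + 18 / A) := by
    intro j hj'
    refine le_trans (le_of_eq ?_) (hj j (Finset.mem_range.1 hj'))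
    apply Finset.sum_congr _ (fun _ _ => rfl)
    ext i
    simp only [Finset.mem_filter]
    tauto
  refine (Finset.sum_le_sum hstep).trans ?_
  rw [← Finset.sum_mul]
  calc (∑ j ∈ Finset.range 408, am σ j) * (36 / (W : ℝ) + 18 / (A : ℝ))
      ≤ 40 * (36 / (W : ℝ) + 18 / (A : ℝ)) :=
        mul_le_mul_of_nonneg_right (cod_sum h3 σ h0 h01) (by linarith)
    _ = 1440 / (W : ℝ) + 720 / (A : ℝ) := by ring

end Pool.Agent.MP_b8d9b4_co.Low
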