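import Pool.Agent.Lib.MP_b8d9b4_co.Low.Stm

set_option autoImplicit false

/-!
# MP_b8d9b4_co, project LOW: piece cov (every square is on a needed line)
-/

namespace Pool.Agent.MP_b8d9b4_co.Low

open Pool.Agent.MP_b8d9b4_co.Top (Sq Line lv att board)

private theorem cov_0 (n q v : ℤ) (h1 : 1 ≤ v) (h2 : v ≤ n) (h3 : v % 2 = 0) :
    ((0, v) : Line) ∈ LL n q := by
  unfold LL
  simp only [Finset.mem_union, Finset.mem_image, Finset.mem_filter, Finset.mem_Icc]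
  exact Or.inl (Or.inl (Or.inl (Or.inl (Or.inl ⟨v, ⟨⟨h1, h2⟩, h3⟩, rfl⟩))))

private theorem cov_1 (n q v : ℤ) (h1 : 1 ≤ v) (h2 : v ≤ n) (h3 : v % 2 = 0) :
    ((1, v) : Line) ∈ LL n q := by
  unfold LL
  simp only [Finset.mem_union, Finset.mem_image, Finset.mem_filter, Finset.mem_Icc]
  exact Or.inl (Or.inl (Or.inl (Or.inl (Or.inr ⟨v, ⟨⟨h1, h2⟩, h3⟩, rfl⟩))))

private theorem cov_2a (n q v : ℤ) (h1 : -(11 * q) ≤ v) (h2 : v ≤ 11 * q) (h3 : v % 4 = 0) :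
    ((2, v) : Line) ∈ LL n q := by
  unfold LL
  simp only [Finset.mem_union, Finset.mem_image, Finset.mem_filter, Finset.mem_Icc]
  exact Or.inl (Or.inl (Or.inl (Or.inr ⟨v, ⟨⟨h1, h2⟩, h3⟩, rfl⟩)))

private theorem cov_2b (n q v : ℤ) (h1 : -(3 * q) ≤ v) (h2 : v ≤ 3 * q) (h3 : v % 4 = 2) :
    ((2, v) : Line) ∈ LL n q := by
  unfold LL
  simp only [Finset.mem_union, Finset.mem_image, Finset.mem_filter, Finset.mem_Icc]
  exact Or.inl (Or.inl (Or.inr ⟨v, ⟨⟨h1, h2⟩, h3⟩, rfl⟩))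

private theorem cov_3a (n q v : ℤ) (h1 : 3 * q ≤ v) (h2 : v ≤ 25 * q + 112) (h3 : v % 4 = 0) :
    ((3, v) : Line) ∈ LL n q := by
  unfold LL
  simp only [Finset.mem_union, Finset.mem_image, Finset.mem_filter, Finset.mem_Icc]
  exact Or.inl (Or.inr ⟨v, ⟨⟨h1, h2⟩, h3⟩, rfl⟩)

private theorem cov_3b (n q v : ℤ) (h1 : 11 * q ≤ v) (h2 : v ≤ 17 * q + 112) (h3 : v % 4 = 2) :
    ((3, v) : Line) ∈ LL n q := by
  unfold LL
  simp only [Finset.mem_union, Finset.mem_image, Finset.mem_filter, Finset.mem_Icc]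
  exact Or.inr ⟨v, ⟨⟨h1, h2⟩, h3⟩, rfl⟩

theorem p_cov : S_cov := by
  intro n q W R A hP p hp
  obtain ⟨hA, -, hW, -, hR, hq4, hRq, h14, hn⟩ := hP
  obtain ⟨x, y⟩ := p
  have hb : (1 ≤ x ∧ x ≤ n) ∧ (1 ≤ y ∧ y ≤ n) := by
    simpa [board] using hp
  obtain ⟨⟨hx1, hx2⟩, hy1, hy2⟩ := hb
  have hq0 : 0 < q := by linarith
  rcases Int.emod_two_eq_zero_or_one x with hx | hx
  · exact ⟨0, cov_0 n q x hx1 hx2 hx⟩
  rcases Int.emod_two_eq_zero_or_one y with hy | hy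
  · exact ⟨1, cov_1 n q y hy1 hy2 hy⟩
  have hd : (x - y) % 4 = 0 ∨ (x - y) % 4 = 2 := by omega
  rcases hd with hd | hd
  · by_cases h1 : -(11 * q) ≤ x - y ∧ x - y ≤ 11 * q
    · exact ⟨2, cov_2a n q (x - y) h1.1 h1.2 hd⟩
    · refine ⟨3, cov_3b n q (x + y) ?_ ?_ (by omega)⟩
      · by_contra h2
        apply h1
        constructor <;> linarith
      · by_contra h2
        apply h1
        constructor <;> linarith
  · by_cases h1 : -(3 * q) ≤ x - y ∧ x - y ≤ 3 * q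
    · exact ⟨2, cov_2b n q (x - y) h1.1 h1.2 hd⟩
    · refine ⟨3, cov_3a n q (x + y) ?_ ?_ (by omega)⟩
      · by_contra h2
        apply h1
        constructor <;> linarith
      · by_contra h2
        apply h1
        constructor <;> linarith

end Pool.Agent.MP_b8d9b4_co.Low
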