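import Pool.Agent.Lib.MP_b8d9b4_co.Low.Stm

set_option autoImplicit false

namespace Pool.Agent.MP_b8d9b4_co.Low

open Pool.Agent.MP_b8d9b4_co.Top (Sq Line lv att board)

private theorem dF_cf (ty : ℕ) (hty : ty ≤ 4) (h4 : ty ≠ 4) (X : Fin 4) :
    cf ty X (if X.val < 2 then (if ty = 2 ∨ ty = 3 then 1 else 0)
      else if X = 2 then (if ty = 0 ∨ ty = 2 then 0 else 2)
      else (if ty = 0 ∨ ty = 3 then 0 else 2)) = if X.val < 2 then 1 else 2 := by
  have h5 : ty < 4 := lt_of_le_of_ne hty h4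
  revert X
  interval_cases ty <;> decide

private theorem dF_end (k : Seg) (X : Fin 4) (v q W : ℤ) (hW : 0 < W) (N : ℕ)
    (hlen : 1 ≤ len k X) (h1 : lo k X ≤ v / q) (h2 : v / q < hi k X)
    (hc : cf k.ty X (cls X v) = if X.val < 2 then 1 else 2)
    (hN : (N : ℤ) * ((if X.val < 2 then 4 else 2) * len k X) ≤ W) :
    (N : ℝ) * ((k.al : ℝ) / 10 ^ 8 * 4 / (W : ℝ)) ≤ ld k X (cls X v) (v / q) := by
  unfold ld
  rw [if_pos ⟨h1, h2⟩, hc]
  have hlen' : (1 : ℝ) ≤ (len k X : ℝ) := by exact_mod_cast hlen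
  have hW' : (0 : ℝ) < (W : ℝ) := by exact_mod_cast hW
  have hN' : (N : ℝ) * ((if X.val < 2 then (4 : ℝ) else 2) * (len k X : ℝ)) ≤ (W : ℝ) := by
    have h3 : (((N : ℤ) * ((if X.val < 2 then 4 else 2) * len k X) : ℤ) : ℝ) ≤ ((W : ℤ) : ℝ) := by
      exact_mod_cast hN
    push_cast at h3
    exact h3
  have hal : (0 : ℝ) ≤ (k.al : ℝ) := Nat.cast_nonneg _
  have e1 : (N : ℝ) * ((k.al : ℝ) / 10 ^ 8 * 4 / (W : ℝ)) =
      ((k.al : ℝ) / 10 ^ 8) * ((N : ℝ) * 4 / (W : ℝ)) := by ring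
  by_cases hX : X.val < 2
  · simp only [hX, if_true] at hN' ⊢
    have e2 : ((1 : ℕ) : ℝ) * (k.al : ℝ) / (10 ^ 8 * (len k X : ℝ)) =
        ((k.al : ℝ) / 10 ^ 8) * (1 / (len k X : ℝ)) := by
      push_cast
      field_simp
    rw [e1, e2]
    refine mul_le_mul_of_nonneg_left ?_ (by positivity)
    rw [div_le_div_iff₀ hW' (by linarith)]
    linarith
  · simp only [hX, if_false] at hN' ⊢
    have e2 : ((2 : ℕ) : ℝ) * (k.al : ℝ) / (10 ^ 8 * (len k X : ℝ)) =
        ((k.al : ℝ) / 10 ^ 8) * (2 / (len k X : ℝ)) := by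
      push_cast
      field_simp
    rw [e1, e2]
    refine mul_le_mul_of_nonneg_left ?_ (by positivity)
    rw [div_le_div_iff₀ hW' (by linarith)]
    linarith

private theorem dF_nonneg (k : Seg) (X : Fin 4) (c : ℕ) (t : ℤ) (hlen : 1 ≤ len k X) :
    0 ≤ ld k X c t := by
  unfold ld
  have hlen' : (1 : ℝ) ≤ (len k X : ℝ) := by exact_mod_cast hlen
  split_ifs
  · positivity
  · exact le_rfl

theorem p_dF (h1 : S_ok) (h2 : S_mg) (h3 : S_cl) (h4 : S_ln) : S_dF := by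
  intro n q W R A hP σ hs0 hs1 j hj hty X v
  have hOk : Ok (sg j) := h1 j hj
  have hPar := hP
  obtain ⟨hA, hA2, hW, hWd, hR, hq4, hRq, hn1, hn2⟩ := hP
  have hq : 0 < q := by omega
  have hln := h4 n q W R A hPar (sg j) hOk X v
  have hlen : 1 ≤ len (sg j) X := (hOk.2.2.2.2.2.1 X).1
  have hc0 : (0 : ℝ) ≤ (if j < 168 then 1 - σ else σ) := by
    split_ifs <;> linarith
  have hW' : (0 : ℝ) < (W : ℝ) := by exact_mod_cast hW
  -- the members of the filter
  have hmem : ∀ i ∈ (JJ q W R A).filter (fun i => i.1 = j ∧ ((X, v) : Line) ∈ ed i),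
      i.1 = j ∧ i.2.1 ∈ (St (sg j) q W R).filter (fun p => lv X p = v) ∧ i.2.2.1 = 0 ∧
        i.2.2.2 = 0 := by
    intro i hi
    rw [Finset.mem_filter, mem_JJ (by omega)] at hi
    obtain ⟨⟨g1, g2, g3⟩, g4, g5⟩ := hi
    rw [mem_ed] at g5
    rw [g4] at g2 g3 g5
    unfold AB at g3
    rw [if_neg hty] at g3
    unfold TT at g5
    rw [if_neg hty, Finset.mem_singleton] at g5
    refine ⟨g4, ?_, g3.1, g3.2⟩
    rw [Finset.mem_filter]
    refine ⟨g2, ?_⟩
    simp only at g5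
    linarith
  have hwt : ∀ i ∈ (JJ q W R A).filter (fun i => i.1 = j ∧ ((X, v) : Line) ∈ ed i),
      wt σ W A i = (if j < 168 then 1 - σ else σ) * (((sg j).al : ℝ) / 10 ^ 8 * 4 / (W : ℝ)) := by
    intro i hi
    have hij := (hmem i hi).1
    unfold wt am
    rw [hij, if_neg hty, div_one]
    ring
  rw [Finset.sum_congr rfl hwt, Finset.sum_const, nsmul_eq_mul]
  have hcard : ((JJ q W R A).filter (fun i => i.1 = j ∧ ((X, v) : Line) ∈ ed i)).card ≤
      ((St (sg j) q W R).filter (fun p => lv X p = v)).card := by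
    refine Finset.card_le_card_of_injOn (fun i => i.2.1) ?_ ?_
    · intro i hi
      exact (hmem i hi).2.1
    · intro i hi i' hi' he
      obtain ⟨a1, a2, a3, a4⟩ := hmem i hi
      obtain ⟨b1, b2, b3, b4⟩ := hmem i' hi'
      obtain ⟨i1, i2, i3, i4⟩ := i
      obtain ⟨k1, k2, k3, k4⟩ := i'
      simp only at a1 a3 a4 b1 b3 b4 he
      rw [a1, a3, a4, b1, b3, b4, he]
  generalize hF : ((JJ q W R A).filter (fun i => i.1 = j ∧ ((X, v) : Line) ∈ ed i)).card = F
    at hcard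
  clear hwt hmem hF
  have hldnn := dF_nonneg (sg j) X (cls X v) (v / q) hlen
  by_cases hne : ((St (sg j) q W R).filter (fun p => lv X p = v)).card = 0
  · rw [hne, Nat.le_zero] at hcard
    rw [hcard, Nat.cast_zero, zero_mul]
    exact mul_nonneg hc0 hldnn
  · have hex : ∃ p, p ∈ (St (sg j) q W R).filter (fun p => lv X p = v) := by
      by_contra hc
      push Not at hc
      exact hne (Finset.card_eq_zero.2 (Finset.eq_empty_of_forall_notMem hc))
    obtain ⟨p, hp⟩ := hex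
    rw [Finset.mem_filter, mem_St] at hp
    obtain ⟨⟨hpb, hpI⟩, hpv⟩ := hp
    have hmg := h2 n q W R A hPar (sg j) hOk p hpI X
    have hcl := h3 (sg j).ty p hOk.2.2.2.2.1 hpI.2.2.2.2 X
    rw [hpv] at hmg hcl
    have hcf : cf (sg j).ty X (cls X v) = if X.val < 2 then 1 else 2 := by
      rw [hcl]
      exact dF_cf (sg j).ty hOk.2.2.2.2.1 hty X
    have hlo : lo (sg j) X ≤ v / q := by
      rw [Int.le_ediv_iff_mul_le hq]
      nlinarith [hmg.1]
    have hhi : v / q < hi (sg j) X := by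
      rw [Int.ediv_lt_iff_lt_mul hq]
      nlinarith [hmg.2]
    have hend := dF_end (sg j) X v q W hW _ hlen hlo hhi hcf hln
    have hbase : (0 : ℝ) ≤ ((sg j).al : ℝ) / 10 ^ 8 * 4 / (W : ℝ) := by positivity
    have hcard' : (F : ℝ) ≤
        (((St (sg j) q W R).filter (fun p => lv X p = v)).card : ℝ) := by
      exact_mod_cast hcard
    calc (F : ℝ) * ((if j < 168 then 1 - σ else σ) * (((sg j).al : ℝ) / 10 ^ 8 * 4 / (W : ℝ)))
        = (if j < 168 then 1 - σ else σ) *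
          ((F : ℝ) * (((sg j).al : ℝ) / 10 ^ 8 * 4 / (W : ℝ))) := by ring
      _ ≤ (if j < 168 then 1 - σ else σ) *
          ((((St (sg j) q W R).filter (fun p => lv X p = v)).card : ℝ) *
            (((sg j).al : ℝ) / 10 ^ 8 * 4 / (W : ℝ))) :=
          mul_le_mul_of_nonneg_left (mul_le_mul_of_nonneg_right hcard' hbase) hc0
      _ ≤ _ := mul_le_mul_of_nonneg_left hend hc0

end Pool.Agent.MP_b8d9b4_co.Low
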