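import Pool.Agent.Lib.MP_b8d9b4_co.Low.Stm

/-! Piece `dG`: the degrees from a segment of type 4. -/

set_option autoImplicit false

namespace Pool.Agent.MP_b8d9b4_co.Low

open Pool.Agent.MP_b8d9b4_co.Top (Sq Line lv att board)
open Finset

/-- the residue condition for the lines of a square of type 4 -/
private def dG_cp (X : Fin 4) (w : ℤ) : Prop := if X.val < 2 then w % 2 = 0 else w % 4 = 2

private instance dG_dec (X : Fin 4) : DecidablePred (dG_cp X) := fun w => by
  unfold dG_cp; infer_instance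

private theorem dG_kl {p : Sq} (h : kl 4 p) (X : Fin 4) : dG_cp X (lv X p) := by
  unfold kl at h
  simp at h
  obtain ⟨h1, h2⟩ := h
  unfold dG_cp
  fin_cases X
  · show p.1 % 2 = 0
    omega
  · show p.2 % 2 = 0
    omega
  · show (p.1 - p.2) % 4 = 2
    exact h2
  · show (p.1 + p.2) % 4 = 2
    omega

private noncomputable def dG_oa (A : ℤ) : Finset ℤ :=
  (Icc 0 (4 * A)).filter fun a => a % 2 = 1 ∧ 1 ≤ a ∧ a < 2 * A

private noncomputable def dG_ob (A : ℤ) : Finset ℤ :=
  (Icc 0 (4 * A)).filter fun b => b % 2 = 1 ∧ 2 * A < b ∧ b < 4 * A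

private theorem dG_cc {s : Finset ℤ} {m x y : ℤ} (hm : 0 < m) (r : ℤ) (hxy : x ≤ y)
    (h : ∀ a ∈ s, a % m = r ∧ x ≤ a / m ∧ a / m < y) : (s.card : ℤ) ≤ y - x := by
  have h1 : s.card ≤ (Ico x y).card := by
    refine Finset.card_le_card_of_injOn (fun a => a / m) ?_ ?_
    · intro a ha
      rw [mem_coe] at ha
      rw [mem_coe, mem_Ico]
      exact (h a ha).2
    · intro a ha b hb hab
      rw [mem_coe] at ha hb
      simp only at hab
      have h2 := Int.emod_add_mul_ediv a m
      have h3 := Int.emod_add_mul_ediv b m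
      rw [(h a ha).1, hab] at h2
      rw [(h b hb).1] at h3
      exact h2.symm.trans h3
  rw [Int.card_Ico] at h1
  have h2 : ((y - x).toNat : ℤ) = y - x := Int.toNat_of_nonneg (by omega)
  omega

private theorem dG_oac {A : ℤ} (hA : 0 ≤ A) : ((dG_oa A).card : ℤ) ≤ A := by
  have := dG_cc (s := dG_oa A) (m := 2) (x := 0) (y := A) (by norm_num) 1 hA (by
    intro a ha
    unfold dG_oa at ha
    rw [mem_filter] at ha
    omega)
  omega

private theorem dG_obc {A : ℤ} (hA : 0 ≤ A) : ((dG_ob A).card : ℤ) ≤ A := by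
  have := dG_cc (s := dG_ob A) (m := 2) (x := A) (y := 2 * A) (by norm_num) 1 (by omega) (by
    intro a ha
    unfold dG_ob at ha
    rw [mem_filter] at ha
    omega)
  omega

private theorem dG_oar {A : ℤ} (hA : 0 ≤ A) (hA2 : A % 2 = 0) (r : ℤ) :
    (((dG_oa A).filter fun a => a % 4 = r).card : ℤ) * 2 ≤ A := by
  have := dG_cc (s := (dG_oa A).filter fun a => a % 4 = r) (m := 4) (x := 0) (y := A / 2)
    (by norm_num) r (by omega) (by
    intro a ha
    unfold dG_oa at ha
    rw [mem_filter, mem_filter] at ha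
    omega)
  omega

private theorem dG_obr {A : ℤ} (hA : 0 ≤ A) (hA2 : A % 2 = 0) (r : ℤ) :
    (((dG_ob A).filter fun a => a % 4 = r).card : ℤ) * 2 ≤ A := by
  have := dG_cc (s := (dG_ob A).filter fun a => a % 4 = r) (m := 4) (x := A / 2) (y := A)
    (by norm_num) r (by omega) (by
    intro a ha
    unfold dG_ob at ha
    rw [mem_filter, mem_filter] at ha
    omega)
  omega

/-- the shifts which are compatible with the residue conditions -/
private def dG_T (X : Fin 4) (v a b : ℤ) : Finset ℤ :=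
  (TT 4 X a b).filter fun t => dG_cp X (v - t)

private theorem dG_T1 (X : Fin 4) (v a b : ℤ) (ha : a % 2 = 1) (hb : b % 2 = 1)
    (h : X.val < 2 ∨ v % 2 = 0) : (dG_T X v a b).card ≤ 1 := by
  rw [card_le_one]
  intro s hs t ht
  unfold dG_T at hs ht
  rw [mem_filter] at hs ht
  obtain ⟨hs1, hs2⟩ := hs
  obtain ⟨ht1, ht2⟩ := ht
  unfold dG_cp at hs2 ht2
  unfold TT at hs1 ht1
  fin_cases X <;> simp at hs1 ht1 hs2 ht2 h <;> omega

private theorem dG_T2 (X : Fin 4) (v a b : ℤ) (ha : a % 2 = 1) (hb : b % 2 = 1)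
    (h : ¬ (X.val < 2 ∨ v % 2 = 0)) :
    (dG_T X v a b).card ≤ (if a % 4 = (if X = 2 then (2 - v) % 4 else (v + 2) % 4) then 1 else 0) +
      (if b % 4 = (v + 2) % 4 then 1 else 0) := by
  have h1 : dG_T X v a b ⊆
      (if a % 4 = (if X = 2 then (2 - v) % 4 else (v + 2) % 4) then
        ({(if X = 2 then -a else a)} : Finset ℤ) else ∅) ∪
      (if b % 4 = (v + 2) % 4 then ({b} : Finset ℤ) else ∅) := by
    intro t ht
    unfold dG_T at ht
    rw [mem_filter] at ht
    obtain ⟨ht1, ht2⟩ := ht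
    unfold dG_cp at ht2
    unfold TT at ht1
    fin_cases X
    · simp at h
    · simp at h
    · simp at ht1 ht2 h ⊢
      rcases ht1 with rfl | rfl | rfl
      · omega
      · left
        have : a % 4 = (2 - v) % 4 := by omega
        simp [this]
      · right
        have : t % 4 = (v + 2) % 4 := by omega
        simp [this]
    · simp at ht1 ht2 h ⊢
      rcases ht1 with rfl | rfl | rfl
      · omega
      · left
        have : t % 4 = (v + 2) % 4 := by omega
        simp [this]
      · right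
        have : t % 4 = (v + 2) % 4 := by omega
        simp [this]
  refine (card_le_card h1).trans ((card_union_le _ _).trans ?_)
  refine Nat.add_le_add ?_ ?_ <;> split_ifs <;> simp

/-- the number of the compatible shifts -/
private theorem dG_sum {A : ℤ} (hA : 0 ≤ A) (hA2 : A % 2 = 0) (X : Fin 4) (v : ℤ) :
    ((∑ p ∈ dG_oa A ×ˢ dG_ob A, (dG_T X v p.1 p.2).card : ℕ) : ℤ) ≤ A ^ 2 := by
  have hoa := dG_oac hA
  have hob := dG_obc hA
  have hpa : ∀ p ∈ dG_oa A ×ˢ dG_ob A, p.1 % 2 = 1 ∧ p.2 % 2 = 1 := by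
    intro p hp
    rw [mem_product] at hp
    unfold dG_oa dG_ob at hp
    rw [mem_filter, mem_filter] at hp
    exact ⟨hp.1.2.1, hp.2.2.1⟩
  by_cases h : X.val < 2 ∨ v % 2 = 0
  · have h1 : ∑ p ∈ dG_oa A ×ˢ dG_ob A, (dG_T X v p.1 p.2).card ≤
        (dG_oa A).card * (dG_ob A).card := by
      refine (sum_le_sum fun p hp => dG_T1 X v p.1 p.2 (hpa p hp).1 (hpa p hp).2 h).trans ?_
      rw [sum_const, card_product, smul_eq_mul, mul_one]
    calc _ ≤ (((dG_oa A).card * (dG_ob A).card : ℕ) : ℤ) := by exact_mod_cast h1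
      _ = ((dG_oa A).card : ℤ) * ((dG_ob A).card : ℤ) := by push_cast; rfl
      _ ≤ A * A := mul_le_mul hoa hob (Int.natCast_nonneg _) hA
      _ = A ^ 2 := by ring
  · set r := (if X = 2 then (2 - v) % 4 else (v + 2) % 4) with hr
    set r' := (v + 2) % 4 with hr'
    have h1 : ∑ p ∈ dG_oa A ×ˢ dG_ob A, (dG_T X v p.1 p.2).card ≤
        ((dG_oa A).filter fun a => a % 4 = r).card * (dG_ob A).card +
        (dG_oa A).card * ((dG_ob A).filter fun a => a % 4 = r').card := by
      obtain ⟨F1, hF1⟩ : ∃ F1 : ℤ → ℕ, F1 = fun a => if a % 4 = r then 1 else 0 := ⟨_, rfl⟩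
      obtain ⟨F2, hF2⟩ : ∃ F2 : ℤ → ℕ, F2 = fun b => if b % 4 = r' then 1 else 0 := ⟨_, rfl⟩
      have h2 : ∀ p ∈ dG_oa A ×ˢ dG_ob A, (dG_T X v p.1 p.2).card ≤ F1 p.1 + F2 p.2 := by
        intro p hp
        rw [hF1, hF2]
        exact dG_T2 X v p.1 p.2 (hpa p hp).1 (hpa p hp).2 h
      refine (sum_le_sum h2).trans ?_
      rw [sum_add_distrib, sum_product, sum_product, card_filter, card_filter]
      refine le_of_eq ?_
      congr 1
      · rw [sum_mul]
        refine sum_congr rfl fun a _ => ?_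
        show ∑ y ∈ dG_ob A, F1 a = _
        rw [sum_const, smul_eq_mul, mul_comm, hF1]
      · show ∑ x ∈ dG_oa A, ∑ y ∈ dG_ob A, F2 y = _
        rw [sum_const, smul_eq_mul, hF2]
    have h2 := dG_oar hA hA2 r
    have h3 := dG_obr hA hA2 r'
    have h4 : 2 * (((∑ p ∈ dG_oa A ×ˢ dG_ob A, (dG_T X v p.1 p.2).card : ℕ)) : ℤ) ≤
        2 * A ^ 2 := by
      have h5 : ((∑ p ∈ dG_oa A ×ˢ dG_ob A, (dG_T X v p.1 p.2).card : ℕ) : ℤ) ≤
          (((dG_oa A).filter fun a => a % 4 = r).card : ℤ) * ((dG_ob A).card : ℤ) +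
          ((dG_oa A).card : ℤ) * (((dG_ob A).filter fun a => a % 4 = r').card : ℤ) := by
        exact_mod_cast h1
      have h6 : (((dG_oa A).filter fun a => a % 4 = r).card : ℤ) * 2 * ((dG_ob A).card : ℤ) ≤
          A * A := mul_le_mul h2 hob (Int.natCast_nonneg _) hA
      have h7 : ((dG_oa A).card : ℤ) * ((((dG_ob A).filter fun a => a % 4 = r').card : ℤ) * 2) ≤
          A * A := mul_le_mul hoa h3 (by positivity) hA
      nlinarith
    linarith

/-- the squares which belong to given offsets -/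
private theorem dG_g {n q W R A : ℤ} (hP : Par n q W R A) (h4 : S_ln) {k : Seg} (hk : Ok k)
    (hty : k.ty = 4) (X : Fin 4) (v a b : ℤ) :
    ((((St k q W R).filter fun u => v - lv X u ∈ TT 4 X a b).card : ℕ) : ℤ) *
      ((if X.val < 2 then 4 else 2) * len k X) ≤ ((dG_T X v a b).card : ℤ) * W := by
  have hl : 0 ≤ (if X.val < 2 then (4 : ℤ) else 2) * len k X := by
    have h5 : 1 ≤ len k X := (hk.2.2.2.2.2.1 X).1
    split_ifs <;> omega
  rw [card_eq_sum_card_fiberwise (f := fun u => v - lv X u) (t := dG_T X v a b)]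
  · push_cast
    rw [sum_mul, card_eq_sum_ones]
    push_cast
    rw [sum_mul]
    refine sum_le_sum fun t _ => ?_
    rw [one_mul]
    refine le_trans ?_ (h4 n q W R A hP k hk X (v - t))
    refine mul_le_mul_of_nonneg_right ?_ hl
    have : (((St k q W R).filter fun u => v - lv X u ∈ TT 4 X a b).filter
        fun u => v - lv X u = t).card ≤ ((St k q W R).filter fun p => lv X p = v - t).card := by
      refine card_le_card fun u hu => ?_
      rw [mem_filter, mem_filter] at hu
      rw [mem_filter]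
      exact ⟨hu.1.1, by have := hu.2; omega⟩
    exact_mod_cast this
  · intro u hu
    rw [mem_coe, mem_filter] at hu
    rw [mem_coe]
    unfold dG_T
    rw [mem_filter]
    refine ⟨hu.2, ?_⟩
    have h5 := (mem_St.1 hu.1).2.2.2.2.2
    rw [hty] at h5
    rw [sub_sub_cancel]
    exact dG_kl h5 X

private theorem dG_b {A : ℤ} {X : Fin 4} {w a b : ℤ} (h : w ∈ TT 4 X a b)
    (ha : a % 2 = 1 ∧ 1 ≤ a ∧ a < 2 * A) (hb : b % 2 = 1 ∧ 2 * A < b ∧ b < 4 * A) :
    -(4 * A) ≤ w ∧ w ≤ 4 * A ∧ (w = 0 ∨ w % 2 = 1) := by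
  unfold TT at h
  fin_cases X <;> simp at h <;> omega

theorem p_dG (h1 : S_ok) (h2 : S_mg) (_h3 : S_cl) (h4 : S_ln) : S_dG := by
  intro n q W R A hP σ hσ0 hσ1 j hj hty X v
  have hk := h1 j hj
  have hP' := hP
  obtain ⟨hA, hA2, hW, hWd, hR, hq4, hRq, hn, hn'⟩ := hP'
  have hA0 : 0 ≤ A := by omega
  have hq : 0 < q := by omega
  have hlen : 1 ≤ len (sg j) X := (hk.2.2.2.2.2.1 X).1
  obtain ⟨F, hF⟩ : ∃ F : Finset Ix,
      F = (JJ q W R A).filter (fun i => i.1 = j ∧ ((X, v) : Line) ∈ ed i) := ⟨_, rfl⟩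
  have hmem : ∀ i ∈ F, i.1 = j ∧ i.2.1 ∈ St (sg j) q W R ∧ i.2.2.1 ∈ dG_oa A ∧
      i.2.2.2 ∈ dG_ob A ∧ v - lv X i.2.1 ∈ TT 4 X i.2.2.1 i.2.2.2 := by
    rintro ⟨i, u, a, b⟩ hi
    rw [hF, mem_filter, mem_JJ hA0] at hi
    obtain ⟨⟨-, h6, h7⟩, h8, h9⟩ := hi
    simp only at h6 h7 h8 ⊢
    subst h8
    rw [mem_ed] at h9
    simp only at h9
    rw [hty] at h7 h9
    unfold AB at h7
    simp only [if_true] at h7
    refine ⟨rfl, h6, ?_, ?_, h9⟩
    · unfold dG_oa
      rw [mem_filter, mem_Icc]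
      omega
    · unfold dG_ob
      rw [mem_filter, mem_Icc]
      omega
  have hw : ∀ i ∈ F, wt σ W A i = am σ j * 4 / (W : ℝ) / (A : ℝ) ^ 2 := by
    intro i hi
    unfold wt
    rw [(hmem i hi).1, hty, if_pos rfl]
  rw [← hF, sum_congr rfl hw, sum_const, nsmul_eq_mul]
  -- the number of the indices
  have hN : (F.card : ℤ) * ((if X.val < 2 then 4 else 2) * len (sg j) X) ≤ A ^ 2 * W := by
    have hl : 0 ≤ (if X.val < 2 then (4 : ℤ) else 2) * len (sg j) X := by
      split_ifs <;> omega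
    rw [card_eq_sum_card_fiberwise (f := fun i : Ix => (i.2.2.1, i.2.2.2))
      (t := dG_oa A ×ˢ dG_ob A)]
    · push_cast
      rw [sum_mul]
      have h5 : ∀ p ∈ dG_oa A ×ˢ dG_ob A,
          ((F.filter fun i : Ix => (i.2.2.1, i.2.2.2) = p).card : ℤ) *
            ((if X.val < 2 then 4 else 2) * len (sg j) X) ≤
          ((dG_T X v p.1 p.2).card : ℤ) * W := by
        intro p _
        refine le_trans ?_ (dG_g hP h4 hk hty X v p.1 p.2)
        refine mul_le_mul_of_nonneg_right ?_ hl
        have : (F.filter fun i : Ix => (i.2.2.1, i.2.2.2) = p).card ≤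
            ((St (sg j) q W R).filter fun u => v - lv X u ∈ TT 4 X p.1 p.2).card := by
          refine card_le_card_of_injOn (fun i => i.2.1) ?_ ?_
          · intro i hi
            rw [mem_coe, mem_filter] at hi
            rw [mem_coe, mem_filter]
            obtain ⟨hi1, hi2⟩ := hi
            have h6 := hmem i hi1
            rw [← hi2]
            exact ⟨h6.2.1, h6.2.2.2.2⟩
          · intro i hi i' hi' he
            rw [mem_coe, mem_filter] at hi hi'
            have h6 := (hmem i hi.1).1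
            have h7 := (hmem i' hi'.1).1
            have h8 := hi.2.trans hi'.2.symm
            rw [Prod.mk.injEq] at h8
            obtain ⟨x, y, z, w⟩ := i
            obtain ⟨x', y', z', w'⟩ := i'
            simp only at h6 h7 h8 he
            rw [h6, h7, h8.1, h8.2, he]
        exact_mod_cast this
      refine (sum_le_sum h5).trans ?_
      rw [← sum_mul]
      refine mul_le_mul_of_nonneg_right ?_ hW.le
      have := dG_sum hA0 hA2 X v
      push_cast at this
      exact this
    · intro i hi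
      rw [mem_coe] at hi
      rw [mem_coe, mem_product]
      exact ⟨(hmem i hi).2.2.1, (hmem i hi).2.2.2.1⟩
  -- the load
  have hs : 0 ≤ (if j < 168 then 1 - σ else σ) := by
    split_ifs <;> linarith
  have hlR : (1 : ℝ) ≤ (len (sg j) X : ℝ) := by exact_mod_cast hlen
  rcases F.eq_empty_or_nonempty with he | ⟨i, him⟩
  · rw [he, card_empty, Nat.cast_zero, zero_mul]
    refine mul_nonneg hs ?_
    unfold ld
    split_ifs
    · positivity
    · exact le_rfl
  · obtain ⟨-, hu, ha, hb, ht⟩ := hmem i him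
    generalize i.2.1 = u at *
    generalize i.2.2.1 = a at *
    generalize i.2.2.2 = b at *
    have h5 := h2 n q W R A hP (sg j) hk u (mem_St.1 hu).2 X
    have h6 := (mem_St.1 hu).2.2.2.2.2
    rw [hty] at h6
    have h7 := dG_kl h6 X
    unfold dG_oa at ha
    unfold dG_ob at hb
    rw [mem_filter] at ha hb
    have h8 := dG_b ht ha.2 hb.2
    have h9 : lo (sg j) X ≤ v / q := by
      rw [Int.le_ediv_iff_mul_le hq]
      nlinarith [h5.1, h8.1]
    have h10 : v / q < hi (sg j) X := by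
      rw [Int.ediv_lt_iff_lt_mul hq]
      nlinarith [h5.2, h8.2.1]
    have hcf : ((cf (sg j).ty X (cls X v) : ℕ) : ℝ) * (if X.val < 2 then 4 else 2) = 4 := by
      rw [hty]
      unfold dG_cp at h7
      by_cases hX : X.val < 2
      · have h11 : cls X v ≠ 2 := by
          unfold cls
          rw [if_pos hX]
          split_ifs <;> norm_num
        simp only [cf, if_pos hX, if_neg h11]
        norm_num
      · rw [if_neg hX] at h7
        have h11 : cls X v ≠ 0 := by
          unfold cls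
          rw [if_neg hX]
          split_ifs with h12 h13
          · norm_num
          · exfalso
            rcases h8.2.2 with h14 | h14 <;> omega
          · norm_num
        simp only [cf, if_neg hX, if_neg h11]
        norm_num
    have hNR : (F.card : ℝ) * ((if X.val < 2 then 4 else 2) * (len (sg j) X : ℝ)) ≤
        (A : ℝ) ^ 2 * W := by
      have h11 : (((F.card : ℤ) * ((if X.val < 2 then 4 else 2) * len (sg j) X) : ℤ) : ℝ) ≤
          ((A ^ 2 * W : ℤ) : ℝ) := by exact_mod_cast hN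
      push_cast at h11
      exact h11
    have hWR : (0 : ℝ) < W := by exact_mod_cast hW
    have hAR : (0 : ℝ) < A := by
      have : 0 < A := by omega
      exact_mod_cast this
    have hld : ld (sg j) X (cls X v) (v / q) =
        ((cf (sg j).ty X (cls X v) : ℝ) * ((sg j).al : ℝ)) / (10 ^ 8 * (len (sg j) X : ℝ)) := by
      unfold ld
      rw [if_pos ⟨h9, h10⟩]
    rw [hld]
    unfold am
    have hc : (0 : ℝ) ≤ ((cf (sg j).ty X (cls X v) : ℕ) : ℝ) := Nat.cast_nonneg _
    generalize (if j < 168 then 1 - σ else σ) = s at *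
    generalize ((cf (sg j).ty X (cls X v) : ℕ) : ℝ) = c at *
    generalize (if X.val < 2 then (4 : ℝ) else 2) = l at *
    generalize (len (sg j) X : ℝ) = m at *
    have hal : (0 : ℝ) ≤ ((sg j).al : ℝ) := Nat.cast_nonneg _
    generalize ((sg j).al : ℝ) = al at *
    generalize (F.card : ℝ) = N at *
    have h12 : N * 4 / (W * (A : ℝ) ^ 2) ≤ c / m := by
      rw [div_le_div_iff₀ (by positivity) (by linarith)]
      calc N * 4 * m = c * (N * (l * m)) := by rw [← hcf]; ring
        _ ≤ c * ((A : ℝ) ^ 2 * W) := mul_le_mul_of_nonneg_left hNR hc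
        _ = c * (W * (A : ℝ) ^ 2) := by ring
    calc N * (s * al / 10 ^ 8 * 4 / W / (A : ℝ) ^ 2) =
          (s * al / 10 ^ 8) * (N * 4 / (W * (A : ℝ) ^ 2)) := by
            field_simp
      _ ≤ (s * al / 10 ^ 8) * (c / m) := mul_le_mul_of_nonneg_left h12 (by positivity)
      _ = s * (c * al / (10 ^ 8 * m)) := by
            have : m ≠ 0 := by linarith
            field_simp

end Pool.Agent.MP_b8d9b4_co.Low
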