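import Pool.Agent.Lib.MP_b8d9b4_co.Low.Stm

/-!
# MP_b8d9b4_co, low range, piece def: the total deficiency of the needed lines
-/

set_option autoImplicit false

namespace Pool.Agent.MP_b8d9b4_co.Low

open Pool.Agent.MP_b8d9b4_co.Top (Sq Line lv att board)

private theorem def_am (σ : ℝ) (h0 : 0 ≤ σ) (h1 : σ ≤ 1) (j : ℕ) : 0 ≤ am σ j := by
  unfold am
  generalize sg j = k
  have h2 : (0 : ℝ) ≤ if j < 168 then 1 - σ else σ := by
    split_ifs
    · linarith
    · exact h0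
  positivity

private theorem def_wt {n q W R A : ℤ} (hP : Par n q W R A) (σ : ℝ) (h0 : 0 ≤ σ) (h1 : σ ≤ 1)
    (i : Ix) : 0 ≤ wt σ W A i := by
  have hW : (0 : ℝ) < W := by exact_mod_cast hP.2.2.1
  have ha := def_am σ h0 h1 i.1
  unfold wt
  generalize (sg i.1).ty = t
  generalize am σ i.1 = s at ha
  have h2 : (0 : ℝ) ≤ if t = 4 then (A : ℝ) ^ 2 else 1 := by
    split_ifs
    · positivity
    · exact zero_le_one
  positivity

private theorem def_sum (h3 : S_num) (σ : ℝ) (h0 : 0 ≤ σ) (h1 : σ ≤ 1) :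
    (5599999 / 100000 : ℝ) ≤ ∑ j ∈ Finset.range 408, (nd (sg j) : ℝ) * am σ j := by
  obtain ⟨-, hX, hY, -⟩ := h3
  have hX' : (5599999000 : ℝ) ≤
      ∑ j ∈ Finset.range 168, (nd (sg j) : ℝ) * ((sg j).al : ℝ) := by exact_mod_cast hX
  have hY' : (5599999000 : ℝ) ≤
      ∑ j ∈ Finset.Ico 168 408, (nd (sg j) : ℝ) * ((sg j).al : ℝ) := by exact_mod_cast hY
  have hsplit : ∑ j ∈ Finset.range 408, (nd (sg j) : ℝ) * am σ j =
      ∑ j ∈ Finset.range 168, (nd (sg j) : ℝ) * am σ j +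
      ∑ j ∈ Finset.Ico 168 408, (nd (sg j) : ℝ) * am σ j := by
    rw [Finset.range_eq_Ico, Finset.range_eq_Ico,
      Finset.sum_Ico_consecutive _ (by omega : 0 ≤ 168) (by omega : 168 ≤ 408)]
  have e1 : ∑ j ∈ Finset.range 168, (nd (sg j) : ℝ) * am σ j =
      (1 - σ) / 10 ^ 8 * ∑ j ∈ Finset.range 168, (nd (sg j) : ℝ) * ((sg j).al : ℝ) := by
    rw [Finset.mul_sum]
    refine Finset.sum_congr rfl fun j hj => ?_
    unfold am
    rw [if_pos (Finset.mem_range.mp hj)]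
    generalize sg j = k
    ring
  have e2 : ∑ j ∈ Finset.Ico 168 408, (nd (sg j) : ℝ) * am σ j =
      σ / 10 ^ 8 * ∑ j ∈ Finset.Ico 168 408, (nd (sg j) : ℝ) * ((sg j).al : ℝ) := by
    rw [Finset.mul_sum]
    refine Finset.sum_congr rfl fun j hj => ?_
    have hj1 : ¬ j < 168 := not_lt.mpr (Finset.mem_Ico.mp hj).1
    unfold am
    rw [if_neg hj1]
    generalize sg j = k
    ring
  rw [hsplit, e1, e2]
  generalize ∑ j ∈ Finset.range 168, (nd (sg j) : ℝ) * ((sg j).al : ℝ) = SX at hX'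
  generalize ∑ j ∈ Finset.Ico 168 408, (nd (sg j) : ℝ) * ((sg j).al : ℝ) = SY at hY'
  have f1 : (1 - σ) / 10 ^ 8 * 5599999000 ≤ (1 - σ) / 10 ^ 8 * SX :=
    mul_le_mul_of_nonneg_left hX' (div_nonneg (by linarith) (by positivity))
  have f2 : σ / 10 ^ 8 * 5599999000 ≤ σ / 10 ^ 8 * SY :=
    mul_le_mul_of_nonneg_left hY' (div_nonneg h0 (by positivity))
  have f3 : (1 - σ) / 10 ^ 8 * 5599999000 + σ / 10 ^ 8 * 5599999000 = (5599999 / 100000 : ℝ) := by
    ring
  linarith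

/-- The total deficiency of the needed lines. -/
theorem p_def (h1 : S_sum) (h2 : S_ms) (h3 : S_num) (h4 : S_nl) (h5 : S_LLc) (h6 : S_ok) :
    S_def := by
  intro n q W R A hP σ h0 h1'
  have hA : (0 : ℤ) ≤ A := by
    have := hP.1
    omega
  have hW : (0 : ℝ) < W := by exact_mod_cast hP.2.2.1
  have hqR : (0 : ℝ) ≤ (q : ℝ) - 2 * R := by
    have h7 : 2 * R < q := hP.2.2.2.2.2.2.1
    have h8 : ((2 * R : ℤ) : ℝ) ≤ q := by exact_mod_cast h7.le
    push_cast at h8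
    linarith
  have hR : (0 : ℝ) ≤ R := by
    have h7 : (0 : ℤ) ≤ R := by
      have h8 := hP.2.2.1
      have h9 := hP.2.2.2.2.1
      omega
    exact_mod_cast h7
  have hLL : ((LL n q).card : ℝ) ≤ 28 * q + 200 := by
    have h7 := h5 n q W R A hP
    exact_mod_cast h7
  have hw := def_wt hP σ h0 h1'
  -- double counting
  have hdc : ∑ l ∈ LL n q, ∑ i ∈ JJ q W R A with l ∈ ed i, wt σ W A i =
      ∑ i ∈ JJ q W R A, ((((LL n q).filter (fun l => l ∈ ed i)).card : ℕ) : ℝ) * wt σ W A i := by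
    have e1 : ∀ l ∈ LL n q, ∑ i ∈ JJ q W R A with l ∈ ed i, wt σ W A i =
        ∑ i ∈ JJ q W R A, if l ∈ ed i then wt σ W A i else 0 := by
      intro l _
      rw [Finset.sum_filter]
    rw [Finset.sum_congr rfl e1, Finset.sum_comm]
    refine Finset.sum_congr rfl fun i _ => ?_
    rw [← Finset.sum_filter, Finset.sum_const, nsmul_eq_mul]
  have hge : ∑ i ∈ JJ q W R A, (nd (sg i.1) : ℝ) * wt σ W A i ≤
      ∑ i ∈ JJ q W R A, ((((LL n q).filter (fun l => l ∈ ed i)).card : ℕ) : ℝ) * wt σ W A i := by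
    refine Finset.sum_le_sum fun i hi => ?_
    have h7 := h4 n q W R A hP i hi
    have h8 : (nd (sg i.1) : ℝ) ≤ ((((LL n q).filter (fun l => l ∈ ed i)).card : ℕ) : ℝ) := by
      exact_mod_cast h7
    exact mul_le_mul_of_nonneg_right h8 (hw i)
  have hfib : ∑ i ∈ JJ q W R A, (nd (sg i.1) : ℝ) * wt σ W A i =
      ∑ j ∈ Finset.range 408, (nd (sg j) : ℝ) *
        (am σ j * (4 / (W : ℝ)) * ((St (sg j) q W R).card : ℝ)) := by
    have hmaps : ∀ i ∈ JJ q W R A, i.1 ∈ Finset.range 408 := fun i hi =>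
      Finset.mem_range.mpr ((mem_JJ hA i).mp hi).1
    rw [← Finset.sum_fiberwise_of_maps_to hmaps]
    refine Finset.sum_congr rfl fun j hj => ?_
    have h7 := h1 n q W R A hP σ {j} (Finset.singleton_subset_iff.mpr hj)
    rw [Finset.sum_singleton] at h7
    rw [← h7, Finset.mul_sum]
    have h8 : (JJ q W R A).filter (fun i => i.1 = j) =
        (JJ q W R A).filter (fun i => i.1 ∈ ({j} : Finset ℕ)) := by
      refine Finset.filter_congr fun i _ => ?_
      rw [Finset.mem_singleton]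
    rw [← h8]
    refine Finset.sum_congr rfl fun i hi => ?_
    rw [(Finset.mem_filter.mp hi).2]
  have hst : ∀ j ∈ Finset.range 408, (nd (sg j) : ℝ) * am σ j * (((q : ℝ) - 2 * R) / 2) ≤
      (nd (sg j) : ℝ) * (am σ j * (4 / (W : ℝ)) * ((St (sg j) q W R).card : ℝ)) := by
    intro j hj
    have h7 := h2 n q W R A hP (sg j) (h6 j (Finset.mem_range.mp hj))
    have ha := def_am σ h0 h1' j
    generalize sg j = k at h7 ⊢
    generalize am σ j = s at ha ⊢
    have h8 : q * W - 2 * R * W ≤ 8 * ((St k q W R).card : ℤ) := by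
      have h9 := (abs_le.mp h7).1
      linarith
    have h9 : (q : ℝ) * W - 2 * R * W ≤ 8 * ((St k q W R).card : ℝ) := by exact_mod_cast h8
    have h10 : ((q : ℝ) - 2 * R) / 2 ≤ 4 / (W : ℝ) * ((St k q W R).card : ℝ) := by
      rw [div_mul_eq_mul_div, le_div_iff₀ hW]
      linarith
    have h11 : (0 : ℝ) ≤ (nd k : ℝ) * s := mul_nonneg (Nat.cast_nonneg _) ha
    calc (nd k : ℝ) * s * (((q : ℝ) - 2 * R) / 2)
        ≤ (nd k : ℝ) * s * (4 / (W : ℝ) * ((St k q W R).card : ℝ)) :=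
          mul_le_mul_of_nonneg_left h10 h11
      _ = (nd k : ℝ) * (s * (4 / (W : ℝ)) * ((St k q W R).card : ℝ)) := by ring
  have hlow : (5599999 / 100000 : ℝ) * (((q : ℝ) - 2 * R) / 2) ≤
      ∑ l ∈ LL n q, ∑ i ∈ JJ q W R A with l ∈ ed i, wt σ W A i := by
    rw [hdc]
    refine le_trans ?_ hge
    rw [hfib]
    refine le_trans ?_ (Finset.sum_le_sum hst)
    rw [← Finset.sum_mul]
    exact mul_le_mul_of_nonneg_right (def_sum h3 σ h0 h1') (by linarith)
  rw [Finset.sum_sub_distrib, Finset.sum_const, nsmul_eq_mul, mul_one]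
  have hq : (0 : ℝ) ≤ q := by linarith
  linarith

end Pool.Agent.MP_b8d9b4_co.Low
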