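import Pool.Agent.Lib.MP_b8d9b4_co.Low.Stm

/-!
# MP_b8d9b4_co, low range: piece deg
-/

set_option autoImplicit false

namespace Pool.Agent.MP_b8d9b4_co.Low

open Pool.Agent.MP_b8d9b4_co.Top (Sq Line lv att board)

private theorem deg_cls (X : Fin 4) (v : ℤ) : cls X v < 3 := by
  unfold cls
  split_ifs <;> norm_num

theorem p_deg (h1 : S_dF) (h2 : S_dG) (h3 : S_tab) : S_deg := by
  intro n q W R A hP σ h0 h01 l
  obtain ⟨X, v⟩ := l
  have hA : 0 ≤ A := by
    have := hP.1
    omega
  have hj : ∀ j < 408, ∑ i ∈ JJ q W R A with (i.1 = j ∧ ((X, v) : Line) ∈ ed i), wt σ W A i ≤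
      (if j < 168 then 1 - σ else σ) * ld (sg j) X (cls X v) (v / q) := by
    intro j hj
    by_cases ht : (sg j).ty = 4
    · exact h2 n q W R A hP σ h0 h01 j hj ht X v
    · exact h1 n q W R A hP σ h0 h01 j hj ht X v
  have hmaps : ∀ i ∈ (JJ q W R A).filter (fun i => ((X, v) : Line) ∈ ed i),
      i.1 ∈ Finset.range 408 := by
    intro i hi
    rw [Finset.mem_filter, mem_JJ hA] at hi
    exact Finset.mem_range.2 hi.1.1
  rw [← Finset.sum_fiberwise_of_maps_to hmaps]
  have hstep : ∀ j ∈ Finset.range 408,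
      ∑ i ∈ ((JJ q W R A).filter (fun i => ((X, v) : Line) ∈ ed i)).filter (fun i => i.1 = j),
        wt σ W A i ≤ (if j < 168 then 1 - σ else σ) * ld (sg j) X (cls X v) (v / q) := by
    intro j hj'
    refine le_trans (le_of_eq ?_) (hj j (Finset.mem_range.1 hj'))
    apply Finset.sum_congr _ (fun _ _ => rfl)
    ext i
    simp only [Finset.mem_filter]
    tauto
  refine (Finset.sum_le_sum hstep).trans ?_
  have hsplit : Finset.range 408 = Finset.range 168 ∪ Finset.Ico 168 408 := by
    ext j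
    simp only [Finset.mem_range, Finset.mem_union, Finset.mem_Ico]
    omega
  have hdisj : Disjoint (Finset.range 168) (Finset.Ico 168 408) := by
    rw [Finset.disjoint_left]
    intro j hj1 hj2
    simp only [Finset.mem_range, Finset.mem_Ico] at hj1 hj2
    omega
  rw [hsplit, Finset.sum_union hdisj]
  obtain ⟨t1, t2⟩ := h3 X (cls X v) (v / q) (deg_cls X v)
  have s1 : ∑ j ∈ Finset.range 168, (if j < 168 then 1 - σ else σ) *
      ld (sg j) X (cls X v) (v / q) =
      (1 - σ) * ∑ j ∈ Finset.range 168, ld (sg j) X (cls X v) (v / q) := by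
    rw [Finset.mul_sum]
    apply Finset.sum_congr rfl
    intro j hj1
    rw [if_pos (Finset.mem_range.1 hj1)]
  have s2 : ∑ j ∈ Finset.Ico 168 408, (if j < 168 then 1 - σ else σ) *
      ld (sg j) X (cls X v) (v / q) =
      σ * ∑ j ∈ Finset.Ico 168 408, ld (sg j) X (cls X v) (v / q) := by
    rw [Finset.mul_sum]
    apply Finset.sum_congr rfl
    intro j hj1
    rw [if_neg (not_lt.2 (Finset.mem_Ico.1 hj1).1)]
  rw [s1, s2]
  have u1 := mul_le_mul_of_nonneg_left t1 (sub_nonneg.2 h01)
  have u2 := mul_le_mul_of_nonneg_left t2 h0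
  linarith

end Pool.Agent.MP_b8d9b4_co.Low
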