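import Pool.Agent.Lib.MP_b8d9b4_co.Low.Stm

/-!
# MP_b8d9b4_co, low range, piece edc: the size of a hyperedge
-/

set_option autoImplicit false

namespace Pool.Agent.MP_b8d9b4_co.Low

open Pool.Agent.MP_b8d9b4_co.Top (Sq Line lv att board)

private theorem edc_TT (ty : ℕ) (a b : ℤ) :
    (TT ty 0 a b).card ≤ 2 ∧ (TT ty 1 a b).card ≤ 2 ∧ (TT ty 2 a b).card ≤ 3 ∧
      (TT ty 3 a b).card ≤ 3 := by
  unfold TT
  split_ifs
  · exact ⟨Finset.card_le_two, Finset.card_le_two, Finset.card_le_three, Finset.card_le_three⟩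
  · simp

private theorem edc_zero (ty : ℕ) (a b : ℤ) : (0 : ℤ) ∈ TT ty 0 a b := by
  unfold TT
  split_ifs
  · exact Finset.mem_insert_self _ _
  · exact Finset.mem_singleton_self _

theorem p_edc : S_edc := by
  intro i
  constructor
  · apply Finset.card_pos.2
    refine ⟨((0 : Fin 4), lv 0 i.2.1), ?_⟩
    rw [mem_ed]
    have h := edc_zero (sg i.1).ty i.2.2.1 i.2.2.2
    rw [sub_self]
    exact h
  · unfold ed
    generalize (sg i.1).ty = ty
    obtain ⟨h0, h1, h2, h3⟩ := edc_TT ty i.2.2.1 i.2.2.2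
    refine Finset.card_biUnion_le.trans ?_
    have hle : ∀ X : Fin 4, ((TT ty X i.2.2.1 i.2.2.2).image
        (fun t => ((X, lv X i.2.1 + t) : Line))).card ≤ (TT ty X i.2.2.1 i.2.2.2).card :=
      fun X => Finset.card_image_le
    refine (Finset.sum_le_sum fun X _ => hle X).trans ?_
    rw [Fin.sum_univ_four]
    omega

end Pool.Agent.MP_b8d9b4_co.Low
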