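import Pool.Agent.Lib.MP_b8d9b4_co.Low.Stm

/-!
# MP_b8d9b4_co, low range: piece gl
-/

set_option autoImplicit false

namespace Pool.Agent.MP_b8d9b4_co.Low

open Pool.Agent.MP_b8d9b4_co.Top (Sq Line lv att board)

private theorem gl_LL {n q : ℤ} {X : Fin 4} {v : ℤ} (h : ((X, v) : Line) ∈ LL n q) :
    (X = 0 ∧ v % 2 = 0) ∨ (X = 1 ∧ v % 2 = 0) ∨
    (X = 2 ∧ v % 4 = 0) ∨ (X = 2 ∧ v % 4 = 2 ∧ -(3 * q) ≤ v ∧ v ≤ 3 * q) ∨
    (X = 3 ∧ v % 4 = 0) ∨ (X = 3 ∧ v % 4 = 2 ∧ 11 * q ≤ v ∧ v ≤ 17 * q + 112) := by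
  simp only [LL, Finset.mem_union, Finset.mem_image, Finset.mem_filter, Finset.mem_Icc,
    Prod.mk.injEq] at h
  rcases h with ((((h | h) | h) | h) | h) | h <;> obtain ⟨w, ⟨⟨h1, h2⟩, h3⟩, h4, h5⟩ := h <;>
    subst h5
  · exact Or.inl ⟨h4.symm, h3⟩
  · exact Or.inr (Or.inl ⟨h4.symm, h3⟩)
  · exact Or.inr (Or.inr (Or.inl ⟨h4.symm, h3⟩))
  · exact Or.inr (Or.inr (Or.inr (Or.inl ⟨h4.symm, h3, h1, h2⟩)))
  · exact Or.inr (Or.inr (Or.inr (Or.inr (Or.inl ⟨h4.symm, h3⟩))))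
  · exact Or.inr (Or.inr (Or.inr (Or.inr (Or.inr ⟨h4.symm, h3, h1, h2⟩))))

theorem p_gl (h1 : S_ok) (h2 : S_mg) (h3 : S_cl) : S_gl := by
  intro n q W R A hP i hi hty l hl hLL
  obtain ⟨hA, hA2, hW, h7, hR, h4, hRq, hn1, hn2⟩ := id hP
  have hq : 0 < q := by omega
  rw [mem_JJ (by omega)] at hi
  obtain ⟨hj, hu, hab⟩ := hi
  rw [mem_St] at hu
  have hok := h1 i.1 hj
  have hmg := h2 n q W R A hP (sg i.1) hok i.2.1 hu.2
  have hkl := hu.2.2.2.2.2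
  rw [mem_ed] at hl
  obtain ⟨j, u, a, b⟩ := i
  obtain ⟨X, v⟩ := l
  simp only at hj hu hab hok hmg hkl hl hty ⊢
  clear hu
  generalize sg j = k at *
  rw [hty] at hab hkl hl
  have ho := hok.2.2.2.2.2.2 hty
  unfold AB at hab
  rw [if_pos rfl] at hab
  obtain ⟨ha1, -, -, hb1, -, -⟩ := hab
  have hk1 : u.1 % 2 = 0 := by simpa using hkl.1
  have hk2 : (u.1 - u.2) % 4 = 2 := by simpa using hkl.2
  unfold TT at hl
  rw [if_pos rfl] at hl
  have m2 := hmg 2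
  have m3 := hmg 3
  have v2 : lv 2 u = u.1 - u.2 := rfl
  have v3 : lv 3 u = u.1 + u.2 := rfl
  rcases gl_LL hLL with ⟨hX, h⟩ | ⟨hX, h⟩ | ⟨hX, h⟩ | ⟨hX, h, hlo, hhi⟩ | ⟨hX, h⟩ |
    ⟨hX, h, hlo, hhi⟩ <;> subst hX
  · have hl' : v - u.1 ∈ ({0, b} : Finset ℤ) := hl
    simp only [Finset.mem_insert, Finset.mem_singleton] at hl'
    refine ⟨Or.inl rfl, ?_⟩
    show v = u.1
    omega
  · have hl' : v - u.2 ∈ ({0, a} : Finset ℤ) := hl
    simp only [Finset.mem_insert, Finset.mem_singleton] at hl'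
    refine ⟨Or.inr rfl, ?_⟩
    show v = u.2
    omega
  · exfalso
    have hl' : v - (u.1 - u.2) ∈ ({0, -a, b} : Finset ℤ) := hl
    simp only [Finset.mem_insert, Finset.mem_singleton] at hl'
    omega
  · exfalso
    have hl' : v - (u.1 - u.2) ∈ ({0, -a, b} : Finset ℤ) := hl
    simp only [Finset.mem_insert, Finset.mem_singleton] at hl'
    rw [v2] at m2
    rcases ho.1 with h5 | h5
    · have h6 : q * 3 ≤ q * lo k 2 := mul_le_mul_of_nonneg_left h5 hq.le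
      omega
    · have h6 : q * hi k 2 ≤ q * (-3) := mul_le_mul_of_nonneg_left h5 hq.le
      omega
  · exfalso
    have hl' : v - (u.1 + u.2) ∈ ({0, a, b} : Finset ℤ) := hl
    simp only [Finset.mem_insert, Finset.mem_singleton] at hl'
    omega
  · exfalso
    have hl' : v - (u.1 + u.2) ∈ ({0, a, b} : Finset ℤ) := hl
    simp only [Finset.mem_insert, Finset.mem_singleton] at hl'
    rw [v3] at m3
    rcases ho.2 with h5 | h5
    · have h6 : q * 17 ≤ q * lo k 3 := mul_le_mul_of_nonneg_left h5 hq.le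
      omega
    · have h6 : q * hi k 3 ≤ q * 11 := mul_le_mul_of_nonneg_left h5 hq.le
      omega

end Pool.Agent.MP_b8d9b4_co.Low
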