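import Pool.Agent.Lib.MP_b8d9b4_co.Low.Stm

/-!
# MP_b8d9b4_co, low range, piece ivt: intermediate values
-/

set_option autoImplicit false

namespace Pool.Agent.MP_b8d9b4_co.Low

open Pool.Agent.MP_b8d9b4_co.Top (Sq Line lv att board)

private def ivt_Ind (S : Finset Sq) : Prop := ∀ q ∈ S, ∀ q' ∈ S, q ≠ q' → ¬ att q q'

private theorem ivt_refl (x : Sq) : att x x := ⟨0, rfl⟩

private theorem ivt_symm {x y : Sq} (h : att x y) : att y x := by
  obtain ⟨X, hX⟩ := h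
  exact ⟨X, hX.symm⟩

/-- every independent set is contained in a maximal one -/
private theorem ivt_ext {n : ℤ} {S : Finset Sq} (h1 : S ⊆ board n) (h2 : ivt_Ind S) :
    ∃ M, MIS n M ∧ S ⊆ M := by
  classical
  let C : Finset (Finset Sq) := (board n).powerset.filter (fun M => S ⊆ M ∧ ivt_Ind M)
  have hC : C.Nonempty := ⟨S, Finset.mem_filter.2 ⟨Finset.mem_powerset.2 h1,
    Finset.Subset.refl S, h2⟩⟩
  obtain ⟨M, hM, hmax⟩ := Finset.exists_max_image C Finset.card hC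
  obtain ⟨hM1, hM2, hM3⟩ := Finset.mem_filter.1 hM
  rw [Finset.mem_powerset] at hM1
  refine ⟨M, ⟨hM1, hM3, fun v hv => ?_⟩, hM2⟩
  by_contra hc
  push Not at hc
  have hvM : v ∉ M := fun h => hc v h (ivt_refl v)
  have h3 : insert v M ∈ C := by
    refine Finset.mem_filter.2 ⟨Finset.mem_powerset.2 (Finset.insert_subset hv hM1),
      hM2.trans (Finset.subset_insert _ _), ?_⟩
    intro q hq q' hq' hne
    rw [Finset.mem_insert] at hq hq'
    rcases hq with rfl | hq <;> rcases hq' with rfl | hq'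
    · exact absurd rfl hne
    · exact fun h => hc q' hq' (ivt_symm h)
    · exact hc q hq
    · exact hM3 q hq q' hq' hne
  have h4 := hmax _ h3
  rw [Finset.card_insert_of_notMem hvM] at h4
  omega

/-- the hypotheses -/
private structure ivt_H (n : ℤ) (F : Finset Sq) (G : Finset (Sq × Sq × Sq))
    (L U : Finset Line) : Prop where
  hF : F ⊆ board n
  hG : ∀ g ∈ G, g.1 ∈ board n ∧ g.2.1 ∈ board n ∧ g.2.2 ∈ board n
  hFF : ∀ p ∈ F, ∀ p' ∈ F, p ≠ p' → ¬ att p p'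
  hFG : ∀ p ∈ F, ∀ g ∈ G, ¬ att p g.1 ∧ ¬ att p g.2.1 ∧ ¬ att p g.2.2
  hGG : ∀ g ∈ G, ∀ g' ∈ G, g ≠ g' → ∀ x ∈ ({g.1, g.2.1, g.2.2} : Finset Sq),
    ∀ y ∈ ({g'.1, g'.2.1, g'.2.2} : Finset Sq), ¬ att x y
  hg : ∀ g ∈ G, lv 0 g.2.1 = lv 0 g.1 ∧ g.2.1 ≠ g.1 ∧ lv 1 g.2.2 = lv 1 g.1 ∧ g.2.2 ≠ g.1 ∧
    ¬ att g.2.1 g.2.2
  hL : ∀ x ∈ board n, ∃ X : Fin 4, ((X, lv X x) : Line) ∈ L
  hU : ∀ l ∈ L, (∀ p ∈ F, lv l.1 p ≠ l.2) →
    (∀ g ∈ G, (l.1 = 0 ∨ l.1 = 1) → lv l.1 g.1 ≠ l.2) → l ∈ U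

private def ivt_B (F : Finset Sq) (G T : Finset (Sq × Sq × Sq)) : Finset Sq :=
  F ∪ ((G \ T).image (fun g => g.1) ∪ (T.image (fun g => g.2.1) ∪ T.image (fun g => g.2.2)))

private theorem ivt_mem {F : Finset Sq} {G T : Finset (Sq × Sq × Sq)} {x : Sq} :
    x ∈ ivt_B F G T ↔ x ∈ F ∨ (∃ g ∈ G, g ∉ T ∧ g.1 = x) ∨ (∃ g ∈ T, g.2.1 = x) ∨
      ∃ g ∈ T, g.2.2 = x := by
  unfold ivt_B
  simp only [Finset.mem_union, Finset.mem_image, Finset.mem_sdiff, and_assoc]

private theorem ivt_card (F : Finset Sq) {G T : Finset (Sq × Sq × Sq)} (hT : T ⊆ G) :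
    (ivt_B F G T).card ≤ F.card + G.card + T.card := by
  unfold ivt_B
  have h1 := Finset.card_union_le F
    ((G \ T).image (fun g => g.1) ∪ (T.image (fun g => g.2.1) ∪ T.image (fun g => g.2.2)))
  have h2 := Finset.card_union_le ((G \ T).image (fun g => g.1))
    (T.image (fun g => g.2.1) ∪ T.image (fun g => g.2.2))
  have h3 := Finset.card_union_le (T.image (fun g => g.2.1)) (T.image (fun g => g.2.2))
  have h4 : ((G \ T).image (fun g => g.1)).card ≤ (G \ T).card := Finset.card_image_le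
  have h5 : (T.image (fun g : Sq × Sq × Sq => g.2.1)).card ≤ T.card := Finset.card_image_le
  have h6 : (T.image (fun g : Sq × Sq × Sq => g.2.2)).card ≤ T.card := Finset.card_image_le
  have h7 : (G \ T).card + T.card = G.card := Finset.card_sdiff_add_card_eq_card hT
  omega

section

variable {n : ℤ} {F : Finset Sq} {G : Finset (Sq × Sq × Sq)} {L U : Finset Line}

private theorem ivt_H.gg (h : ivt_H n F G L U) {g g' : Sq × Sq × Sq} (hg : g ∈ G) (hg' : g' ∈ G)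
    (hne : g ≠ g') {x y : Sq} (hx : x = g.1 ∨ x = g.2.1 ∨ x = g.2.2)
    (hy : y = g'.1 ∨ y = g'.2.1 ∨ y = g'.2.2) : ¬ att x y :=
  h.hGG g hg g' hg' hne x (by simpa using hx) y (by simpa using hy)

private theorem ivt_H.fg (h : ivt_H n F G L U) {p : Sq} (hp : p ∈ F) {g : Sq × Sq × Sq}
    (hg : g ∈ G) {x : Sq} (hx : x = g.1 ∨ x = g.2.1 ∨ x = g.2.2) : ¬ att p x := by
  obtain ⟨h1, h2, h3⟩ := h.hFG p hp g hg
  rcases hx with rfl | rfl | rfl
  · exact h1
  · exact h2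
  · exact h3

private theorem ivt_H.sub (h : ivt_H n F G L U) {T : Finset (Sq × Sq × Sq)} (hT : T ⊆ G) :
    ivt_B F G T ⊆ board n := by
  intro x hx
  rcases ivt_mem.1 hx with hx | ⟨g, hg, -, rfl⟩ | ⟨g, hg, rfl⟩ | ⟨g, hg, rfl⟩
  · exact h.hF hx
  · exact (h.hG g hg).1
  · exact (h.hG g (hT hg)).2.1
  · exact (h.hG g (hT hg)).2.2

private theorem ivt_H.ind (h : ivt_H n F G L U) {T : Finset (Sq × Sq × Sq)} (hT : T ⊆ G) :
    ivt_Ind (ivt_B F G T) := by
  intro x hx y hy hxy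
  -- every element of the base outside `F` belongs to a triple
  have key : ∀ z ∈ ivt_B F G T, z ∈ F ∨ ∃ g ∈ G, (z = g.1 ∨ z = g.2.1 ∨ z = g.2.2) ∧
      (g ∉ T → z = g.1) ∧ (g ∈ T → z ≠ g.1) := by
    intro z hz
    rcases ivt_mem.1 hz with hz | ⟨g, hg, hgT, rfl⟩ | ⟨g, hg, rfl⟩ | ⟨g, hg, rfl⟩
    · exact Or.inl hz
    · exact Or.inr ⟨g, hg, Or.inl rfl, fun _ => rfl, fun h1 => absurd h1 hgT⟩
    · exact Or.inr ⟨g, hT hg, Or.inr (Or.inl rfl), fun h1 => absurd hg h1,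
        fun _ => (h.hg g (hT hg)).2.1⟩
    · exact Or.inr ⟨g, hT hg, Or.inr (Or.inr rfl), fun h1 => absurd hg h1,
        fun _ => (h.hg g (hT hg)).2.2.2.1⟩
  rcases key x hx with hxF | ⟨g, hg, hx1, hx2, hx3⟩
  · rcases key y hy with hyF | ⟨g', hg', hy1, -, -⟩
    · exact h.hFF x hxF y hyF hxy
    · exact h.fg hxF hg' hy1
  · rcases key y hy with hyF | ⟨g', hg', hy1, hy2, hy3⟩
    · exact fun h1 => h.fg hyF hg hx1 (ivt_symm h1)
    · by_cases hgg : g = g'
      · subst hgg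
        by_cases hgT : g ∈ T
        · have hx4 := hx3 hgT
          have hy4 := hy3 hgT
          have h5 := (h.hg g hg).2.2.2.2
          rcases hx1 with rfl | rfl | rfl
          · exact absurd rfl hx4
          · rcases hy1 with rfl | rfl | rfl
            · exact absurd rfl hy4
            · exact absurd rfl hxy
            · exact h5
          · rcases hy1 with rfl | rfl | rfl
            · exact absurd rfl hy4
            · exact fun h6 => h5 (ivt_symm h6)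
            · exact absurd rfl hxy
        · exact absurd ((hx2 hgT).trans (hy2 hgT).symm) hxy
      · exact h.gg hg hg' hgg hx1 hy1

private theorem ivt_H.cardG (h : ivt_H n F G L U) :
    F.card + 2 * G.card ≤ (ivt_B F G G).card := by
  have h1 : (G.image (fun g : Sq × Sq × Sq => g.2.1)).card = G.card := by
    refine Finset.card_image_of_injOn fun g hg g' hg' hgg => ?_
    by_contra hne
    have h2 : g.2.1 = g'.2.1 := hgg
    refine h.gg (Finset.mem_coe.1 hg) (Finset.mem_coe.1 hg') hne (Or.inr (Or.inl rfl))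
      (Or.inr (Or.inl rfl)) ?_
    rw [h2]
    exact ivt_refl _
  have h2 : (G.image (fun g : Sq × Sq × Sq => g.2.2)).card = G.card := by
    refine Finset.card_image_of_injOn fun g hg g' hg' hgg => ?_
    by_contra hne
    have h2 : g.2.2 = g'.2.2 := hgg
    refine h.gg (Finset.mem_coe.1 hg) (Finset.mem_coe.1 hg') hne (Or.inr (Or.inr rfl))
      (Or.inr (Or.inr rfl)) ?_
    rw [h2]
    exact ivt_refl _
  have h3 : Disjoint (G.image (fun g : Sq × Sq × Sq => g.2.1))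
      (G.image (fun g : Sq × Sq × Sq => g.2.2)) := by
    rw [Finset.disjoint_left]
    intro x hx hx'
    obtain ⟨g, hg, rfl⟩ := Finset.mem_image.1 hx
    obtain ⟨g', hg', he⟩ := Finset.mem_image.1 hx'
    by_cases hgg : g = g'
    · subst hgg
      refine (h.hg g hg).2.2.2.2 ?_
      have he' : g.2.2 = g.2.1 := he
      rw [he']
      exact ivt_refl _
    · refine h.gg hg hg' hgg (Or.inr (Or.inl rfl)) (Or.inr (Or.inr rfl)) ?_
      have he' : g'.2.2 = g.2.1 := he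
      rw [he']
      exact ivt_refl _
  have h4 : Disjoint F (G.image (fun g : Sq × Sq × Sq => g.2.1) ∪
      G.image (fun g : Sq × Sq × Sq => g.2.2)) := by
    rw [Finset.disjoint_left]
    intro x hx hx'
    rcases Finset.mem_union.1 hx' with hx' | hx'
    · obtain ⟨g, hg, rfl⟩ := Finset.mem_image.1 hx'
      exact h.fg hx hg (Or.inr (Or.inl rfl)) (ivt_refl _)
    · obtain ⟨g, hg, rfl⟩ := Finset.mem_image.1 hx'
      exact h.fg hx hg (Or.inr (Or.inr rfl)) (ivt_refl _)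
  have h5 : F ∪ (G.image (fun g : Sq × Sq × Sq => g.2.1) ∪
      G.image (fun g : Sq × Sq × Sq => g.2.2)) ⊆ ivt_B F G G := by
    intro x hx
    rw [ivt_mem]
    rcases Finset.mem_union.1 hx with hx | hx
    · exact Or.inl hx
    · rcases Finset.mem_union.1 hx with hx | hx
      · obtain ⟨g, hg, rfl⟩ := Finset.mem_image.1 hx
        exact Or.inr (Or.inr (Or.inl ⟨g, hg, rfl⟩))
      · obtain ⟨g, hg, rfl⟩ := Finset.mem_image.1 hx
        exact Or.inr (Or.inr (Or.inr ⟨g, hg, rfl⟩))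
  have h6 := Finset.card_le_card h5
  rw [Finset.card_union_of_disjoint h4, Finset.card_union_of_disjoint h3, h1, h2] at h6
  omega

/-- the additional squares -/
private theorem ivt_H.cardQ (h : ivt_H n F G L U) {T : Finset (Sq × Sq × Sq)} (hT : T ⊆ G)
    {M : Finset Sq} (hM : MIS n M) (hMT : ivt_B F G T ⊆ M) :
    (M \ ivt_B F G T).card ≤ U.card := by
  classical
  have key : ∀ q ∈ M \ ivt_B F G T, ∃ X : Fin 4, ((X, lv X q) : Line) ∈ U := by
    intro q hq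
    obtain ⟨hq1, hq2⟩ := Finset.mem_sdiff.1 hq
    obtain ⟨X, hX⟩ := h.hL q (hM.1 hq1)
    have hno : ∀ x ∈ ivt_B F G T, lv X x ≠ lv X q := by
      intro x hx he
      have hne : x ≠ q := fun h1 => hq2 (h1 ▸ hx)
      exact hM.2.1 x (hMT hx) q hq1 hne ⟨X, he⟩
    refine ⟨X, h.hU _ hX ?_ ?_⟩
    · intro p hp
      exact hno p (ivt_mem.2 (Or.inl hp))
    · intro g hg hX01
      show lv X g.1 ≠ lv X q
      by_cases hgT : g ∈ T
      · rcases hX01 with hX0 | hX1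
        · have hX0' : X = 0 := hX0
          rw [hX0', ← (h.hg g hg).1, ← hX0']
          exact hno _ (ivt_mem.2 (Or.inr (Or.inr (Or.inl ⟨g, hgT, rfl⟩))))
        · have hX1' : X = 1 := hX1
          rw [hX1', ← (h.hg g hg).2.2.1, ← hX1']
          exact hno _ (ivt_mem.2 (Or.inr (Or.inr (Or.inr ⟨g, hgT, rfl⟩))))
      · exact hno _ (ivt_mem.2 (Or.inr (Or.inl ⟨g, hg, hgT, rfl⟩)))
  choose! f hf using key
  refine Finset.card_le_card_of_injOn (fun q => ((f q, lv (f q) q) : Line)) ?_ ?_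
  · intro q hq
    exact Finset.mem_coe.2 (hf q (Finset.mem_coe.1 hq))
  · intro q hq q' hq' he
    by_contra hne
    obtain ⟨e1, e2⟩ := Prod.mk.inj he
    have hq1 := (Finset.mem_sdiff.1 (Finset.mem_coe.1 hq)).1
    have hq1' := (Finset.mem_sdiff.1 (Finset.mem_coe.1 hq')).1
    refine hM.2.1 q hq1 q' hq1' hne ⟨f q, ?_⟩
    rw [e2, e1]

/-- a clean triple -/
private theorem ivt_H.clean (h : ivt_H n F G L U) {T : Finset (Sq × Sq × Sq)} (hT : T ⊆ G)
    {M : Finset Sq} (hM : MIS n M) (hMT : ivt_B F G T ⊆ M) (hc : 4 * U.card < T.card) :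
    ∃ g ∈ T, ∀ q ∈ M \ ivt_B F G T, ¬ att q g.1 := by
  classical
  by_contra hcon
  push Not at hcon
  have key : ∀ g ∈ T, ∃ y : Sq × Fin 4, y.1 ∈ M \ ivt_B F G T ∧ lv y.2 y.1 = lv y.2 g.1 := by
    intro g hg
    obtain ⟨q, hq, X, hX⟩ := hcon g hg
    exact ⟨(q, X), hq, hX⟩
  choose! f hf using key
  have h1 : T.card ≤ ((M \ ivt_B F G T) ×ˢ (Finset.univ : Finset (Fin 4))).card := by
    refine Finset.card_le_card_of_injOn f ?_ ?_
    · intro g hg
      exact Finset.mem_coe.2 (Finset.mem_product.2 ⟨(hf g (Finset.mem_coe.1 hg)).1,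
        Finset.mem_univ _⟩)
    · intro g hg g' hg' he
      by_contra hne
      refine h.gg (hT (Finset.mem_coe.1 hg)) (hT (Finset.mem_coe.1 hg')) hne (Or.inl rfl)
        (Or.inl rfl) ⟨(f g).2, ?_⟩
      rw [← (hf g (Finset.mem_coe.1 hg)).2]
      have h2 := (hf g' (Finset.mem_coe.1 hg')).2
      rw [← he] at h2
      exact h2
  rw [Finset.card_product, Finset.card_univ, Fintype.card_fin] at h1
  have h2 := h.cardQ hT hM hMT
  omega

/-- the step -/
private theorem ivt_H.step (h : ivt_H n F G L U) {T : Finset (Sq × Sq × Sq)} (hT : T ⊆ G)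
    {M : Finset Sq} (hM : MIS n M) (hMT : ivt_B F G T ⊆ M) {g : Sq × Sq × Sq} (hgT : g ∈ T)
    (hgc : ∀ q ∈ M \ ivt_B F G T, ¬ att q g.1) :
    ∃ N, MIS n N ∧ ivt_B F G (T.erase g) ⊆ N ∧ M.card ≤ N.card + 1 := by
  classical
  have hg := h.hg g (hT hgT)
  have hv : g.2.1 ∈ M := hMT (ivt_mem.2 (Or.inr (Or.inr (Or.inl ⟨g, hgT, rfl⟩))))
  have hw : g.2.2 ∈ M := hMT (ivt_mem.2 (Or.inr (Or.inr (Or.inr ⟨g, hgT, rfl⟩))))
  have hu : g.1 ∉ M := fun hu => hM.2.1 _ hv _ hu hg.2.1 ⟨0, hg.1⟩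
  have hvw : g.2.2 ≠ g.2.1 := by
    intro he
    apply hg.2.2.2.2
    rw [he]
    exact ivt_refl _
  -- nothing else attacks the square `g.1`
  have hno : ∀ x ∈ M, x ≠ g.2.1 → x ≠ g.2.2 → ¬ att x g.1 := by
    intro x hx hxv hxw
    by_cases hxB : x ∈ ivt_B F G T
    · rcases ivt_mem.1 hxB with hxF | ⟨g', hg', hg'T, rfl⟩ | ⟨g', hg', rfl⟩ | ⟨g', hg', rfl⟩
      · exact h.fg hxF (hT hgT) (Or.inl rfl)
      · exact h.gg hg' (hT hgT) (fun he => hg'T (he ▸ hgT)) (Or.inl rfl) (Or.inl rfl)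
      · exact h.gg (hT hg') (hT hgT) (fun he => hxv (he ▸ rfl)) (Or.inr (Or.inl rfl))
          (Or.inl rfl)
      · exact h.gg (hT hg') (hT hgT) (fun he => hxw (he ▸ rfl)) (Or.inr (Or.inr rfl))
          (Or.inl rfl)
    · exact hgc x (Finset.mem_sdiff.2 ⟨hx, hxB⟩)
  let M' : Finset Sq := insert g.1 ((M.erase g.2.1).erase g.2.2)
  have hM' : ∀ x, x ∈ M' ↔ x = g.1 ∨ (x ≠ g.2.2 ∧ x ≠ g.2.1 ∧ x ∈ M) := by
    intro x
    simp only [M', Finset.mem_insert, Finset.mem_erase]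
  have hsub : M' ⊆ board n := by
    intro x hx
    rcases (hM' x).1 hx with rfl | ⟨-, -, hx⟩
    · exact (h.hG g (hT hgT)).1
    · exact hM.1 hx
  have hind : ivt_Ind M' := by
    intro x hx y hy hxy
    rcases (hM' x).1 hx with rfl | ⟨hx1, hx2, hx3⟩
    · rcases (hM' y).1 hy with rfl | ⟨hy1, hy2, hy3⟩
      · exact absurd rfl hxy
      · exact fun h1 => hno y hy3 hy2 hy1 (ivt_symm h1)
    · rcases (hM' y).1 hy with rfl | ⟨hy1, hy2, hy3⟩
      · exact hno x hx3 hx2 hx1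
      · exact hM.2.1 x hx3 y hy3 hxy
  obtain ⟨N, hN, hN2⟩ := ivt_ext hsub hind
  refine ⟨N, hN, ?_, ?_⟩
  · refine Finset.Subset.trans ?_ hN2
    -- a square which belongs to another triple or to `F` is not `g.2.1` or `g.2.2`
    have hother : ∀ g' ∈ G, g' ≠ g → ∀ x, (x = g'.1 ∨ x = g'.2.1 ∨ x = g'.2.2) →
        x ≠ g.2.2 ∧ x ≠ g.2.1 := by
      intro g' hg' hne x hx
      constructor
      · rintro rfl
        exact h.gg hg' (hT hgT) hne hx (Or.inr (Or.inr rfl)) (ivt_refl _)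
      · rintro rfl
        exact h.gg hg' (hT hgT) hne hx (Or.inr (Or.inl rfl)) (ivt_refl _)
    intro x hx
    rw [hM']
    rcases ivt_mem.1 hx with hxF | ⟨g', hg', hg'T, rfl⟩ | ⟨g', hg', rfl⟩ | ⟨g', hg', rfl⟩
    · refine Or.inr ⟨?_, ?_, hMT (ivt_mem.2 (Or.inl hxF))⟩
      · rintro rfl
        exact h.fg hxF (hT hgT) (Or.inr (Or.inr rfl)) (ivt_refl _)
      · rintro rfl
        exact h.fg hxF (hT hgT) (Or.inr (Or.inl rfl)) (ivt_refl _)
    · by_cases hgg : g' = g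
      · left
        rw [hgg]
      · have h1 : g' ∉ T := fun h1 => hg'T (Finset.mem_erase.2 ⟨hgg, h1⟩)
        obtain ⟨h2, h3⟩ := hother g' hg' hgg g'.1 (Or.inl rfl)
        exact Or.inr ⟨h2, h3, hMT (ivt_mem.2 (Or.inr (Or.inl ⟨g', hg', h1, rfl⟩)))⟩
    · obtain ⟨hgg, h1⟩ := Finset.mem_erase.1 hg'
      obtain ⟨h2, h3⟩ := hother g' (hT h1) hgg g'.2.1 (Or.inr (Or.inl rfl))
      exact Or.inr ⟨h2, h3, hMT (ivt_mem.2 (Or.inr (Or.inr (Or.inl ⟨g', h1, rfl⟩))))⟩
    · obtain ⟨hgg, h1⟩ := Finset.mem_erase.1 hg'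
      obtain ⟨h2, h3⟩ := hother g' (hT h1) hgg g'.2.2 (Or.inr (Or.inr rfl))
      exact Or.inr ⟨h2, h3, hMT (ivt_mem.2 (Or.inr (Or.inr (Or.inr ⟨g', h1, rfl⟩))))⟩
  · have h1 : M'.card + 1 = M.card := by
      have h2 : g.1 ∉ (M.erase g.2.1).erase g.2.2 := fun h3 =>
        hu (Finset.mem_of_mem_erase (Finset.mem_of_mem_erase h3))
      have h3 : g.2.2 ∈ M.erase g.2.1 := Finset.mem_erase.2 ⟨hvw, hw⟩
      have h4 := Finset.card_erase_add_one h3
      have h5 := Finset.card_erase_add_one hv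
      have h6 : M'.card = ((M.erase g.2.1).erase g.2.2).card + 1 :=
        Finset.card_insert_of_notMem h2
      omega
    have h2 := Finset.card_le_card hN2
    omega

private theorem ivt_H.main (h : ivt_H n F G L U) (j : ℕ)
    (hj : F.card + G.card + 5 * U.card ≤ j) (T : Finset (Sq × Sq × Sq)) :
    T ⊆ G → ∀ M, MIS n M → ivt_B F G T ⊆ M → j ≤ M.card → ∃ S : Finset Sq, MIS n S ∧ S.card = j := by
  classical
  induction T using Finset.strongInduction with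
  | H T ih =>
    intro hT M hM hMT hjM
    by_cases hjM' : M.card = j
    · exact ⟨M, hM, hjM'⟩
    have h1 := h.cardQ hT hM hMT
    have h2 := ivt_card F hT
    have h3 : (M \ ivt_B F G T).card + (ivt_B F G T).card = M.card :=
      Finset.card_sdiff_add_card_eq_card hMT
    have h4 : 4 * U.card < T.card := by omega
    obtain ⟨g, hgT, hgc⟩ := h.clean hT hM hMT h4
    obtain ⟨N, hN, hN2, hN3⟩ := h.step hT hM hMT hgT hgc
    exact ih (T.erase g) (Finset.erase_ssubset hgT) ((Finset.erase_subset _ _).trans hT) N hN hN2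
      (by omega)

end

theorem p_ivt : S_ivt := by
  intro n F G L U hF hG hFF hFG hGG hg hL hU j hj1 hj2
  have h : ivt_H n F G L U := ⟨hF, hG, hFF, hFG, hGG, hg, hL, hU⟩
  obtain ⟨M, hM, hM2⟩ := ivt_ext (h.sub (Finset.Subset.refl G)) (h.ind (Finset.Subset.refl G))
  refine h.main j hj1 G (Finset.Subset.refl G) M hM hM2 ?_
  have h1 := h.cardG
  have h2 := Finset.card_le_card hM2
  omega

end Pool.Agent.MP_b8d9b4_co.Low
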