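import Pool.Agent.Lib.MP_b8d9b4_co.Low.Stm

/-!
# MP_b8d9b4_co, low range: piece `kF`
-/

set_option autoImplicit false

namespace Pool.Agent.MP_b8d9b4_co.Low

open Pool.Agent.MP_b8d9b4_co.Top (Sq Line lv att board queensGraph)

/-- two lines of different types determine the square -/
private theorem kF_det {X Y : Fin 4} (h : X ≠ Y) {u u' : Sq} (h1 : lv X u = lv X u')
    (h2 : lv Y u = lv Y u') : u = u' := by
  have h4 : ∀ X : Fin 4, X = 0 ∨ X = 1 ∨ X = 2 ∨ X = 3 := by decide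
  obtain ⟨x, y⟩ := u
  obtain ⟨x', y'⟩ := u'
  rw [Prod.mk.injEq]
  rcases h4 X with rfl | rfl | rfl | rfl <;> rcases h4 Y with rfl | rfl | rfl | rfl <;>
    first
    | exact absurd rfl h
    | (simp only [lv] at h1 h2
       omega)

private theorem kF_am {σ : ℝ} (h0 : 0 ≤ σ) (h1 : σ ≤ 1) (j : ℕ) : 0 ≤ am σ j := by
  unfold am
  have h2 : (0 : ℝ) ≤ if j < 168 then 1 - σ else σ := by
    split_ifs
    · linarith
    · exact h0
  positivity

theorem p_kF : S_kF := by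
  intro n q W R A hpar σ h0 h1 j hj hty l1 l2 hl
  obtain ⟨hA, -, hW, -⟩ := hpar
  have hWr : (0 : ℝ) < (W : ℝ) := by exact_mod_cast hW
  have ham := kF_am h0 h1 j
  have hcard : ((JJ q W R A).filter
      (fun i => i.1 = j ∧ l1 ∈ ed i ∧ l2 ∈ ed i)).card ≤ 1 := by
    rw [Finset.card_le_one]
    rintro ⟨j1, u, a, b⟩ hi ⟨j2, u', a', b'⟩ hi'
    rw [Finset.mem_filter, mem_JJ (by omega), mem_ed, mem_ed] at hi hi'
    obtain ⟨⟨-, -, hab⟩, hj1, hm1, hm2⟩ := hi
    obtain ⟨⟨-, -, hab'⟩, hj2, hm1', hm2'⟩ := hi'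
    simp only at hj1 hj2
    subst hj1
    subst hj2
    simp only at hab hab' hm1 hm2 hm1' hm2'
    unfold AB at hab hab'
    unfold TT at hm1 hm2 hm1' hm2'
    rw [if_neg hty] at hab hab' hm1 hm2 hm1' hm2'
    rw [Finset.mem_singleton] at hm1 hm2 hm1' hm2'
    obtain ⟨rfl, rfl⟩ := hab
    obtain ⟨rfl, rfl⟩ := hab'
    have hX : l1.1 ≠ l2.1 := by
      intro hc
      apply hl
      rw [← hc] at hm2
      exact Prod.ext hc (by omega)
    have hu : u = u' := kF_det hX (by omega) (by omega)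
    rw [hu]
  have hw : ∀ i ∈ (JJ q W R A).filter (fun i => i.1 = j ∧ l1 ∈ ed i ∧ l2 ∈ ed i),
      wt σ W A i ≤ am σ j * (36 / W) := by
    intro i hi
    rw [Finset.mem_filter] at hi
    unfold wt
    rw [hi.2.1, if_neg hty, div_one, mul_div_assoc]
    refine mul_le_mul_of_nonneg_left ?_ ham
    gcongr
    norm_num
  have hnn : 0 ≤ am σ j * (36 / (W : ℝ)) := by positivity
  calc _ ≤ (((JJ q W R A).filter (fun i => i.1 = j ∧ l1 ∈ ed i ∧ l2 ∈ ed i)).card : ℝ) *
        (am σ j * (36 / W)) := by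
        rw [← nsmul_eq_mul]
        exact Finset.sum_le_card_nsmul _ _ _ hw
    _ ≤ 1 * (am σ j * (36 / W)) := by
        refine mul_le_mul_of_nonneg_right ?_ hnn
        exact_mod_cast hcard
    _ = _ := one_mul _

end Pool.Agent.MP_b8d9b4_co.Low
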