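import Pool.Agent.Lib.MP_b8d9b4_co.Low.Stm

/-!
# MP_b8d9b4_co, low range: piece `kG`
-/

set_option autoImplicit false

namespace Pool.Agent.MP_b8d9b4_co.Low

open Pool.Agent.MP_b8d9b4_co.Top (Sq Line lv att board queensGraph)

private theorem kG_det {X Y : Fin 4} (h : X ≠ Y) {u u' : Sq} (h1 : lv X u = lv X u')
    (h2 : lv Y u = lv Y u') : u = u' := by
  have h4 : ∀ X : Fin 4, X = 0 ∨ X = 1 ∨ X = 2 ∨ X = 3 := by decide
  obtain ⟨x, y⟩ := u
  obtain ⟨x', y'⟩ := u'
  rw [Prod.mk.injEq]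
  rcases h4 X with rfl | rfl | rfl | rfl <;> rcases h4 Y with rfl | rfl | rfl | rfl <;>
    first
    | exact absurd rfl h
    | (simp only [lv] at h1 h2
       omega)

private theorem kG_am {σ : ℝ} (h0 : 0 ≤ σ) (h1 : σ ≤ 1) (j : ℕ) : 0 ≤ am σ j := by
  unfold am
  have h2 : (0 : ℝ) ≤ if j < 168 then 1 - σ else σ := by
    split_ifs
    · linarith
    · exact h0
  positivity

/-- the coefficients of `a` in the shifts -/
private def kG_ca (X : Fin 4) (r : Fin 3) : ℤ :=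
  match X with
  | 0 => 0
  | 1 => if r = 0 then 0 else 1
  | 2 => if r = 1 then -1 else 0
  | 3 => if r = 1 then 1 else 0

/-- the coefficients of `b` in the shifts -/
private def kG_cb (X : Fin 4) (r : Fin 3) : ℤ :=
  match X with
  | 0 => if r = 0 then 0 else 1
  | 1 => 0
  | 2 => if r = 2 then 1 else 0
  | 3 => if r = 2 then 1 else 0

private theorem kG_sh {X : Fin 4} {a b s : ℤ} (h : s ∈ TT 4 X a b) :
    ∃ r : Fin 3, s = kG_ca X r * a + kG_cb X r * b := by
  have h4 : ∀ X : Fin 4, X = 0 ∨ X = 1 ∨ X = 2 ∨ X = 3 := by decide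
  unfold TT at h
  rw [if_pos rfl] at h
  rcases h4 X with rfl | rfl | rfl | rfl
  · simp only [Finset.mem_insert, Finset.mem_singleton] at h
    rcases h with rfl | rfl
    · exact ⟨0, by simp [kG_ca, kG_cb]⟩
    · exact ⟨1, by simp [kG_ca, kG_cb]⟩
  · simp only [Finset.mem_insert, Finset.mem_singleton] at h
    rcases h with rfl | rfl
    · exact ⟨0, by simp [kG_ca, kG_cb]⟩
    · exact ⟨1, by simp [kG_ca, kG_cb]⟩
  · simp only [Finset.mem_insert, Finset.mem_singleton] at h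
    rcases h with rfl | rfl | rfl
    · exact ⟨0, by simp [kG_ca, kG_cb]⟩
    · exact ⟨1, by simp [kG_ca, kG_cb]⟩
    · exact ⟨2, by simp [kG_ca, kG_cb]⟩
  · simp only [Finset.mem_insert, Finset.mem_singleton] at h
    rcases h with rfl | rfl | rfl
    · exact ⟨0, by simp [kG_ca, kG_cb]⟩
    · exact ⟨1, by simp [kG_ca, kG_cb]⟩
    · exact ⟨2, by simp [kG_ca, kG_cb]⟩

open Classical in
/-- the indices for which the two lines have given shifts -/
private noncomputable def kG_F (q W R A : ℤ) (j : ℕ) (l1 l2 : Line) (r1 r2 : Fin 3) : Finset Ix :=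
  (JJ q W R A).filter (fun i => i.1 = j ∧
    l1.2 - lv l1.1 i.2.1 = kG_ca l1.1 r1 * i.2.2.1 + kG_cb l1.1 r1 * i.2.2.2 ∧
    l2.2 - lv l2.1 i.2.1 = kG_ca l2.1 r2 * i.2.2.1 + kG_cb l2.1 r2 * i.2.2.2)

/-- membership -/
private theorem kG_mem {q W R A : ℤ} (hA : 0 ≤ A) {j : ℕ} (hty : (sg j).ty = 4) {l1 l2 : Line}
    {r1 r2 : Fin 3} {i : Ix} (hi : i ∈ kG_F q W R A j l1 l2 r1 r2) :
    i.1 = j ∧ i.2.1 ∈ St (sg j) q W R ∧
    (i.2.2.1 % 2 = 1 ∧ 1 ≤ i.2.2.1 ∧ i.2.2.1 < 2 * A ∧ i.2.2.2 % 2 = 1 ∧ 2 * A < i.2.2.2 ∧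
      i.2.2.2 < 4 * A) ∧
    l1.2 - lv l1.1 i.2.1 = kG_ca l1.1 r1 * i.2.2.1 + kG_cb l1.1 r1 * i.2.2.2 ∧
    l2.2 - lv l2.1 i.2.1 = kG_ca l2.1 r2 * i.2.2.1 + kG_cb l2.1 r2 * i.2.2.2 := by
  unfold kG_F at hi
  rw [Finset.mem_filter, mem_JJ hA] at hi
  obtain ⟨⟨-, h2, h3⟩, h4, h5, h6⟩ := hi
  rw [h4] at h2 h3
  unfold AB at h3
  rw [if_pos hty] at h3
  exact ⟨h4, h2, h3, h5, h6⟩

/-- lines of different types -/
private theorem kG_c1 {q W R A : ℤ} (hA : 0 ≤ A) {j : ℕ} (hty : (sg j).ty = 4) {l1 l2 : Line}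
    (hX : l1.1 ≠ l2.1) (r1 r2 : Fin 3) :
    ((kG_F q W R A j l1 l2 r1 r2).card : ℤ) ≤ A * A := by
  have h1 : (kG_F q W R A j l1 l2 r1 r2).card ≤
      ((Finset.Ico (0 : ℤ) A) ×ˢ (Finset.Ico A (2 * A))).card := by
    refine Finset.card_le_card_of_injOn
      (fun i => ((i.2.2.1 - 1) / 2, (i.2.2.2 - 1) / 2)) ?_ ?_
    · intro i hi
      rw [Finset.mem_coe] at hi
      obtain ⟨-, -, h3, -, -⟩ := kG_mem hA hty hi
      rw [Finset.mem_coe, Finset.mem_product, Finset.mem_Ico, Finset.mem_Ico]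
      simp only
      omega
    · intro i hi i' hi' he
      rw [Finset.mem_coe] at hi hi'
      obtain ⟨h1, -, h3, h4, h5⟩ := kG_mem hA hty hi
      obtain ⟨h1', -, h3', h4', h5'⟩ := kG_mem hA hty hi'
      rw [Prod.mk.injEq] at he
      obtain ⟨j0, u, a, b⟩ := i
      obtain ⟨j0', u', a', b'⟩ := i'
      simp only at h1 h3 h4 h5 h1' h3' h4' h5' he
      have ha : a = a' := by omega
      have hb : b = b' := by omega
      subst ha
      subst hb
      have hu : u = u' := kG_det hX (by linarith) (by linarith)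
      rw [h1, h1', hu]
  rw [Finset.card_product, Int.card_Ico, Int.card_Ico] at h1
  have h2 : ((kG_F q W R A j l1 l2 r1 r2).card : ℤ) ≤
      (((A - 0).toNat * (2 * A - A).toNat : ℕ) : ℤ) := by exact_mod_cast h1
  rw [Nat.cast_mul, Int.toNat_of_nonneg (by omega), Int.toNat_of_nonneg (by omega)] at h2
  refine h2.trans (le_of_eq ?_)
  ring

/-- lines of the same type -/
private theorem kG_c2 {q W R A : ℤ} (hA : 0 ≤ A) (hW : 0 < W) {j : ℕ} (hty : (sg j).ty = 4)
    (hln : ∀ (X : Fin 4) (v : ℤ),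
      2 * (((St (sg j) q W R).filter (fun p => lv X p = v)).card : ℤ) ≤ W)
    {l1 l2 : Line} (hX : l1.1 = l2.1) (hl : l1.2 ≠ l2.2) (r1 r2 : Fin 3) :
    2 * ((kG_F q W R A j l1 l2 r1 r2).card : ℤ) ≤ W * A := by
  classical
  -- the index of the fibres
  obtain ⟨f, hf1, hf2⟩ : ∃ f : Ix → ℤ,
      (∀ i ∈ kG_F q W R A j l1 l2 r1 r2, f i ∈ Finset.Ico (0 : ℤ) A) ∧
      ∀ i ∈ kG_F q W R A j l1 l2 r1 r2, ∀ i' ∈ kG_F q W R A j l1 l2 r1 r2, f i = f i' →
        i.2.2 = i'.2.2 := by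
    by_cases hβ : kG_cb l1.1 r1 - kG_cb l1.1 r2 = 0
    · refine ⟨fun i => (i.2.2.2 - 1) / 2 - A, ?_, ?_⟩
      · intro i hi
        obtain ⟨-, -, h3, -, -⟩ := kG_mem hA hty hi
        rw [Finset.mem_Ico]
        simp only
        omega
      · intro i hi i' hi' he
        obtain ⟨-, -, h3, h4, h5⟩ := kG_mem hA hty hi
        obtain ⟨-, -, h3', h4', h5'⟩ := kG_mem hA hty hi'
        rw [← hX] at h5 h5'
        obtain ⟨j0, u, a, b⟩ := i
        obtain ⟨j0', u', a', b'⟩ := i'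
        simp only at h3 h4 h5 h3' h4' h5' he ⊢
        have hb : b = b' := by omega
        subst hb
        have hD : (kG_ca l1.1 r1 - kG_ca l1.1 r2) * a = l1.2 - l2.2 := by
          linear_combination h5 - h4 - b * hβ
        have hD' : (kG_ca l1.1 r1 - kG_ca l1.1 r2) * a' = l1.2 - l2.2 := by
          linear_combination h5' - h4' - b * hβ
        have hα : kG_ca l1.1 r1 - kG_ca l1.1 r2 ≠ 0 := by
          intro hc
          rw [hc, zero_mul] at hD
          exact hl (by linarith)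
        have ha : a = a' := mul_left_cancel₀ hα (hD.trans hD'.symm)
        rw [ha]
    · refine ⟨fun i => (i.2.2.1 - 1) / 2, ?_, ?_⟩
      · intro i hi
        obtain ⟨-, -, h3, -, -⟩ := kG_mem hA hty hi
        rw [Finset.mem_Ico]
        simp only
        omega
      · intro i hi i' hi' he
        obtain ⟨-, -, h3, h4, h5⟩ := kG_mem hA hty hi
        obtain ⟨-, -, h3', h4', h5'⟩ := kG_mem hA hty hi'
        rw [← hX] at h5 h5'
        obtain ⟨j0, u, a, b⟩ := i
        obtain ⟨j0', u', a', b'⟩ := i'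
        simp only at h3 h4 h5 h3' h4' h5' he ⊢
        have ha : a = a' := by omega
        subst ha
        have hb : b = b' := by
          refine mul_left_cancel₀ hβ ?_
          linear_combination h5 - h4 - (h5' - h4')
        rw [hb]
  have hn : (kG_F q W R A j l1 l2 r1 r2).card ≤ (W / 2).toNat * (Finset.Ico (0 : ℤ) A).card := by
    refine Finset.card_le_mul_card_image_of_maps_to hf1 _ ?_
    intro c _
    rcases ((kG_F q W R A j l1 l2 r1 r2).filter (fun i => f i = c)).eq_empty_or_nonempty with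
      h0 | ⟨i0, hi0⟩
    · rw [h0, Finset.card_empty]
      exact Nat.zero_le _
    · rw [Finset.mem_filter] at hi0
      have h1 : ((kG_F q W R A j l1 l2 r1 r2).filter (fun i => f i = c)).card ≤
          ((St (sg j) q W R).filter (fun p => lv l1.1 p = lv l1.1 i0.2.1)).card := by
        refine Finset.card_le_card_of_injOn (fun i => i.2.1) ?_ ?_
        · intro i hi
          rw [Finset.mem_coe, Finset.mem_filter] at hi
          have h2 := hf2 i hi.1 i0 hi0.1 (hi.2.trans hi0.2.symm)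
          obtain ⟨-, h3, -, h4, -⟩ := kG_mem hA hty hi.1
          obtain ⟨-, -, -, h4', -⟩ := kG_mem hA hty hi0.1
          rw [Finset.mem_coe, Finset.mem_filter]
          refine ⟨h3, ?_⟩
          rw [h2] at h4
          linarith
        · intro i hi i' hi' he
          rw [Finset.mem_coe, Finset.mem_filter] at hi hi'
          have h2 := hf2 i hi.1 i' hi'.1 (hi.2.trans hi'.2.symm)
          have h3 := (kG_mem hA hty hi.1).1
          have h3' := (kG_mem hA hty hi'.1).1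
          exact Prod.ext (h3.trans h3'.symm) (Prod.ext he h2)
      have h2 := hln l1.1 (lv l1.1 i0.2.1)
      omega
  rw [Int.card_Ico] at hn
  have hn2 : ((kG_F q W R A j l1 l2 r1 r2).card : ℤ) ≤
      (((W / 2).toNat * (A - 0).toNat : ℕ) : ℤ) := by exact_mod_cast hn
  rw [Nat.cast_mul, Int.toNat_of_nonneg (by omega), Int.toNat_of_nonneg (by omega),
    sub_zero] at hn2
  have h5 : 2 * (W / 2) ≤ W := by omega
  have h6 : 2 * (W / 2) * A ≤ W * A := mul_le_mul_of_nonneg_right h5 hA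
  linarith

theorem p_kG (h1 : S_ok) (h2 : S_ln) : S_kG := by
  intro n q W R A hpar σ hσ0 hσ1 j hj hty l1 l2 hl
  have hok := h1 j hj
  have hln : ∀ (X : Fin 4) (v : ℤ),
      2 * (((St (sg j) q W R).filter (fun p => lv X p = v)).card : ℤ) ≤ W := by
    intro X v
    have h3 := h2 n q W R A hpar (sg j) hok X v
    have h4 := (hok.2.2.2.2.2.1 X).1
    have h5 : 2 ≤ (if X.val < 2 then 4 else 2) * len (sg j) X := by
      split_ifs <;> linarith
    have h6 : (0 : ℤ) ≤ (((St (sg j) q W R).filter (fun p => lv X p = v)).card : ℤ) :=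
      Int.natCast_nonneg _
    nlinarith
  obtain ⟨hA, -, hW, -⟩ := hpar
  have hA0 : 0 ≤ A := by omega
  have hWr : (0 : ℝ) < (W : ℝ) := by exact_mod_cast hW
  have hAr : (0 : ℝ) < (A : ℝ) := by
    have : (0 : ℤ) < A := by omega
    exact_mod_cast this
  have ham := kG_am hσ0 hσ1 j
  classical
  have hsub : (JJ q W R A).filter (fun i => i.1 = j ∧ l1 ∈ ed i ∧ l2 ∈ ed i) ⊆
      (Finset.univ : Finset (Fin 3 × Fin 3)).biUnion
        (fun r => kG_F q W R A j l1 l2 r.1 r.2) := by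
    intro i hi
    rw [Finset.mem_filter, mem_ed, mem_ed] at hi
    obtain ⟨hi0, hij, hm1, hm2⟩ := hi
    rw [hij, hty] at hm1 hm2
    obtain ⟨r1, hr1⟩ := kG_sh hm1
    obtain ⟨r2, hr2⟩ := kG_sh hm2
    rw [Finset.mem_biUnion]
    refine ⟨(r1, r2), Finset.mem_univ _, ?_⟩
    unfold kG_F
    rw [Finset.mem_filter]
    exact ⟨hi0, hij, hr1, hr2⟩
  have hB : ∀ r1 r2 : Fin 3, ((kG_F q W R A j l1 l2 r1 r2).card : ℝ) ≤
      (A : ℝ) * A + W * A / 2 := by
    intro r1 r2
    by_cases hX : l1.1 = l2.1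
    · have hl' : l1.2 ≠ l2.2 := fun hc => hl (Prod.ext hX hc)
      have h3 := kG_c2 hA0 hW hty hln hX hl' r1 r2
      have h4 : (2 : ℝ) * ((kG_F q W R A j l1 l2 r1 r2).card : ℝ) ≤ W * A := by
        exact_mod_cast h3
      nlinarith [mul_pos hAr hAr]
    · have h3 := kG_c1 (q := q) (W := W) (R := R) hA0 hty hX r1 r2
      have h4 : ((kG_F q W R A j l1 l2 r1 r2).card : ℝ) ≤ A * A := by exact_mod_cast h3
      have h5 : (0 : ℝ) ≤ W * A / 2 := by positivity
      linarith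
  have hcard : (((JJ q W R A).filter (fun i => i.1 = j ∧ l1 ∈ ed i ∧ l2 ∈ ed i)).card : ℝ) ≤
      9 * ((A : ℝ) * A + W * A / 2) := by
    have h3 : (((JJ q W R A).filter (fun i => i.1 = j ∧ l1 ∈ ed i ∧ l2 ∈ ed i)).card : ℝ) ≤
        ∑ r : Fin 3 × Fin 3, ((kG_F q W R A j l1 l2 r.1 r.2).card : ℝ) := by
      have h4 := (Finset.card_le_card hsub).trans Finset.card_biUnion_le
      exact_mod_cast h4
    refine h3.trans ?_
    have h5 : ∑ r : Fin 3 × Fin 3, ((kG_F q W R A j l1 l2 r.1 r.2).card : ℝ) ≤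
        ∑ _r : Fin 3 × Fin 3, ((A : ℝ) * A + W * A / 2) :=
      Finset.sum_le_sum fun r _ => hB r.1 r.2
    refine h5.trans (le_of_eq ?_)
    rw [Finset.sum_const, Finset.card_univ, Fintype.card_prod, Fintype.card_fin, nsmul_eq_mul]
    norm_num
  have hw : ∀ i ∈ (JJ q W R A).filter (fun i => i.1 = j ∧ l1 ∈ ed i ∧ l2 ∈ ed i),
      wt σ W A i ≤ am σ j * 4 / W / (A : ℝ) ^ 2 := by
    intro i hi
    rw [Finset.mem_filter] at hi
    unfold wt
    rw [hi.2.1, if_pos hty]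
  calc _ ≤ (((JJ q W R A).filter (fun i => i.1 = j ∧ l1 ∈ ed i ∧ l2 ∈ ed i)).card : ℝ) *
        (am σ j * 4 / W / (A : ℝ) ^ 2) := by
        rw [← nsmul_eq_mul]
        exact Finset.sum_le_card_nsmul _ _ _ hw
    _ ≤ (9 * ((A : ℝ) * A + W * A / 2)) * (am σ j * 4 / W / (A : ℝ) ^ 2) := by
        refine mul_le_mul_of_nonneg_right hcard (by positivity)
    _ = am σ j * (36 / W + 18 / A) := by
        field_simp
        ring

end Pool.Agent.MP_b8d9b4_co.Low
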