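import Pool.Agent.Lib.MP_b8d9b4_co.Low.Stm

/-!
# MP_b8d9b4_co, low range: piece `ln`
-/

set_option autoImplicit false

namespace Pool.Agent.MP_b8d9b4_co.Low

open Pool.Agent.MP_b8d9b4_co.Top (Sq Line lv att board queensGraph)

private theorem ln_len (k : Seg) (X : Fin 4) :
    len k X = |lv X ((k.x1 : ℤ), (k.y1 : ℤ)) - lv X ((k.x2 : ℤ), (k.y2 : ℤ))| := by
  show max (lv X ((k.x1 : ℤ), (k.y1 : ℤ))) (lv X ((k.x2 : ℤ), (k.y2 : ℤ))) -
    min (lv X ((k.x1 : ℤ), (k.y1 : ℤ))) (lv X ((k.x2 : ℤ), (k.y2 : ℤ))) = _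
  generalize lv X ((k.x1 : ℤ), (k.y1 : ℤ)) = a
  generalize lv X ((k.x2 : ℤ), (k.y2 : ℤ)) = b
  rw [max_sub_min_eq_abs, abs_sub_comm]

private theorem ln_core (h1 : S_c1) (k : Seg) (q W R : ℤ) (X : Fin 4) (v κ M x0 c : ℤ)
    (pr : Sq → ℤ) (hinj : ∀ p p', lv X p = v → lv X p' = v → pr p = pr p' → p = p')
    (hκ : |κ| = len k X) (hlen : 1 ≤ len k X) (hM : 0 < M) (hW : 0 < W)
    (hdiv : |κ| * M ∣ W)
    (hp : ∀ p, InSt k q W R p → lv X p = v →
      M ∣ pr p - x0 ∧ 0 ≤ κ * pr p + c ∧ κ * pr p + c < W) :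
    (((St k q W R).filter (fun p => lv X p = v)).card : ℤ) * (M * len k X) ≤ W := by
  have hκ0 : κ ≠ 0 := by
    rintro rfl
    rw [abs_zero] at hκ
    omega
  have h2 := h1 κ M W x0 c (((St k q W R).filter (fun p => lv X p = v)).image pr) hκ0 hM hW hdiv
    (by
      intro x hx
      rw [Finset.mem_image] at hx
      obtain ⟨p, hp1, rfl⟩ := hx
      rw [Finset.mem_filter, mem_St] at hp1
      exact hp p hp1.1.2 hp1.2)
  rw [Finset.card_image_of_injOn, hκ, mul_comm (len k X) M] at h2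
  · exact h2
  · intro p hp1 p' hp2 he
    rw [Finset.mem_coe, Finset.mem_filter] at hp1 hp2
    exact hinj p p' hp1.2 hp2.2 he

theorem p_ln (h1 : S_c1) : S_ln := by
  intro n q W R A hpar k hk X v
  obtain ⟨-, -, hW, hdW, -⟩ := hpar
  obtain ⟨hx12, -, -, -, -, hlen, -⟩ := hk
  have hd4 : ∀ X, len k X * 4 ∣ W := fun X =>
    (mul_dvd_mul_right (hlen X).2 4).trans (by
      have h3 : (1980 : ℤ) * 4 = 7920 := by norm_num
      rw [h3]
      exact hdW)
  have hd2 : ∀ X, len k X * 2 ∣ W := fun X =>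
    (Dvd.intro 2 (by ring)).trans (hd4 X)
  have h4 : X = 0 ∨ X = 1 ∨ X = 2 ∨ X = 3 := by
    revert X
    decide
  rcases h4 with rfl | rfl | rfl | rfl
  · -- columns
    have hk1 : |((k.x2 : ℤ) - k.x1)| = len k 0 := by
      rw [ln_len, abs_sub_comm]
      rfl
    refine ln_core h1 k q W R 0 v ((k.x2 : ℤ) - k.x1) 4
      (v - (if k.ty = 0 ∨ k.ty = 2 then 0 else 2))
      (-((k.x2 : ℤ) - k.x1) * (q * k.y1) - ((k.y2 : ℤ) - k.y1) * (v - q * k.x1))
      (fun p => p.2) ?_ hk1 (hlen 0).1 (by norm_num) hW (by rw [hk1]; exact hd4 0) ?_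
    · rintro ⟨x, y⟩ ⟨x', y'⟩ ha hb hc
      simp only [lv] at ha hb hc
      rw [ha, hb, hc]
    · rintro ⟨x, y⟩ ⟨-, -, h5, h6, -, h8⟩ hv
      simp only [lv] at hv
      subst hv
      simp only [ph] at h5 h6
      simp only at h8 ⊢
      refine ⟨?_, ?_, ?_⟩
      · split_ifs at h8 ⊢ <;> omega
      · refine le_of_le_of_eq h5 ?_
        ring
      · refine lt_of_eq_of_lt ?_ h6
        ring
  · -- rows
    have hk1 : |(-((k.y2 : ℤ) - k.y1))| = len k 1 := by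
      rw [ln_len, neg_sub]
      rfl
    refine ln_core h1 k q W R 1 v (-((k.y2 : ℤ) - k.y1)) 4
      (v + (if k.ty = 0 ∨ k.ty = 2 then 0 else 2))
      (((k.x2 : ℤ) - k.x1) * (v - q * k.y1) + ((k.y2 : ℤ) - k.y1) * (q * k.x1))
      (fun p => p.1) ?_ hk1 (hlen 1).1 (by norm_num) hW (by rw [hk1]; exact hd4 1) ?_
    · rintro ⟨x, y⟩ ⟨x', y'⟩ ha hb hc
      simp only [lv] at ha hb hc
      rw [ha, hb, hc]
    · rintro ⟨x, y⟩ ⟨-, -, h5, h6, -, h8⟩ hv
      simp only [lv] at hv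
      subst hv
      simp only [ph] at h5 h6
      simp only at h8 ⊢
      refine ⟨?_, ?_, ?_⟩
      · split_ifs at h8 ⊢ <;> omega
      · refine le_of_le_of_eq h5 ?_
        ring
      · refine lt_of_eq_of_lt ?_ h6
        ring
  · -- diagonals
    have hk1 : |(((k.x2 : ℤ) - k.x1) - ((k.y2 : ℤ) - k.y1))| = len k 2 := by
      rw [ln_len, abs_sub_comm]
      show _ = |(k.x1 : ℤ) - k.y1 - ((k.x2 : ℤ) - k.y2)|
      congr 1
      ring
    refine ln_core h1 k q W R 2 v (((k.x2 : ℤ) - k.x1) - ((k.y2 : ℤ) - k.y1)) 2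
      (if k.ty = 2 ∨ k.ty = 3 then 1 else 0)
      (((k.x2 : ℤ) - k.x1) * (-v - q * k.y1) + ((k.y2 : ℤ) - k.y1) * (q * k.x1))
      (fun p => p.1) ?_ hk1 (hlen 2).1 (by norm_num) hW (by rw [hk1]; exact hd2 2) ?_
    · rintro ⟨x, y⟩ ⟨x', y'⟩ ha hb hc
      simp only [lv] at ha hb hc
      subst hc
      have : y = y' := by omega
      rw [this]
    · rintro ⟨x, y⟩ ⟨-, -, h5, h6, h7, -⟩ hv
      simp only [lv] at hv
      have hy : y = x - v := by omega
      subst hy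
      simp only [ph] at h5 h6
      simp only at h7 ⊢
      refine ⟨?_, ?_, ?_⟩
      · split_ifs at h7 ⊢ <;> omega
      · refine le_of_le_of_eq h5 ?_
        ring
      · refine lt_of_eq_of_lt ?_ h6
        ring
  · -- antidiagonals
    have hk1 : |(-(((k.x2 : ℤ) - k.x1) + ((k.y2 : ℤ) - k.y1)))| = len k 3 := by
      rw [ln_len]
      show _ = |(k.x1 : ℤ) + k.y1 - ((k.x2 : ℤ) + k.y2)|
      congr 1
      ring
    refine ln_core h1 k q W R 3 v (-(((k.x2 : ℤ) - k.x1) + ((k.y2 : ℤ) - k.y1))) 2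
      (if k.ty = 2 ∨ k.ty = 3 then 1 else 0)
      (((k.x2 : ℤ) - k.x1) * (v - q * k.y1) + ((k.y2 : ℤ) - k.y1) * (q * k.x1))
      (fun p => p.1) ?_ hk1 (hlen 3).1 (by norm_num) hW (by rw [hk1]; exact hd2 3) ?_
    · rintro ⟨x, y⟩ ⟨x', y'⟩ ha hb hc
      simp only [lv] at ha hb hc
      subst hc
      have : y = y' := by omega
      rw [this]
    · rintro ⟨x, y⟩ ⟨-, -, h5, h6, h7, -⟩ hv
      simp only [lv] at hv
      have hy : y = v - x := by omega
      subst hy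
      simp only [ph] at h5 h6
      simp only at h7 ⊢
      refine ⟨?_, ?_, ?_⟩
      · split_ifs at h7 ⊢ <;> omega
      · refine le_of_le_of_eq h5 ?_
        ring
      · refine lt_of_eq_of_lt ?_ h6
        ring

end Pool.Agent.MP_b8d9b4_co.Low
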