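import Pool.Agent.Lib.MP_b8d9b4_co.Low.Stm

/-!
# MP_b8d9b4_co, low range: piece mat
-/

set_option autoImplicit false

namespace Pool.Agent.MP_b8d9b4_co.Low

open Pool.Agent.MP_b8d9b4_co.Top (Sq Line lv att board)

theorem mat_am_nonneg {σ : ℝ} (h0 : 0 ≤ σ) (h1 : σ ≤ 1) (j : ℕ) : 0 ≤ am σ j := by
  unfold am
  split_ifs
  · have := sub_nonneg.mpr h1
    positivity
  · positivity

theorem mat_wt_nonneg {σ : ℝ} {W A : ℤ} (h0 : 0 ≤ σ) (h1 : σ ≤ 1) (hW : 0 < W) (i : Ix) :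
    0 ≤ wt σ W A i := by
  unfold wt
  have h := mat_am_nonneg h0 h1 i.1
  have hW' : (0 : ℝ) < (W : ℝ) := by exact_mod_cast hW
  split_ifs <;> positivity

theorem mat_mass (h5 : S_sum) (h6 : S_ms) (h10 : S_ok) {n q W R A : ℤ} (hP : Par n q W R A)
    {σ : ℝ} (h0 : 0 ≤ σ) (h1 : σ ≤ 1) (s : Finset ℕ) (hs : s ⊆ Finset.range 408) :
    |∑ i ∈ JJ q W R A with i.1 ∈ s, wt σ W A i - (∑ j ∈ s, am σ j) * ((q : ℝ) / 2)| ≤
      (∑ j ∈ s, am σ j) * (R : ℝ) := by
  rw [h5 n q W R A hP σ s hs, Finset.sum_mul, Finset.sum_mul, ← Finset.sum_sub_distrib]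
  refine (Finset.abs_sum_le_sum_abs _ _).trans (Finset.sum_le_sum fun j hj => ?_)
  have hj' : j < 408 := Finset.mem_range.mp (hs hj)
  have hms := h6 n q W R A hP (sg j) (h10 j hj')
  have hW : (0 : ℝ) < (W : ℝ) := by exact_mod_cast hP.2.2.1
  have hms' : |8 * ((St (sg j) q W R).card : ℝ) - q * W| ≤ 2 * R * W := by
    have := (Int.cast_le (R := ℝ)).mpr hms
    push_cast at this
    exact this
  have ham := mat_am_nonneg h0 h1 j
  generalize ((St (sg j) q W R).card : ℝ) = c at hms' ⊢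
  have key : |4 / (W : ℝ) * c - (q : ℝ) / 2| ≤ R := by
    have e : 4 / (W : ℝ) * c - (q : ℝ) / 2 = (8 * c - q * W) / (2 * W) := by
      field_simp
      ring
    rw [e, abs_div, abs_of_pos (by positivity : (0 : ℝ) < 2 * W), div_le_iff₀ (by positivity)]
    calc |8 * c - q * W| ≤ 2 * R * W := hms'
      _ = R * (2 * W) := by ring
  calc |am σ j * (4 / (W : ℝ)) * c - am σ j * ((q : ℝ) / 2)|
      = am σ j * |4 / (W : ℝ) * c - (q : ℝ) / 2| := by
        rw [← abs_of_nonneg ham, ← abs_mul, abs_of_nonneg ham]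
        congr 1
        ring
    _ ≤ am σ j * R := mul_le_mul_of_nonneg_left key ham

/-- the segments of type different from 4 -/
noncomputable def mat_sF : Finset ℕ := (Finset.range 408).filter (fun j => (sg j).ty ≠ 4)

/-- the segments of type 4 -/
noncomputable def mat_sG : Finset ℕ := (Finset.range 408).filter (fun j => (sg j).ty = 4)

theorem mat_F (h7 : S_num) (σ : ℝ) :
    ∑ j ∈ mat_sF, am σ j = (1 - σ) * (1404158576 / 10 ^ 8) + σ * (1399999920 / 10 ^ 8) := by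
  obtain ⟨ha, -, -, hb, hc, -⟩ := h7
  have hset : mat_sF = Finset.range 168 ∪
      (Finset.Ico 168 408).filter (fun j => (sg j).ty ≠ 4) := by
    ext j
    unfold mat_sF
    rw [Finset.mem_filter, Finset.mem_union, Finset.mem_filter, Finset.mem_range, Finset.mem_range,
      Finset.mem_Ico]
    have := ha j
    by_cases hj : j < 168
    · have h2 := this hj
      constructor
      · intro _
        exact Or.inl hj
      · intro _
        exact ⟨by omega, h2⟩
    · constructor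
      · rintro ⟨h3, h4⟩
        exact Or.inr ⟨⟨by omega, h3⟩, h4⟩
      · rintro (h3 | ⟨h3, h4⟩)
        · exact absurd h3 hj
        · exact ⟨h3.2, h4⟩
  have hdisj : Disjoint (Finset.range 168)
      ((Finset.Ico 168 408).filter (fun j => (sg j).ty ≠ 4)) := by
    rw [Finset.disjoint_left]
    intro j h1 h2
    rw [Finset.mem_range] at h1
    rw [Finset.mem_filter, Finset.mem_Ico] at h2
    omega
  rw [hset, Finset.sum_union hdisj]
  refine congrArg₂ (fun x y : ℝ => x + y) ?_ ?_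
  · have : ∀ j ∈ Finset.range 168, am σ j = (1 - σ) / 10 ^ 8 * (((sg j).al : ℕ) : ℝ) := by
      intro j hj
      unfold am
      rw [if_pos (Finset.mem_range.mp hj)]
      ring
    rw [Finset.sum_congr rfl this, ← Finset.mul_sum, ← Nat.cast_sum, hb]
    push_cast
    ring
  · have : ∀ j ∈ (Finset.Ico 168 408).filter (fun j => (sg j).ty ≠ 4),
        am σ j = σ / 10 ^ 8 * (((sg j).al : ℕ) : ℝ) := by
      intro j hj
      unfold am
      rw [Finset.mem_filter, Finset.mem_Ico] at hj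
      rw [if_neg (by omega)]
      ring
    rw [Finset.sum_congr rfl this, ← Finset.mul_sum, ← Nat.cast_sum, hc]
    push_cast
    ring

theorem mat_G (h7 : S_num) (σ : ℝ) :
    ∑ j ∈ mat_sG, am σ j = σ * (588538656 / 10 ^ 8) := by
  obtain ⟨ha, -, -, -, -, hd⟩ := h7
  have hset : mat_sG = (Finset.Ico 168 408).filter (fun j => (sg j).ty = 4) := by
    ext j
    unfold mat_sG
    rw [Finset.mem_filter, Finset.mem_filter, Finset.mem_range, Finset.mem_Ico]
    have := ha j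
    constructor
    · rintro ⟨h3, h4⟩
      refine ⟨⟨?_, h3⟩, h4⟩
      by_contra h5
      exact this (by omega) h4
    · rintro ⟨h3, h4⟩
      exact ⟨h3.2, h4⟩
  rw [hset]
  have : ∀ j ∈ (Finset.Ico 168 408).filter (fun j => (sg j).ty = 4),
      am σ j = σ / 10 ^ 8 * (((sg j).al : ℕ) : ℝ) := by
    intro j hj
    unfold am
    rw [Finset.mem_filter, Finset.mem_Ico] at hj
    rw [if_neg (by omega)]
    ring
  rw [Finset.sum_congr rfl this, ← Finset.mul_sum, ← Nat.cast_sum, hd]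
  push_cast
  ring

theorem p_mat (h1 : S_nib) (h2 : S_deg) (h3 : S_cod) (h4 : S_def) (h5 : S_sum) (h6 : S_ms)
    (h7 : S_num) (h8 : S_VV) (h9 : S_edc) (h10 : S_ok) : S_mat := by
  obtain ⟨ε, hε, hnib⟩ := h1 10 (1 / 10 ^ 7) (by norm_num) (by norm_num)
  obtain ⟨a0, ha0⟩ : ∃ a : ℕ, 720 / ε ≤ a := exists_nat_ge _
  obtain ⟨w0, hw0⟩ : ∃ w : ℕ, 1 / ε ≤ w := exists_nat_ge _
  obtain ⟨A, hA⟩ : ∃ A : ℤ, A = 2 * a0 + 28 := ⟨_, rfl⟩
  obtain ⟨W, hW⟩ : ∃ W : ℤ, W = 7920 * (w0 + 1) := ⟨_, rfl⟩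
  obtain ⟨R, hR⟩ : ∃ R : ℤ, R = W + 56 * A + 56 := ⟨_, rfl⟩
  have hA28 : 28 ≤ A := by omega
  have hWpos : 7920 ≤ W := by omega
  have hRpos : 9544 ≤ R := by omega
  refine ⟨56 * (100000 * R.toNat) + w0, fun n j hn hj1 hj2 => ?_⟩
  obtain ⟨q, hq⟩ : ∃ q : ℤ, q = 4 * ((n : ℤ) / 56) := ⟨_, rfl⟩
  have hqR : 400000 * R ≤ q := by omega
  have hP : Par n q W R A := by
    refine ⟨hA28, by omega, by omega, ?_, hR, ⟨_, hq⟩, by omega, by omega, by omega⟩
    exact ⟨_, hW⟩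
  -- real facts
  have hA' : (A : ℝ) = 2 * a0 + 28 := by
    rw [hA]
    push_cast
    ring
  have hW' : (W : ℝ) = 7920 * (w0 + 1) := by
    rw [hW]
    push_cast
    ring
  have hApos : (0 : ℝ) < A := by
    have : (28 : ℝ) ≤ A := by exact_mod_cast hA28
    linarith
  have hWpos' : (0 : ℝ) < W := by
    have : (7920 : ℝ) ≤ W := by exact_mod_cast hWpos
    linarith
  have hcodle : 1440 / (W : ℝ) + 720 / (A : ℝ) ≤ ε := by
    have e1 : 1440 / (W : ℝ) ≤ ε / 2 := by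
      rw [div_le_iff₀ hWpos', hW']
      rw [div_le_iff₀ hε] at hw0
      nlinarith
    have e2 : 720 / (A : ℝ) ≤ ε / 2 := by
      rw [div_le_iff₀ hApos, hA']
      rw [div_le_iff₀ hε] at ha0
      nlinarith
    linarith
  have hRr : (9544 : ℝ) ≤ R := by exact_mod_cast hRpos
  have hqr : 400000 * (R : ℝ) ≤ q := by exact_mod_cast hqR
  have hqpos : (0 : ℝ) < q := by linarith
  have hn1 : 14 * (q : ℝ) ≤ n := by exact_mod_cast hP.2.2.2.2.2.2.2.1
  have hn2 : (n : ℝ) ≤ 14 * (q : ℝ) + 56 := by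
    have := hP.2.2.2.2.2.2.2.2
    exact_mod_cast this.le
  have hj1' : 251 * (n : ℝ) ≤ 500 * j := by exact_mod_cast hj1
  have hj2' : 3 * (j : ℝ) ≤ 2 * n + 10 := by exact_mod_cast hj2
  obtain ⟨σ, hσ⟩ : ∃ σ : ℝ, σ = (2 * (j : ℝ) / q - 1404158576 / 10 ^ 8) /
    (878649328 / 10 ^ 8) := ⟨_, rfl⟩
  obtain ⟨s, hs⟩ : ∃ s : ℝ, s = σ * q := ⟨_, rfl⟩
  have hs' : s * (878649328 / 10 ^ 8) = 2 * (j : ℝ) - 1404158576 / 10 ^ 8 * q := by
    rw [hs, hσ]
    field_simp
  have hs1 : 16 / 10 ^ 4 * (q : ℝ) ≤ s := by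
    have : (16 / 10 ^ 4 * (q : ℝ)) * (878649328 / 10 ^ 8) ≤ s * (878649328 / 10 ^ 8) := by
      rw [hs']
      linarith
    linarith
  have hs2 : s ≤ (q : ℝ) := by
    have : s * (878649328 / 10 ^ 8) ≤ (q : ℝ) * (878649328 / 10 ^ 8) := by
      rw [hs']
      linarith
    linarith
  have hσ0 : 0 ≤ σ := by
    by_contra h
    push Not at h
    have : σ * q < 0 := mul_neg_of_neg_of_pos h hqpos
    linarith
  have hσ1 : σ ≤ 1 := by
    by_contra h
    push Not at h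
    have : 1 * (q : ℝ) < σ * q := mul_lt_mul_of_pos_right h hqpos
    linarith
  obtain ⟨hV1, hV2, hV3, hV4⟩ := h8 n q W R A hP
  have hV1' : (n : ℝ) ≤ ((VV n).card : ℝ) := by exact_mod_cast hV1
  have hV2' : ((VV n).card : ℝ) ≤ 6 * n + 114 := by exact_mod_cast hV2
  obtain ⟨M, hMJ, hMd, hMu, hMt⟩ := hnib Line Ix (VV n) (LL n q) (JJ q W R A) ed (wt σ W A)
    (fun i => decide ((sg i.1).ty = 4)) hV3
    (fun i hi => ⟨hV4 i hi, h9 i⟩)
    (fun i _ => mat_wt_nonneg hσ0 hσ1 (by omega) i)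
    (fun v _ => h2 n q W R A hP σ hσ0 hσ1 v)
    (fun u _ v _ huv => (h3 n q W R A hP σ hσ0 hσ1 u v huv).trans hcodle)
    (by
      have hn' : (w0 : ℝ) ≤ n := by
        have : w0 ≤ n := by omega
        exact_mod_cast this
      linarith)
  refine ⟨q, W, R, A, M, hP, hMJ, hMd, ?_⟩
  have hdef := h4 n q W R A hP σ hσ0 hσ1
  -- masses
  have hmF := mat_mass h5 h6 h10 hP hσ0 hσ1 mat_sF (Finset.filter_subset _ _)
  have hmG := mat_mass h5 h6 h10 hP hσ0 hσ1 mat_sG (Finset.filter_subset _ _)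
  rw [mat_F h7 σ] at hmF
  rw [mat_G h7 σ] at hmG
  have hJ408 : ∀ i ∈ JJ q W R A, i.1 < 408 := fun i hi =>
    ((mem_JJ (by omega) i).mp hi).1
  have hfF := hMt false
  have hfG := hMt true
  have eF : (JJ q W R A).filter (fun i => decide ((sg i.1).ty = 4) = false) =
      (JJ q W R A).filter (fun i => i.1 ∈ mat_sF) := by
    refine Finset.filter_congr fun i hi => ?_
    unfold mat_sF
    rw [Finset.mem_filter, Finset.mem_range, decide_eq_false_iff_not]
    exact ⟨fun h => ⟨hJ408 i hi, h⟩, fun h => h.2⟩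
  have eG : (JJ q W R A).filter (fun i => decide ((sg i.1).ty = 4) = true) =
      (JJ q W R A).filter (fun i => i.1 ∈ mat_sG) := by
    refine Finset.filter_congr fun i hi => ?_
    unfold mat_sG
    rw [Finset.mem_filter, Finset.mem_range, decide_eq_true_iff]
    exact ⟨fun h => ⟨hJ408 i hi, h⟩, fun h => h.2⟩
  rw [eF] at hfF
  rw [eG] at hfG
  have mF : M.filter (fun i => decide ((sg i.1).ty = 4) = false) =
      M.filter (fun i => (sg i.1).ty ≠ 4) := by
    refine Finset.filter_congr fun i hi => ?_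
    rw [decide_eq_false_iff_not]
  have mG : M.filter (fun i => decide ((sg i.1).ty = 4) = true) =
      M.filter (fun i => (sg i.1).ty = 4) := by
    refine Finset.filter_congr fun i hi => ?_
    rw [decide_eq_true_iff]
  rw [mF] at hfF
  rw [mG] at hfG
  generalize (M.filter (fun i => (sg i.1).ty ≠ 4)).card = f at hfF ⊢
  generalize (M.filter (fun i => (sg i.1).ty = 4)).card = g at hfG ⊢
  generalize ((LL n q).filter (fun l => ∀ i ∈ M, l ∉ ed i)).card = E at hMu ⊢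
  generalize ∑ i ∈ JJ q W R A with i.1 ∈ mat_sF, wt σ W A i = xF at hfF hmF
  generalize ∑ i ∈ JJ q W R A with i.1 ∈ mat_sG, wt σ W A i = xG at hfG hmG
  generalize ((VV n).card : ℝ) = N at hMu hfF hfG hV1' hV2'
  have hE : (E : ℝ) ≤ (q : ℝ) / 10 ^ 5 + 60 * R + 200 + 1 / 10 ^ 7 * N := by linarith
  have hσR1 : σ * R ≤ R := by nlinarith
  have hσR0 : 0 ≤ σ * R := by positivity
  rw [abs_le] at hmF hmG hfF hfG
  have q1 : ((1 - σ) * (1404158576 / 10 ^ 8) + σ * (1399999920 / 10 ^ 8)) * ((q : ℝ) / 2) =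
      1404158576 / 10 ^ 8 * (q : ℝ) / 2 - (1404158576 / 10 ^ 8 - 1399999920 / 10 ^ 8) * s / 2 := by
    rw [hs]
    ring
  have q2 : σ * (588538656 / 10 ^ 8) * ((q : ℝ) / 2) = 588538656 / 10 ^ 8 * s / 2 := by
    rw [hs]
    ring
  rw [q1] at hmF
  rw [q2] at hmG
  obtain ⟨hmF1, hmF2⟩ := hmF
  obtain ⟨hmG1, hmG2⟩ := hmG
  obtain ⟨hfF1, hfF2⟩ := hfF
  obtain ⟨hfG1, hfG2⟩ := hfG
  have hN : N ≤ 84 * q + 450 := by linarith
  have hjs : (j : ℝ) = (878649328 / 10 ^ 8 * s + 1404158576 / 10 ^ 8 * q) / 2 := by linarith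
  constructor
  · have : (f : ℝ) + g + 5 * E ≤ j := by
      rw [hjs]
      linarith
    exact_mod_cast this
  · have : (j : ℝ) ≤ f + 2 * g := by
      rw [hjs]
      linarith
    exact_mod_cast this

end Pool.Agent.MP_b8d9b4_co.Low
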