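import Pool.Agent.Lib.MP_b8d9b4_co.Low.Stm

/-!
# MP_b8d9b4_co, low range: margins (`S_mg`)
-/

set_option autoImplicit false

namespace Pool.Agent.MP_b8d9b4_co.Low

open Pool.Agent.MP_b8d9b4_co.Top (Sq Line lv att board queensGraph)

private theorem mg_pos {P κ x t q W R A e : ℤ} (hP1 : 1 ≤ P) (hP2 : P ≤ 14) (hA : 28 ≤ A)
    (hR : R = W + 56 * A + 56) (hW : 0 < W) (hκ : 1 ≤ κ) (hx1 : R ≤ x) (hx2 : x ≤ P * q - R)
    (he1 : -W ≤ e) (he2 : e ≤ W) (ht : P * t = κ * x + e) :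
    4 * A + 4 ≤ t ∧ t ≤ κ * q - (4 * A + 4) := by
  have hR0 : 0 ≤ R := by linarith
  have h1 : R ≤ κ * x := by nlinarith
  have h2 : κ * x ≤ κ * (P * q) - R := by
    have h3 : κ * x ≤ κ * (P * q - R) := mul_le_mul_of_nonneg_left hx2 (by linarith)
    nlinarith
  have h3 : P * (4 * A + 4) ≤ 56 * A + 56 := by nlinarith
  constructor
  · have h4 : P * (4 * A + 4) ≤ P * t := by linarith
    exact le_of_mul_le_mul_left h4 (by linarith)
  · have h4 : P * t ≤ P * (κ * q - (4 * A + 4)) := by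
      have h5 : P * (κ * q - (4 * A + 4)) = κ * (P * q) - P * (4 * A + 4) := by ring
      rw [h5]
      linarith
    exact le_of_mul_le_mul_left h4 (by linarith)

private theorem mg_lv_add (X : Fin 4) (a b c d : ℤ) :
    lv X (a + c, b + d) = lv X (a, b) + lv X (c, d) := by
  fin_cases X <;> simp [lv] <;> ring

private theorem mg_lv_form (X : Fin 4) (P Q x y : ℤ) : ∃ θ : ℤ, (θ = 0 ∨ θ = 1 ∨ θ = -1) ∧
    P * lv X (x, y) = lv X (P, Q) * x + θ * (P * y - Q * x) := by
  fin_cases X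
  · exact ⟨0, Or.inl rfl, by simp [lv]⟩
  · exact ⟨1, Or.inr (Or.inl rfl), by simp [lv]⟩
  · exact ⟨-1, Or.inr (Or.inr rfl), by simp [lv]; ring⟩
  · exact ⟨1, Or.inr (Or.inl rfl), by simp [lv]; ring⟩

theorem p_mg : S_mg := by
  intro n q W R A hpar k hk p hp X
  obtain ⟨hA, -, hW, -, hR, -, -, -, -⟩ := hpar
  obtain ⟨hx, hx2, -, -, -, hlen, -⟩ := hk
  obtain ⟨hp1, hp2, hp3, hp4, -⟩ := hp
  have hl := (hlen X).1
  unfold len lo hi at hl
  unfold lo hi
  unfold ph at hp3 hp4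
  obtain ⟨p1, p2⟩ := p
  generalize hX1 : (k.x1 : ℤ) = x1 at *
  generalize hX2 : (k.x2 : ℤ) = x2 at *
  generalize hY1 : (k.y1 : ℤ) = y1 at *
  generalize hY2 : (k.y2 : ℤ) = y2 at *
  have hx' : x1 < x2 := by omega
  have hx2' : x2 ≤ 14 := by omega
  have hx1' : 0 ≤ x1 := by omega
  simp only at hp1 hp2 hp3 hp4
  -- the shift
  obtain ⟨θ, hθ, hform⟩ := mg_lv_form X (x2 - x1) (y2 - y1) (p1 - q * x1) (p2 - q * y1)
  have e1 : lv X (x2, y2) = lv X (x1, y1) + lv X (x2 - x1, y2 - y1) := by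
    rw [← mg_lv_add]
    congr 2 <;> ring
  have e2 : lv X (q * x1, q * y1) = q * lv X (x1, y1) := by
    fin_cases X <;> simp [lv] <;> ring
  have e3 : lv X (p1, p2) = q * lv X (x1, y1) + lv X (p1 - q * x1, p2 - q * y1) := by
    rw [← e2, ← mg_lv_add]
    congr 2 <;> ring
  rw [e1] at hl ⊢
  rw [e3]
  generalize lv X (x1, y1) = a at *
  generalize lv X (x2 - x1, y2 - y1) = κ at *
  generalize lv X (p1 - q * x1, p2 - q * y1) = t at *
  generalize hφ : (x2 - x1) * (p2 - q * y1) - (y2 - y1) * (p1 - q * x1) = φ at *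
  have he : -W ≤ θ * φ ∧ θ * φ ≤ W := by
    rcases hθ with rfl | rfl | rfl <;> constructor <;> linarith
  have hbx : R ≤ p1 - q * x1 := by linarith
  have hbx2 : p1 - q * x1 ≤ (x2 - x1) * q - R := by
    have : (x2 - x1) * q = q * x2 - q * x1 := by ring
    rw [this]
    linarith
  rcases lt_trichotomy κ 0 with hκ | hκ | hκ
  · have h1 := mg_pos (P := x2 - x1) (κ := -κ) (t := -t) (e := -(θ * φ)) (by linarith)
      (by linarith) hA hR hW (by linarith) hbx hbx2 (by linarith [he.2]) (by linarith [he.1])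
      (by linarith)
    rw [min_eq_right (by linarith), max_eq_left (by linarith)]
    constructor
    · have h2 : q * (a + κ) = q * a - -κ * q := by ring
      rw [h2]
      linarith [h1.2]
    · linarith [h1.1]
  · exfalso
    rw [hκ] at hl
    simp at hl
  · have h1 := mg_pos (P := x2 - x1) (κ := κ) (t := t) (e := θ * φ) (by linarith)
      (by linarith) hA hR hW (by linarith) hbx hbx2 he.1 he.2 hform
    rw [min_eq_left (by linarith), max_eq_right (by linarith)]
    constructor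
    · linarith [h1.1]
    · have h2 : q * (a + κ) = q * a + κ * q := by ring
      rw [h2]
      linarith [h1.2]

end Pool.Agent.MP_b8d9b4_co.Low
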