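import Pool.Agent.Lib.MP_b8d9b4_co.Low.Stm
import Pool.Agent.Lib.MP_5c6f2e_co.Nibble

/-!
# MP_b8d9b4_co, low range: piece nb1 (the nibble with types)
-/

set_option autoImplicit false

namespace Pool.Agent.MP_b8d9b4_co.Low

open Finset

section nb1

/-- product measure -/
private theorem nb1_prod {J : Type} [Fintype J] [DecidableEq J] (N : J → ℕ) (hN : ∀ j, 1 ≤ N j)
    (S : Finset J) (g : ∀ j, Fin (N j)) :
    ∑ f : (∀ j, Fin (N j)) with (∀ j ∈ S, f j = g j), ∏ j, ((N j : ℝ))⁻¹ =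
      ∏ j ∈ S, ((N j : ℝ))⁻¹ := by
  have h1 := Finset.prod_univ_sum (ι := J) (κ := fun j => Fin (N j)) (R := ℝ)
    (t := fun _ => Finset.univ)
    (f := fun j x => ((N j : ℝ))⁻¹ * (if j ∈ S then (if x = g j then 1 else 0) else 1))
  rw [Fintype.piFinset_univ] at h1
  have h2 : ∀ f : (∀ j, Fin (N j)),
      (∏ j, ((N j : ℝ))⁻¹ * (if j ∈ S then (if f j = g j then 1 else 0) else 1)) =
      if (∀ j ∈ S, f j = g j) then ∏ j, ((N j : ℝ))⁻¹ else 0 := by
    intro f
    rw [Finset.prod_mul_distrib]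
    split_ifs with h
    · have h3 : (∏ j, (if j ∈ S then (if f j = g j then (1:ℝ) else 0) else 1)) = 1 := by
        apply Finset.prod_eq_one
        intro j _
        by_cases hj : j ∈ S
        · rw [if_pos hj, if_pos (h j hj)]
        · rw [if_neg hj]
      rw [h3, mul_one]
    · push Not at h
      obtain ⟨j, hj, hne⟩ := h
      have h3 : (∏ j, (if j ∈ S then (if f j = g j then (1:ℝ) else 0) else 1)) = 0 := by
        apply Finset.prod_eq_zero (Finset.mem_univ j)
        rw [if_pos hj, if_neg hne]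
      rw [h3, mul_zero]
  rw [Finset.sum_filter, ← Finset.sum_congr rfl (fun f _ => h2 f), ← h1]
  have h3 : ∀ j : J, (∑ x : Fin (N j), ((N j : ℝ))⁻¹ *
      (if j ∈ S then (if x = g j then 1 else 0) else 1)) = if j ∈ S then ((N j : ℝ))⁻¹ else 1 := by
    intro j
    have hj0 : (N j : ℝ) ≠ 0 := by
      have := hN j
      positivity
    rw [← Finset.mul_sum]
    by_cases hj : j ∈ S
    · simp only [if_pos hj]
      rw [Finset.sum_ite_eq' Finset.univ (g j) (fun _ => (1:ℝ)), if_pos (Finset.mem_univ _),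
        mul_one]
    · simp only [if_neg hj]
      rw [Finset.sum_const, Finset.card_univ, Fintype.card_fin, nsmul_eq_mul, mul_one,
        inv_mul_cancel₀ hj0]
  rw [Finset.prod_congr rfl (fun j _ => h3 j), Finset.prod_ite_mem, Finset.univ_inter]

/-- sums over products -/
private theorem nb1_sum {ι F : Type} [Fintype ι] [Fintype F] (ω : ι → ℝ) (p : ℝ)
    (A : ι → Prop) (B : F → Prop) [DecidablePred A] [DecidablePred B]
    [DecidablePred (fun x : ι × F => A x.1 ∧ B x.2)] :
    ∑ x : ι × F with (A x.1 ∧ B x.2), ω x.1 * p = (∑ i with A i, ω i) * ∑ f : F with B f, p := by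
  rw [Finset.sum_mul_sum, ← Finset.sum_product']
  apply Finset.sum_congr _ (fun _ _ => rfl)
  ext x
  simp

variable {V ι J : Type} [Fintype V] [DecidableEq V] [Fintype J] [DecidableEq J]

open Classical in
/-- new hyperedges -/
private noncomputable def nb1E (e : ι → Finset V) (D : J → ι → Prop) (N : J → ℕ)
    (x : ι × (∀ j, Fin (N j))) : Finset (V ⊕ (Σ j : J, Fin (N j))) :=
  univ.filter (fun y => Sum.elim (fun v => v ∈ e x.1) (fun p => D p.1 x.1 ∧ x.2 p.1 = p.2) y)

private theorem nb1E_inl (e : ι → Finset V) (D : J → ι → Prop) (N : J → ℕ)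
    (x : ι × (∀ j, Fin (N j))) (v : V) : Sum.inl v ∈ nb1E e D N x ↔ v ∈ e x.1 := by
  simp [nb1E]

private theorem nb1E_inr (e : ι → Finset V) (D : J → ι → Prop) (N : J → ℕ)
    (x : ι × (∀ j, Fin (N j))) (j : J) (a : Fin (N j)) :
    Sum.inr ⟨j, a⟩ ∈ nb1E e D N x ↔ D j x.1 ∧ x.2 j = a := by
  simp [nb1E]

open Classical in
private theorem nb1E_card (e : ι → Finset V) (D : J → ι → Prop) (N : J → ℕ)
    (x : ι × (∀ j, Fin (N j))) :
    (nb1E e D N x).card = (e x.1).card + (univ.filter (fun j => D j x.1)).card := by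
  unfold nb1E
  rw [Finset.card_filter, Fintype.sum_sum_type, Fintype.sum_sigma]
  congr 1
  · rw [← Finset.card_filter]
    congr 1
    ext v
    simp
  · rw [Finset.card_filter]
    apply Finset.sum_congr rfl
    intro j _
    simp only [Sum.elim_inr]
    by_cases hj : D j x.1
    · simp only [hj, true_and, if_true]
      rw [Finset.sum_ite_eq]
      simp
    · simp [hj]

/-- one coordinate -/
private theorem nb1_P1 (N : J → ℕ) (hN : ∀ j, 1 ≤ N j) (j : J) (a : Fin (N j)) :
    ∑ f : (∀ j, Fin (N j)) with f j = a, ∏ j, ((N j : ℝ))⁻¹ = ((N j : ℝ))⁻¹ := by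
  have h := nb1_prod N hN {j} (Function.update (fun i => (⟨0, hN i⟩ : Fin (N i))) j a)
  rw [Finset.prod_singleton] at h
  rw [← h]
  apply Finset.sum_congr _ (fun _ _ => rfl)
  ext f
  simp

/-- two coordinates -/
private theorem nb1_P2 (N : J → ℕ) (hN : ∀ j, 1 ≤ N j) (j j' : J) (hj : j ≠ j') (a : Fin (N j))
    (b : Fin (N j')) :
    ∑ f : (∀ j, Fin (N j)) with (f j = a ∧ f j' = b), ∏ j, ((N j : ℝ))⁻¹ =
      ((N j : ℝ))⁻¹ * ((N j' : ℝ))⁻¹ := by
  have h := nb1_prod N hN {j, j'} (Function.update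
    (Function.update (fun i => (⟨0, hN i⟩ : Fin (N i))) j a) j' b)
  rw [Finset.prod_pair hj] at h
  rw [← h]
  apply Finset.sum_congr _ (fun _ _ => rfl)
  ext f
  simp [Function.update_of_ne hj]

/-- no coordinate -/
private theorem nb1_P0 (N : J → ℕ) (hN : ∀ j, 1 ≤ N j) :
    ∑ _f : (∀ j, Fin (N j)), ∏ j, ((N j : ℝ))⁻¹ = 1 := by
  have h := nb1_prod N hN ∅ (fun i => (⟨0, hN i⟩ : Fin (N i)))
  simpa using h

/-- the total weight -/
private theorem nb1_tot {ι F : Type} [Fintype ι] [Fintype F] (ω : ι → ℝ) (p : ℝ)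
    (hp : ∑ _f : F, p = 1) : ∑ x : ι × F, ω x.1 * p = ∑ i, ω i := by
  rw [Fintype.sum_prod_type]
  apply Finset.sum_congr rfl
  intro i _
  show ∑ _y : F, ω i * p = ω i
  rw [← Finset.mul_sum, hp, mul_one]

open Classical in
/-- the general form -/
private theorem nb1_gen (r K : ℕ) (hr : 1 ≤ r) (η : ℝ) (hη : 0 < η) : ∃ ε > (0 : ℝ),
    ∀ (V ι J : Type) [Fintype V] [DecidableEq V] [Fintype ι] [Fintype J] [DecidableEq J]
      (e : ι → Finset V) (ω : ι → ℝ) (D : J → ι → Prop), Fintype.card J = K →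
      (∀ i, 1 ≤ (e i).card) →
      (∀ i, (e i).card + (univ.filter (fun j => D j i)).card = r + 1) → (∀ i, 0 ≤ ω i) →
      (∀ v, ∑ i with v ∈ e i, ω i = 1) →
      (∀ u v, u ≠ v → ∑ i with (u ∈ e i ∧ v ∈ e i), ω i ≤ ε) →
      1 / ε ≤ (Fintype.card V : ℝ) →
      ∃ I : Finset ι, (∀ i ∈ I, ∀ j ∈ I, i ≠ j → Disjoint (e i) (e j)) ∧
        ((Finset.univ.filter (fun v : V => ∀ i ∈ I, v ∉ e i)).card : ℝ) ≤
          η * (Fintype.card V : ℝ) ∧
        ∀ j : J, |((I.filter (fun i => D j i)).card : ℝ) - ∑ i with D j i, ω i| ≤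
          η * (Fintype.card V : ℝ) := by
  have hr0 : (0:ℝ) < (r:ℝ) + 2 := by positivity
  obtain ⟨ε0, hε0, hnib⟩ := Pool.Agent.THC.nibble (r + 1) (by omega) (η / (4 * (r + 2)))
    (by positivity)
  obtain ⟨ε', hε'⟩ : ∃ x, x = min ε0 1 := ⟨_, rfl⟩
  have hε'0 : 0 < ε' := by rw [hε']; exact lt_min hε0 one_pos
  have hε'1 : ε' ≤ 1 := by rw [hε']; exact min_le_right _ _
  have hε'ε : ε' ≤ ε0 := by rw [hε']; exact min_le_left _ _
  obtain ⟨N0, hN0⟩ : ∃ x : ℕ, x = ⌈2 / ε'⌉₊ + 1 := ⟨_, rfl⟩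
  have hN0a : 2 / ε' ≤ (N0 : ℝ) := by
    rw [hN0]
    push_cast
    have := Nat.le_ceil (2 / ε')
    linarith
  have hN0p : (0:ℝ) < (N0:ℝ) + 1 := by positivity
  have hK0 : (0:ℝ) < (K:ℝ) + 1 := by positivity
  refine ⟨min ε' (min (ε' / ((K + 1) * (N0 + 1))) (η / (N0 + 1))), by positivity, ?_⟩
  intro V ι J _ _ _ _ _ e ω D hK he1 hec hω hdeg hcod hV
  set ε := min ε' (min (ε' / ((K + 1) * (N0 + 1))) (η / (N0 + 1))) with hε
  have hεp : 0 < ε := by positivity
  have hV0 : 1 ≤ (Fintype.card V : ℝ) * ε := by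
    rw [div_le_iff₀ hεp] at hV
    exact hV
  have hVp : 0 ≤ (Fintype.card V : ℝ) := Nat.cast_nonneg _
  have hV1 : 1 ≤ (Fintype.card V : ℝ) * ε' :=
    hV0.trans (mul_le_mul_of_nonneg_left (min_le_left _ _) hVp)
  have hV2 : ((K:ℝ) + 1) * (N0 + 1) ≤ (Fintype.card V : ℝ) * ε' := by
    have h1 : (Fintype.card V : ℝ) * ε ≤ (Fintype.card V : ℝ) * (ε' / ((K + 1) * (N0 + 1))) :=
      mul_le_mul_of_nonneg_left ((min_le_right _ _).trans (min_le_left _ _)) hVp
    have h2 := hV0.trans h1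
    rw [← mul_div_assoc, le_div_iff₀ (by positivity), one_mul] at h2
    exact h2
  have hV3 : ((N0:ℝ) + 1) ≤ η * (Fintype.card V : ℝ) := by
    have h1 : (Fintype.card V : ℝ) * ε ≤ (Fintype.card V : ℝ) * (η / (N0 + 1)) :=
      mul_le_mul_of_nonneg_left ((min_le_right _ _).trans (min_le_right _ _)) hVp
    have h2 := hV0.trans h1
    rw [← mul_div_assoc, le_div_iff₀ (by positivity), one_mul] at h2
    linarith
  -- the pools
  obtain ⟨m, hm⟩ : ∃ m : J → ℝ, ∀ j, m j = ∑ i with D j i, ω i := ⟨_, fun _ => rfl⟩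
  obtain ⟨N, hN⟩ : ∃ N : J → ℕ, ∀ j, N j = ⌈m j⌉₊ + N0 := ⟨_, fun _ => rfl⟩
  have hm0 : ∀ j, 0 ≤ m j := fun j => by
    rw [hm]
    exact Finset.sum_nonneg fun i _ => hω i
  have hN1 : ∀ j, 1 ≤ N j := fun j => by
    rw [hN, hN0]
    omega
  have hmN : ∀ j, m j ≤ (N j : ℝ) := fun j => by
    rw [hN]
    push_cast
    have := Nat.le_ceil (m j)
    have h2 : (0:ℝ) ≤ (N0:ℝ) := Nat.cast_nonneg _
    linarith
  have hNm : ∀ j, (N j : ℝ) ≤ m j + (N0 + 1) := fun j => by
    rw [hN]
    push_cast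
    have := Nat.ceil_lt_add_one (hm0 j)
    linarith
  have hNp : ∀ j, (0:ℝ) < (N j : ℝ) := fun j => by exact_mod_cast hN1 j
  have hNi : ∀ j, ((N j : ℝ))⁻¹ ≤ ε' := fun j => by
    have h1 : (N0 : ℝ) ≤ (N j : ℝ) := by
      rw [hN]
      push_cast
      have h2 : (0:ℝ) ≤ (⌈m j⌉₊ : ℝ) := Nat.cast_nonneg _
      linarith
    have h2 : 1 / ε' ≤ (N j : ℝ) := by
      have h3 : 1 / ε' ≤ 2 / ε' := by
        apply div_le_div_of_nonneg_right _ hε'0.le
        norm_num
      linarith
    rw [inv_le_comm₀ (hNp j) hε'0, ← one_div]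
    exact h2
  have hmi : ∀ j, m j * ((N j : ℝ))⁻¹ ≤ 1 := fun j => by
    rw [← div_eq_mul_inv, div_le_one (hNp j)]
    exact hmN j
  -- the weights
  obtain ⟨p, hp⟩ : ∃ p : ℝ, p = ∏ j, ((N j : ℝ))⁻¹ := ⟨_, rfl⟩
  have hp0 : 0 ≤ p := by
    rw [hp]
    exact Finset.prod_nonneg fun j _ => inv_nonneg.2 (hNp j).le
  have P0 : ∑ _f : (∀ j, Fin (N j)), p = 1 := by rw [hp]; exact nb1_P0 N hN1
  have P1 : ∀ (j : J) (a : Fin (N j)), ∑ f : (∀ j, Fin (N j)) with f j = a, p =
      ((N j : ℝ))⁻¹ := fun j a => by rw [hp]; exact nb1_P1 N hN1 j a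
  have P2 : ∀ (j j' : J) (_ : j ≠ j') (a : Fin (N j)) (b : Fin (N j')),
      ∑ f : (∀ j, Fin (N j)) with (f j = a ∧ f j' = b), p = ((N j : ℝ))⁻¹ * ((N j' : ℝ))⁻¹ :=
    fun j j' hj a b => by rw [hp]; exact nb1_P2 N hN1 j j' hj a b
  -- sums
  have hS : ∑ i, ω i * ((e i).card : ℝ) = (Fintype.card V : ℝ) := by
    have h1 : ∀ i, ω i * ((e i).card : ℝ) = ∑ v : V, if v ∈ e i then ω i else 0 := by
      intro i
      rw [Finset.sum_ite_mem, Finset.univ_inter, Finset.sum_const, nsmul_eq_mul, mul_comm]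
    rw [Finset.sum_congr rfl (fun i _ => h1 i), Finset.sum_comm]
    have h2 : ∀ v : V, (∑ i, if v ∈ e i then ω i else 0) = 1 := by
      intro v
      rw [← Finset.sum_filter]
      exact hdeg v
    rw [Finset.sum_congr rfl (fun v _ => h2 v)]
    simp
  have hT : ∑ j, m j = (r + 1) * ∑ i, ω i - (Fintype.card V : ℝ) := by
    have h1 : ∀ j, m j = ∑ i, if D j i then ω i else 0 := fun j => by
      rw [hm, Finset.sum_filter]
    rw [Finset.sum_congr rfl (fun j _ => h1 j), Finset.sum_comm]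
    have h2 : ∀ i, (∑ j, if D j i then ω i else 0) =
        (r + 1) * ω i - ω i * ((e i).card : ℝ) := by
      intro i
      rw [← Finset.sum_filter, Finset.sum_const, nsmul_eq_mul]
      have h3 : (((e i).card + (univ.filter (fun j => D j i)).card : ℕ) : ℝ) = (r + 1 : ℕ) := by
        rw [hec i]
      push_cast at h3
      have h4 : ((univ.filter (fun j => D j i)).card : ℝ) = r + 1 - (e i).card := by linarith
      rw [h4]
      ring
    rw [Finset.sum_congr rfl (fun i _ => h2 i), Finset.sum_sub_distrib, ← Finset.mul_sum, hS]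
  have hSV : ∑ i, ω i ≤ (Fintype.card V : ℝ) := by
    rw [← hS]
    apply Finset.sum_le_sum
    intro i _
    have h1 : (1:ℝ) ≤ ((e i).card : ℝ) := by exact_mod_cast he1 i
    nlinarith [hω i]
  have hcV : (Fintype.card (V ⊕ (Σ j : J, Fin (N j))) : ℝ) = Fintype.card V + ∑ j, (N j : ℝ) := by
    rw [Fintype.card_sum, Fintype.card_sigma]
    push_cast
    simp
  have hKN : ∑ j : J, (N j : ℝ) ≤ ∑ j, m j + K * (N0 + 1) := by
    have h1 : ∑ j : J, (N j : ℝ) ≤ ∑ j : J, (m j + (N0 + 1)) :=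
      Finset.sum_le_sum fun j _ => hNm j
    rw [Finset.sum_add_distrib, Finset.sum_const, Finset.card_univ, hK, nsmul_eq_mul] at h1
    exact h1
  obtain ⟨c', hc'⟩ : ∃ x : ℝ, x = (Fintype.card (V ⊕ (Σ j : J, Fin (N j))) : ℝ) := ⟨_, rfl⟩
  have hN00 : (0:ℝ) ≤ (N0:ℝ) := Nat.cast_nonneg _
  have hKr : (0:ℝ) ≤ (K:ℝ) := Nat.cast_nonneg _
  have hc1 : c' ≤ (r + 1) * ∑ i, ω i + K * (N0 + 1) := by
    rw [hc', hcV]
    linarith
  have hc2 : (Fintype.card V : ℝ) ≤ c' := by
    rw [hc', hcV]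
    have : 0 ≤ ∑ j : J, (N j : ℝ) := Finset.sum_nonneg fun j _ => (hNp j).le
    linarith
  have hc0 : 0 ≤ c' := hVp.trans hc2
  have hKV : (K:ℝ) * (N0 + 1) ≤ (Fintype.card V : ℝ) * ε' := by nlinarith
  have hKV' : (K:ℝ) * (N0 + 1) ≤ (Fintype.card V : ℝ) := by nlinarith
  have hc3 : c' ≤ (r + 2) * (Fintype.card V : ℝ) := by
    have h1 : ((r:ℝ) + 1) * ∑ i, ω i ≤ (r + 1) * (Fintype.card V : ℝ) :=
      mul_le_mul_of_nonneg_left hSV (by positivity)
    linarith
  -- the nibble
  have hnb := hnib (V ⊕ (Σ j : J, Fin (N j))) (ι × (∀ j, Fin (N j))) (nb1E e D N)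
    (fun x => ω x.1 * p) (fun x => by rw [nb1E_card, hec]) (fun x => mul_nonneg (hω _) hp0)
    ?_ ?_ ?_ ?_
  · obtain ⟨I', hI', hI'c⟩ := hnb
    rw [← hc'] at hI'c
    -- equal first coordinates
    have hfst : ∀ x ∈ I', ∀ y ∈ I', x.1 = y.1 → x = y := by
      intro x hx y hy hxy
      by_contra hne
      have hd := hI' x hx y hy hne
      obtain ⟨v, hv⟩ := Finset.card_pos.1 (he1 x.1)
      exact (Finset.disjoint_left.1 hd ((nb1E_inl e D N x v).2 hv))
        ((nb1E_inl e D N y v).2 (hxy ▸ hv))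
    -- the uncovered vertices
    obtain ⟨U, hU⟩ : ∃ U, U = univ \ I'.biUnion (nb1E e D N) := ⟨_, rfl⟩
    have hUc : (U.card : ℝ) ≤ η / (4 * (r + 2)) * c' := by
      have h1 : (I'.biUnion (nb1E e D N)).card = I'.card * (r + 1) := by
        rw [Finset.card_biUnion (fun x hx y hy hxy => hI' x hx y hy hxy)]
        rw [Finset.sum_congr rfl (fun x _ => by rw [nb1E_card, hec])]
        rw [Finset.sum_const, smul_eq_mul]
      have h2 : U.card + (I'.biUnion (nb1E e D N)).card =
          Fintype.card (V ⊕ (Σ j : J, Fin (N j))) := by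
        rw [hU, Finset.card_sdiff_add_card_eq_card (Finset.subset_univ _), Finset.card_univ]
      have h3 : (U.card : ℝ) + I'.card * (r + 1) = c' := by
        rw [hc', ← h2, h1]
        push_cast
        ring
      push_cast at hI'c
      linarith
    have hUV : (U.card : ℝ) ≤ η * (Fintype.card V : ℝ) := by
      have h1 : η / (4 * (r + 2)) * c' ≤ η / (4 * (r + 2)) * ((r + 2) * (Fintype.card V : ℝ)) :=
        mul_le_mul_of_nonneg_left hc3 (by positivity)
      have h2 : η / (4 * (r + 2)) * ((r + 2) * (Fintype.card V : ℝ)) =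
          η * (Fintype.card V : ℝ) / 4 := by
        field_simp
      have h3 : 0 ≤ η * (Fintype.card V : ℝ) := by positivity
      linarith
    refine ⟨I'.image Prod.fst, ?_, ?_, ?_⟩
    · intro i hi j hj hij
      obtain ⟨x, hx, rfl⟩ := Finset.mem_image.1 hi
      obtain ⟨y, hy, rfl⟩ := Finset.mem_image.1 hj
      have hd := hI' x hx y hy (fun h => hij (by rw [h]))
      rw [Finset.disjoint_left] at hd ⊢
      intro v hv hv'
      exact hd ((nb1E_inl e D N x v).2 hv) ((nb1E_inl e D N y v).2 hv')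
    · refine le_trans ?_ hUV
      have h1 : (univ.filter (fun v : V => ∀ i ∈ I'.image Prod.fst, v ∉ e i)).card ≤ U.card := by
        apply Finset.card_le_card_of_injOn Sum.inl
        · intro v hv
          rw [Finset.mem_coe, Finset.mem_filter] at hv
          rw [Finset.mem_coe, hU, Finset.mem_sdiff]
          refine ⟨Finset.mem_univ _, ?_⟩
          intro hc
          obtain ⟨x, hx, hx2⟩ := Finset.mem_biUnion.1 hc
          exact hv.2 x.1 (Finset.mem_image_of_mem _ hx) ((nb1E_inl e D N x v).1 hx2)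
        · intro v _ w _ h
          exact Sum.inl_injective h
      exact_mod_cast h1
    · intro j
      have h1 : ((I'.image Prod.fst).filter (fun i => D j i)).card =
          (I'.filter (fun x => D j x.1)).card := by
        rw [Finset.filter_image, Finset.card_image_of_injOn]
        intro x hx y hy hxy
        rw [Finset.mem_coe, Finset.mem_filter] at hx hy
        exact hfst x hx.1 y hy.1 hxy
      rw [h1, ← hm]
      have hinj : Set.InjOn (fun x : ι × (∀ j, Fin (N j)) => x.2 j)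
          (I'.filter (fun x => D j x.1) : Finset _) := by
        intro x hx y hy hxy
        rw [Finset.mem_coe, Finset.mem_filter] at hx hy
        by_contra hne
        have hd := hI' x hx.1 y hy.1 hne
        exact (Finset.disjoint_left.1 hd ((nb1E_inr e D N x j (x.2 j)).2 ⟨hx.2, rfl⟩))
          ((nb1E_inr e D N y j (x.2 j)).2 ⟨hy.2, hxy.symm⟩)
      have h2 : (I'.filter (fun x => D j x.1)).card ≤ N j := by
        have h3 := Finset.card_le_card_of_injOn (t := (univ : Finset (Fin (N j)))) _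
          (fun x _ => Finset.mem_coe.2 (Finset.mem_univ _)) hinj
        rwa [Finset.card_univ, Fintype.card_fin] at h3
      have h3 : N j ≤ (I'.filter (fun x => D j x.1)).card + U.card := by
        have h4 : (univ : Finset (Fin (N j))) ⊆
            (I'.filter (fun x => D j x.1)).image (fun x => x.2 j) ∪
            univ.filter (fun a : Fin (N j) => (Sum.inr ⟨j, a⟩ : V ⊕ (Σ j : J, Fin (N j))) ∈ U) := by
          intro a _
          rw [Finset.mem_union, Finset.mem_filter, hU, Finset.mem_sdiff]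
          by_cases hc : (Sum.inr ⟨j, a⟩ : V ⊕ (Σ j : J, Fin (N j))) ∈ I'.biUnion (nb1E e D N)
          · left
            obtain ⟨x, hx, hx2⟩ := Finset.mem_biUnion.1 hc
            rw [nb1E_inr] at hx2
            exact Finset.mem_image.2 ⟨x, Finset.mem_filter.2 ⟨hx, hx2.1⟩, hx2.2⟩
          · right
            exact ⟨Finset.mem_univ _, Finset.mem_univ _, hc⟩
        have h5 := Finset.card_le_card h4
        rw [Finset.card_univ, Fintype.card_fin] at h5
        have h6 := Finset.card_union_le ((I'.filter (fun x => D j x.1)).image (fun x => x.2 j))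
            (univ.filter (fun a : Fin (N j) => (Sum.inr ⟨j, a⟩ : V ⊕ (Σ j : J, Fin (N j))) ∈ U))
        have h7 := Finset.card_image_le (s := I'.filter (fun x => D j x.1))
          (f := fun x : ι × (∀ j, Fin (N j)) => x.2 j)
        have h8 : (univ.filter (fun a : Fin (N j) =>
            (Sum.inr ⟨j, a⟩ : V ⊕ (Σ j : J, Fin (N j))) ∈ U)).card ≤ U.card := by
          apply Finset.card_le_card_of_injOn
            (fun a : Fin (N j) => (Sum.inr ⟨j, a⟩ : V ⊕ (Σ j : J, Fin (N j))))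
          · intro a ha
            rw [Finset.mem_coe, Finset.mem_filter] at ha
            exact ha.2
          · intro a _ b _ hab
            simpa using hab
        omega
      have h2' : ((I'.filter (fun x => D j x.1)).card : ℝ) ≤ (N j : ℝ) := by exact_mod_cast h2
      have h3' : (N j : ℝ) ≤ ((I'.filter (fun x => D j x.1)).card : ℝ) + (U.card : ℝ) := by
        exact_mod_cast h3
      rw [abs_le]
      constructor
      · linarith [hmN j]
      · linarith [hNm j]
  · -- degrees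
    rintro (v | ⟨j, a⟩)
    · have h : ∑ x : ι × (∀ j, Fin (N j)) with Sum.inl v ∈ nb1E e D N x, ω x.1 * p =
          (∑ i with v ∈ e i, ω i) * ∑ f : (∀ j, Fin (N j)) with True, p := by
        rw [← nb1_sum ω p (fun i => v ∈ e i) (fun _ => True)]
        apply Finset.sum_congr _ (fun _ _ => rfl)
        ext x
        simp [nb1E_inl]
      rw [h, hdeg, one_mul, Finset.filter_true, P0]
    · have h : ∑ x : ι × (∀ j, Fin (N j)) with Sum.inr ⟨j, a⟩ ∈ nb1E e D N x, ω x.1 * p =
          (∑ i with D j i, ω i) * ∑ f : (∀ j, Fin (N j)) with f j = a, p := by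
        rw [← nb1_sum ω p (fun i => D j i) (fun f : (∀ j, Fin (N j)) => f j = a)]
        apply Finset.sum_congr _ (fun _ _ => rfl)
        ext x
        simp [nb1E_inr]
      rw [h, P1, ← hm]
      exact hmi j
  · -- codegrees
    have mix : ∀ (v : V) (j : J) (a : Fin (N j)),
        (∑ i with (v ∈ e i ∧ D j i), ω i) * ∑ f : (∀ j, Fin (N j)) with f j = a, p ≤ ε0 := by
      intro v j a
      rw [P1]
      have h1 : ∑ i with (v ∈ e i ∧ D j i), ω i ≤ 1 := by
        rw [← hdeg v]
        apply Finset.sum_le_sum_of_subset_of_nonneg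
        · intro i hi
          rw [Finset.mem_filter] at hi ⊢
          exact ⟨hi.1, hi.2.1⟩
        · intro i _ _
          exact hω i
      have h2 : 0 ≤ ((N j : ℝ))⁻¹ := inv_nonneg.2 (hNp j).le
      nlinarith [hNi j]
    rintro (u | ⟨j, a⟩) (v | ⟨j', b⟩) hne
    · have h : ∑ x : ι × (∀ j, Fin (N j)) with
          (Sum.inl u ∈ nb1E e D N x ∧ Sum.inl v ∈ nb1E e D N x), ω x.1 * p =
          (∑ i with (u ∈ e i ∧ v ∈ e i), ω i) * ∑ f : (∀ j, Fin (N j)) with True, p := by
        rw [← nb1_sum ω p (fun i => u ∈ e i ∧ v ∈ e i) (fun _ => True)]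
        apply Finset.sum_congr _ (fun _ _ => rfl)
        ext x
        simp [nb1E_inl]
      rw [h, Finset.filter_true, P0, mul_one]
      exact (hcod u v (fun h' => hne (by rw [h']))).trans ((min_le_left _ _).trans hε'ε)
    · refine le_trans (le_of_eq ?_) (mix u j' b)
      rw [← nb1_sum ω p (fun i => u ∈ e i ∧ D j' i) (fun f : (∀ j, Fin (N j)) => f j' = b)]
      apply Finset.sum_congr _ (fun _ _ => rfl)
      ext x
      simp [nb1E_inl, nb1E_inr, and_assoc]
    · refine le_trans (le_of_eq ?_) (mix v j a)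
      rw [← nb1_sum ω p (fun i => v ∈ e i ∧ D j i) (fun f : (∀ j, Fin (N j)) => f j = a)]
      apply Finset.sum_congr _ (fun _ _ => rfl)
      ext x
      simp only [nb1E_inl, nb1E_inr, Finset.mem_filter, Finset.mem_univ, true_and]
      tauto
    · by_cases hj : j = j'
      · subst hj
        have hab : a ≠ b := fun h' => hne (by rw [h'])
        rw [Finset.sum_eq_zero]
        · exact hε0.le
        · intro x hx
          exfalso
          rw [Finset.mem_filter, nb1E_inr, nb1E_inr] at hx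
          exact hab (hx.2.1.2.symm.trans hx.2.2.2)
      · have h : ∑ x : ι × (∀ j, Fin (N j)) with
            (Sum.inr ⟨j, a⟩ ∈ nb1E e D N x ∧ Sum.inr ⟨j', b⟩ ∈ nb1E e D N x), ω x.1 * p =
            (∑ i with (D j i ∧ D j' i), ω i) *
              ∑ f : (∀ j, Fin (N j)) with (f j = a ∧ f j' = b), p := by
          rw [← nb1_sum ω p (fun i => D j i ∧ D j' i) (fun f : (∀ j, Fin (N j)) => f j = a ∧ f j' = b)]
          apply Finset.sum_congr _ (fun _ _ => rfl)
          ext x
          simp only [nb1E_inr, Finset.mem_filter, Finset.mem_univ, true_and]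
          tauto
        rw [h, P2 j j' hj, ← mul_assoc]
        have h1 : ∑ i with (D j i ∧ D j' i), ω i ≤ m j := by
          rw [hm]
          apply Finset.sum_le_sum_of_subset_of_nonneg
          · intro i hi
            rw [Finset.mem_filter] at hi ⊢
            exact ⟨hi.1, hi.2.1⟩
          · intro i _ _
            exact hω i
        have h2 : (∑ i with (D j i ∧ D j' i), ω i) * ((N j : ℝ))⁻¹ ≤ 1 :=
          (mul_le_mul_of_nonneg_right h1 (inv_nonneg.2 (hNp j).le)).trans (hmi j)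
        have h3 : 0 ≤ ((N j' : ℝ))⁻¹ := inv_nonneg.2 (hNp j').le
        nlinarith [hNi j']
  · rw [← hc']
    have h1 : 1 / ε0 ≤ 1 / ε' := one_div_le_one_div_of_le hε'0 hε'ε
    have h2 : 1 / ε' ≤ (Fintype.card V : ℝ) := by
      rw [div_le_iff₀ hε'0]
      exact hV1
    linarith
  · rw [← hc', nb1_tot ω p P0]
    have h1 : (1 - ε0) * c' ≤ (1 - ε') * c' := by nlinarith
    have h2 : ε' * (Fintype.card V : ℝ) ≤ ε' * c' := mul_le_mul_of_nonneg_left hc2 hε'0.le
    push_cast
    linarith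

private theorem nb1_fin (r c : ℕ) :
    (univ.filter (fun j : Fin r => c ≤ (j : ℕ))).card = r - c := by
  rw [← Nat.card_Ico]
  apply Finset.card_bij (fun (j : Fin r) _ => (j : ℕ))
  · intro j hj
    rw [Finset.mem_filter] at hj
    exact Finset.mem_Ico.2 ⟨hj.2, j.2⟩
  · intro a _ b _ h
    exact Fin.ext h
  · intro b hb
    rw [Finset.mem_Ico] at hb
    exact ⟨⟨b, hb.2⟩, Finset.mem_filter.2 ⟨Finset.mem_univ _, hb.1⟩, rfl⟩

end nb1

/-- [LOW nb1] the nibble with types, all degrees equal to 1. -/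
theorem p_nb1 : S_nb1 := by
  intro r η hr hη
  obtain ⟨ε, hε, h⟩ := nb1_gen r (4 + r) hr η hη
  refine ⟨ε, hε, ?_⟩
  intro V ι _ _ _ e ω ty he hω hdeg hcod hV
  have hs : ∀ (p q : ι → Prop) (h1 : DecidablePred p) (h2 : DecidablePred q) (s : Finset ι),
      (∀ i, p i ↔ q i) → @Finset.filter ι p h1 s = @Finset.filter ι q h2 s :=
    fun p q h1 h2 s h => Finset.filter_congr (fun i _ => h i)
  have hsV : ∀ (p q : V → Prop) (h1 : DecidablePred p) (h2 : DecidablePred q) (s : Finset V),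
      (∀ i, p i ↔ q i) → @Finset.filter V p h1 s = @Finset.filter V q h2 s :=
    fun p q h1 h2 s h => Finset.filter_congr (fun i _ => h i)
  classical
  have hcount : ∀ i, (e i).card + (univ.filter (fun j : Fin 4 ⊕ Fin r =>
      Sum.elim (fun t : Fin 4 => ty i = t) (fun k : Fin r => (e i).card ≤ (k : ℕ)) j)).card
        = r + 1 := by
    intro i
    rw [Finset.card_filter, Fintype.sum_sum_type]
    have h4 : (∑ x : Fin 4, if Sum.elim (fun t : Fin 4 => ty i = t)
        (fun k : Fin r => (e i).card ≤ (k : ℕ)) (Sum.inl x) then 1 else 0) = 1 := by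
      rw [Finset.sum_eq_single (ty i)]
      · exact if_pos rfl
      · intro b _ hb
        exact if_neg (fun h => hb h.symm)
      · intro h
        exact absurd (Finset.mem_univ _) h
    have h5 : (∑ x : Fin r, if Sum.elim (fun t : Fin 4 => ty i = t)
        (fun k : Fin r => (e i).card ≤ (k : ℕ)) (Sum.inr x) then 1 else 0) = r - (e i).card := by
      rw [← nb1_fin r (e i).card, Finset.card_filter]
      refine Finset.sum_congr rfl (fun x _ => ?_)
      by_cases hx : (e i).card ≤ (x : ℕ)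
      · rw [if_pos hx]
        exact if_pos hx
      · rw [if_neg hx]
        exact if_neg hx
    rw [h4, h5]
    have := (he i).2
    omega
  obtain ⟨I, h1, h2, h3⟩ := h V ι (Fin 4 ⊕ Fin r) e ω
    (fun (j : Fin 4 ⊕ Fin r) i =>
      Sum.elim (fun t : Fin 4 => ty i = t) (fun k : Fin r => (e i).card ≤ (k : ℕ)) j)
    (by rw [Fintype.card_sum, Fintype.card_fin, Fintype.card_fin]) (fun i => (he i).1)
    hcount hω
    (fun v => (congrArg (fun S : Finset ι => ∑ i ∈ S, ω i)
      (hs _ _ _ _ _ (fun i => Iff.rfl))).trans (hdeg v))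
    (fun u v huv => le_trans (le_of_eq (congrArg (fun S : Finset ι => ∑ i ∈ S, ω i)
      (hs _ _ _ _ _ (fun i => Iff.rfl)))) (hcod u v huv)) hV
  refine ⟨I, h1, le_trans (le_of_eq ?_) h2, ?_⟩
  · exact congrArg (fun S : Finset V => ((S.card : ℕ) : ℝ)) (hsV _ _ _ _ _ (fun i => Iff.rfl))
  · intro t
    refine le_trans (le_of_eq ?_) (h3 (Sum.inl t))
    have h5 : (I.filter (fun i => ty i = t)).card = (@Finset.filter ι (fun i => Sum.elim (fun t : Fin 4 => ty i = t) (fun k : Fin r => (e i).card ≤ (k : ℕ)) (Sum.inl t)) (fun a => Classical.propDecidable _) I).card := by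
      exact congrArg Finset.card (hs _ _ _ _ _ (fun i => Iff.rfl))
    have h6 : ∑ i with ty i = t, ω i = ∑ i ∈ (@Finset.filter ι (fun i => Sum.elim (fun t : Fin 4 => ty i = t) (fun k : Fin r => (e i).card ≤ (k : ℕ)) (Sum.inl t)) (fun a => Classical.propDecidable _) Finset.univ), ω i := by
      exact congrArg (fun S : Finset ι => ∑ i ∈ S, ω i) (hs _ _ _ _ _ (fun i => Iff.rfl))
    rw [h5, h6]

end Pool.Agent.MP_b8d9b4_co.Low
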