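import Pool.Agent.Lib.MP_b8d9b4_co.Low.Stm

/-!
# MP_b8d9b4_co, low range, piece nib
-/

set_option autoImplicit false

namespace Pool.Agent.MP_b8d9b4_co.Low

section

variable {V ι : Type} [DecidableEq V] [DecidableEq ι]

/-- the new hyperedges -/
private def nib_e (A : Finset V) (J : Finset ι) (e : ι → Finset V) :
    {i // i ∈ J} ⊕ {v // v ∈ A} → Finset {v // v ∈ A}
  | Sum.inl i => (e i.1).subtype (fun v => v ∈ A)
  | Sum.inr v => {v}

/-- the new weights -/
private noncomputable def nib_w (A : Finset V) (J : Finset ι) (e : ι → Finset V) (ω : ι → ℝ) :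
    {i // i ∈ J} ⊕ {v // v ∈ A} → ℝ
  | Sum.inl i => ω i.1
  | Sum.inr v => 1 - ∑ i ∈ J with v.1 ∈ e i, ω i

/-- the new types -/
private def nib_t (A L : Finset V) (J : Finset ι) (ty : ι → Bool) :
    {i // i ∈ J} ⊕ {v // v ∈ A} → Fin 4
  | Sum.inl i => if ty i.1 = true then 1 else 0
  | Sum.inr v => if v.1 ∈ L then 2 else 3

omit [DecidableEq ι] in
private theorem nib_sum (A : Finset V) (J : Finset ι) (e : ι → Finset V) (ω : ι → ℝ)
    (p : {i // i ∈ J} ⊕ {v // v ∈ A} → Prop) [DecidablePred p] (a : ι → Prop) [DecidablePred a]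
    (b : V → Prop) [DecidablePred b] (ha : ∀ i, p (Sum.inl i) ↔ a i.1)
    (hb : ∀ v, p (Sum.inr v) ↔ b v.1) :
    ∑ x with p x, nib_w A J e ω x =
      ∑ i ∈ J with a i, ω i + ∑ v ∈ A with b v, (1 - ∑ i ∈ J with v ∈ e i, ω i) := by
  rw [Finset.sum_filter, Fintype.sum_sum_type]
  congr 1
  · rw [Finset.sum_filter, ← Finset.sum_coe_sort J]
    apply Finset.sum_congr rfl
    intro i _
    exact if_congr (ha i) rfl rfl
  · rw [Finset.sum_filter, ← Finset.sum_coe_sort A]
    apply Finset.sum_congr rfl
    intro v _
    exact if_congr (hb v) rfl rfl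

end

theorem p_nib (h1 : S_nb1) : S_nib := by
  intro r η hr hη
  obtain ⟨ε, hε, h⟩ := h1 r (η / 3) hr (by positivity)
  refine ⟨ε, hε, ?_⟩
  intro V ι _ _ A L J e ω ty hLA he hω hdeg hcod hA
  have hcardV : Fintype.card {v // v ∈ A} = A.card := Fintype.card_coe A
  obtain ⟨I, hI1, hI2, hI3⟩ := h {v // v ∈ A} ({i // i ∈ J} ⊕ {v // v ∈ A}) (nib_e A J e)
    (nib_w A J e ω) (nib_t A L J ty)
    (by
      rintro (i | v)
      · have hc : (nib_e A J e (Sum.inl i)).card = (e i.1).card := by
          show ((e i.1).subtype (fun v => v ∈ A)).card = _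
          rw [Finset.card_subtype, Finset.filter_true_of_mem]
          intro v hv
          exact (he i.1 i.2).1 hv
        rw [hc]
        exact (he i.1 i.2).2
      · show 1 ≤ ({v} : Finset {v // v ∈ A}).card ∧ ({v} : Finset {v // v ∈ A}).card ≤ r
        rw [Finset.card_singleton]
        exact ⟨le_refl 1, hr⟩)
    (by
      rintro (i | v)
      · exact hω i.1 i.2
      · show 0 ≤ 1 - ∑ i ∈ J with v.1 ∈ e i, ω i
        have := hdeg v.1 v.2
        linarith)
    (by
      intro v
      rw [nib_sum A J e ω _ (fun i => v.1 ∈ e i) (fun u => u = v.1)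
        (by
          intro i
          show v ∈ (e i.1).subtype (fun v => v ∈ A) ↔ _
          rw [Finset.mem_subtype])
        (by
          intro u
          show v ∈ ({u} : Finset {v // v ∈ A}) ↔ _
          rw [Finset.mem_singleton]
          constructor
          · rintro rfl; rfl
          · intro h; exact Subtype.ext h.symm)]
      have h2 : A.filter (fun u => u = v.1) = {v.1} := by
        ext u
        rw [Finset.mem_filter, Finset.mem_singleton]
        constructor
        · exact fun h => h.2
        · rintro rfl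
          exact ⟨v.2, rfl⟩
      rw [h2, Finset.sum_singleton]
      ring)
    (by
      intro u v huv
      rw [nib_sum A J e ω _ (fun i => u.1 ∈ e i ∧ v.1 ∈ e i) (fun _ => False)
        (by
          intro i
          show (u ∈ (e i.1).subtype (fun v => v ∈ A) ∧ v ∈ (e i.1).subtype (fun v => v ∈ A)) ↔ _
          rw [Finset.mem_subtype, Finset.mem_subtype])
        (by
          intro w
          show (u ∈ ({w} : Finset {v // v ∈ A}) ∧ v ∈ ({w} : Finset {v // v ∈ A})) ↔ False
          rw [Finset.mem_singleton, Finset.mem_singleton]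
          constructor
          · rintro ⟨rfl, rfl⟩
            exact huv rfl
          · exact False.elim)]
      rw [Finset.filter_false, Finset.sum_empty, add_zero]
      exact hcod u.1 u.2 v.1 v.2 (fun h => huv (Subtype.ext h)))
    (by
      rw [hcardV]
      exact hA)
  rw [hcardV] at hI2
  have hη3 : η / 3 * (A.card : ℝ) ≤ η * (A.card : ℝ) := by
    apply mul_le_mul_of_nonneg_right _ (Nat.cast_nonneg _)
    linarith
  -- the matching
  let M : Finset ι := J.filter (fun i => ∃ h : i ∈ J, (Sum.inl ⟨i, h⟩ : {i // i ∈ J} ⊕ {v // v ∈ A}) ∈ I)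
  have hM : ∀ i, i ∈ M ↔ ∃ h : i ∈ J,
      (Sum.inl ⟨i, h⟩ : {i // i ∈ J} ⊕ {v // v ∈ A}) ∈ I := by
    intro i
    show i ∈ J.filter _ ↔ _
    rw [Finset.mem_filter]
    constructor
    · exact fun h => h.2
    · intro h
      exact ⟨h.1, h⟩
  refine ⟨M, Finset.filter_subset _ _, ?_, ?_, ?_⟩
  · intro i hi j hj hij
    obtain ⟨hiJ, hiI⟩ := (hM i).1 hi
    obtain ⟨hjJ, hjI⟩ := (hM j).1 hj
    have hd := hI1 _ hiI _ hjI (by
      intro h
      exact hij (congrArg Subtype.val (Sum.inl.inj h)))
    rw [Finset.disjoint_left] at hd ⊢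
    intro v hvi hvj
    have hvA : v ∈ A := (he i hiJ).1 hvi
    exact hd (a := ⟨v, hvA⟩) (Finset.mem_subtype.2 hvi) (Finset.mem_subtype.2 hvj)
  · -- the uncovered lines
    let U1 : Finset {v // v ∈ A} := Finset.univ.filter (fun v => ∀ i ∈ I, v ∉ nib_e A J e i)
    let U2 : Finset {v // v ∈ A} := Finset.univ.filter
      (fun v => (Sum.inr v : {i // i ∈ J} ⊕ {v // v ∈ A}) ∈ I ∧ v.1 ∈ L)
    have hsub : L.filter (fun v => ∀ i ∈ M, v ∉ e i) ⊆
        (U1 ∪ U2).image Subtype.val := by
      intro v hv
      rw [Finset.mem_filter] at hv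
      have hvA := hLA hv.1
      rw [Finset.mem_image]
      refine ⟨⟨v, hvA⟩, ?_, rfl⟩
      rw [Finset.mem_union]
      by_cases hc : ∀ i ∈ I, (⟨v, hvA⟩ : {v // v ∈ A}) ∉ nib_e A J e i
      · left
        exact Finset.mem_filter.2 ⟨Finset.mem_univ _, hc⟩
      · right
        push Not at hc
        obtain ⟨i, hi, hvi⟩ := hc
        rcases i with i | w
        · exfalso
          exact hv.2 i.1 ((hM i.1).2 ⟨i.2, hi⟩) (Finset.mem_subtype.1 hvi)
        · have hw : (⟨v, hvA⟩ : {v // v ∈ A}) = w := Finset.mem_singleton.1 hvi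
          rw [← hw] at hi
          exact Finset.mem_filter.2 ⟨Finset.mem_univ _, hi, hv.1⟩
    have hc1 : (L.filter (fun v => ∀ i ∈ M, v ∉ e i)).card ≤ U1.card + U2.card :=
      (Finset.card_le_card hsub).trans (Finset.card_image_le.trans (Finset.card_union_le _ _))
    have hc2 : U2.card ≤ (I.filter (fun i => nib_t A L J ty i = 2)).card := by
      refine Finset.card_le_card_of_injOn Sum.inr ?_ ?_
      · intro v hv
        have hv' := (Finset.mem_filter.1 hv).2
        refine Finset.mem_coe.2 (Finset.mem_filter.2 ⟨hv'.1, ?_⟩)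
        show (if v.1 ∈ L then (2 : Fin 4) else 3) = 2
        rw [if_pos hv'.2]
      · intro v _ w _ h
        exact Sum.inr.inj h
    have h2 := hI3 2
    rw [hcardV, nib_sum A J e ω _ (fun _ => False) (fun v => v ∈ L)
        (by
          intro i
          show (if ty i.1 = true then (1 : Fin 4) else 0) = 2 ↔ False
          by_cases hty : ty i.1 = true
          · rw [if_pos hty]; decide
          · rw [if_neg hty]; decide)
        (by
          intro v
          show (if v.1 ∈ L then (2 : Fin 4) else 3) = 2 ↔ _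
          by_cases hv : v.1 ∈ L
          · rw [if_pos hv]; simp [hv]
          · rw [if_neg hv]; simp [hv]),
      Finset.filter_false, Finset.sum_empty, zero_add] at h2
    have hAL : A.filter (fun v => v ∈ L) = L := by
      ext v
      rw [Finset.mem_filter]
      exact ⟨fun h => h.2, fun h => ⟨hLA h, h⟩⟩
    rw [hAL] at h2
    have h3 := (abs_le.1 h2).2
    have h4 : ((L.filter (fun v => ∀ i ∈ M, v ∉ e i)).card : ℝ) ≤ (U1.card : ℝ) + U2.card := by
      exact_mod_cast hc1
    have h5 : (U2.card : ℝ) ≤ (I.filter (fun i => nib_t A L J ty i = 2)).card := by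
      exact_mod_cast hc2
    have h6 : (U1.card : ℝ) ≤ η / 3 * (A.card : ℝ) := by
      refine le_trans ?_ hI2
      rw [Nat.cast_le]
      apply Finset.card_le_card
      intro v hv
      have hv' := (Finset.mem_filter.1 hv).2
      simp only [Finset.mem_filter, Finset.mem_univ, true_and]
      exact hv'
    have h7 : 0 ≤ η * (A.card : ℝ) := by positivity
    linarith
  · intro b
    have hcard : (M.filter (fun i => ty i = b)).card =
        (I.filter (fun i => nib_t A L J ty i = if b = true then 1 else 0)).card := by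
      refine Finset.card_bij (fun i hi => Sum.inl ⟨i, ?_⟩) ?_ ?_ ?_
      · exact ((hM i).1 (Finset.mem_filter.1 hi).1).1
      · intro i hi
        rw [Finset.mem_filter] at hi
        obtain ⟨hiJ, hiI⟩ := (hM i).1 hi.1
        refine Finset.mem_filter.2 ⟨hiI, ?_⟩
        show (if ty i = true then (1 : Fin 4) else 0) = _
        rw [hi.2]
      · intro i _ j _ h
        exact congrArg Subtype.val (Sum.inl.inj h)
      · intro x hx
        rw [Finset.mem_filter] at hx
        rcases x with i | v
        · refine ⟨i.1, ?_, rfl⟩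
          rw [Finset.mem_filter]
          refine ⟨(hM i.1).2 ⟨i.2, hx.1⟩, ?_⟩
          have hx2 : (if ty i.1 = true then (1 : Fin 4) else 0) = if b = true then 1 else 0 := hx.2
          cases hb : b <;> cases ht : ty i.1 <;> rw [hb, ht] at hx2 <;> first | rfl | (exact absurd hx2 (by decide))
        · exfalso
          have hx2 : (if v.1 ∈ L then (2 : Fin 4) else 3) = if b = true then 1 else 0 := hx.2
          cases b <;> by_cases hv : v.1 ∈ L
          · rw [if_pos hv] at hx2; exact absurd hx2 (by decide)
          · rw [if_neg hv] at hx2; exact absurd hx2 (by decide)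
          · rw [if_pos hv] at hx2; exact absurd hx2 (by decide)
          · rw [if_neg hv] at hx2; exact absurd hx2 (by decide)
    have h2 := hI3 (if b = true then 1 else 0)
    rw [hcardV, nib_sum A J e ω _ (fun i => ty i = b) (fun _ => False)
        (by
          intro i
          show (if ty i.1 = true then (1 : Fin 4) else 0) = (if b = true then 1 else 0) ↔ _
          cases b <;> cases ht : ty i.1 <;> simp)
        (by
          intro v
          show (if v.1 ∈ L then (2 : Fin 4) else 3) = (if b = true then 1 else 0) ↔ False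
          cases b <;> by_cases hv : v.1 ∈ L <;> simp [hv]),
      Finset.filter_false, Finset.sum_empty, add_zero] at h2
    rw [hcard]
    exact h2.trans hη3

end Pool.Agent.MP_b8d9b4_co.Low
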