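import Pool.Agent.Lib.MP_b8d9b4_co.Low.Stm

set_option autoImplicit false

namespace Pool.Agent.MP_b8d9b4_co.Low

open Pool.Agent.MP_b8d9b4_co.Top (Sq Line lv att board)

private theorem nl_ite {P Q : Prop} [Decidable P] [Decidable Q] (h : P → Q) :
    (if P then 1 else 0 : ℕ) ≤ if Q then 1 else 0 := by
  split_ifs with a b
  · exact le_rfl
  · exact absurd (h a) b
  · exact Nat.zero_le _
  · exact le_rfl

private theorem nl_m0 {n q v : ℤ} (h1 : 1 ≤ v) (h2 : v ≤ n) (h3 : v % 2 = 0) :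
    ((0, v) : Line) ∈ LL n q := by
  unfold LL
  simp only [Finset.mem_union, Finset.mem_image, Finset.mem_filter, Finset.mem_Icc]
  exact Or.inl (Or.inl (Or.inl (Or.inl (Or.inl ⟨v, ⟨⟨h1, h2⟩, h3⟩, rfl⟩))))

private theorem nl_m1 {n q v : ℤ} (h1 : 1 ≤ v) (h2 : v ≤ n) (h3 : v % 2 = 0) :
    ((1, v) : Line) ∈ LL n q := by
  unfold LL
  simp only [Finset.mem_union, Finset.mem_image, Finset.mem_filter, Finset.mem_Icc]
  exact Or.inl (Or.inl (Or.inl (Or.inl (Or.inr ⟨v, ⟨⟨h1, h2⟩, h3⟩, rfl⟩))))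

private theorem nl_m2 {n q v : ℤ} (h1 : -(11 * q) ≤ v) (h2 : v ≤ 11 * q) (h3 : v % 4 = 0) :
    ((2, v) : Line) ∈ LL n q := by
  unfold LL
  simp only [Finset.mem_union, Finset.mem_image, Finset.mem_filter, Finset.mem_Icc]
  exact Or.inl (Or.inl (Or.inl (Or.inr ⟨v, ⟨⟨h1, h2⟩, h3⟩, rfl⟩)))

private theorem nl_m2' {n q v : ℤ} (h1 : -(3 * q) ≤ v) (h2 : v ≤ 3 * q) (h3 : v % 4 = 2) :
    ((2, v) : Line) ∈ LL n q := by
  unfold LL
  simp only [Finset.mem_union, Finset.mem_image, Finset.mem_filter, Finset.mem_Icc]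
  exact Or.inl (Or.inl (Or.inr ⟨v, ⟨⟨h1, h2⟩, h3⟩, rfl⟩))

private theorem nl_m3 {n q v : ℤ} (h1 : 3 * q ≤ v) (h2 : v ≤ 25 * q + 112) (h3 : v % 4 = 0) :
    ((3, v) : Line) ∈ LL n q := by
  unfold LL
  simp only [Finset.mem_union, Finset.mem_image, Finset.mem_filter, Finset.mem_Icc]
  exact Or.inl (Or.inr ⟨v, ⟨⟨h1, h2⟩, h3⟩, rfl⟩)

private theorem nl_m3' {n q v : ℤ} (h1 : 11 * q ≤ v) (h2 : v ≤ 17 * q + 112) (h3 : v % 4 = 2) :
    ((3, v) : Line) ∈ LL n q := by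
  unfold LL
  simp only [Finset.mem_union, Finset.mem_image, Finset.mem_filter, Finset.mem_Icc]
  exact Or.inr ⟨v, ⟨⟨h1, h2⟩, h3⟩, rfl⟩

private theorem nl_zero (ty : ℕ) (X : Fin 4) (a b : ℤ) : (0 : ℤ) ∈ TT ty X a b := by
  unfold TT
  split_ifs
  · fin_cases X <;> simp
  · simp

private theorem nl_key (n q A : ℤ) (hq : 0 < q) (hA : 0 ≤ A) (hn : 14 * q ≤ n) (k : Seg)
    (hty : k.ty ≤ 4) (u : Sq) (hb : u ∈ board (14 * q)) (hkl : kl k.ty u)
    (hm : ∀ X : Fin 4, q * lo k X + (4 * A + 4) ≤ lv X u ∧ lv X u ≤ q * hi k X - (4 * A + 4)) :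
    nd k ≤ (Finset.univ.filter (fun X : Fin 4 => ((X, lv X u) : Line) ∈ LL n q)).card := by
  rw [Finset.card_filter, Fin.sum_univ_four]
  rw [Pool.Agent.MP_b8d9b4_co.Top.mem_board] at hb
  obtain ⟨hb1, hb2, hb3, hb4⟩ := hb
  have hm2 := hm 2
  have hm3 := hm 3
  have l0 : lv 0 u = u.1 := rfl
  have l1 : lv 1 u = u.2 := rfl
  have l2 : lv 2 u = u.1 - u.2 := rfl
  have l3 : lv 3 u = u.1 + u.2 := rfl
  rw [l2] at hm2
  rw [l3] at hm3
  rw [l0, l1, l2, l3]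
  have low : ∀ (c l : ℤ), c ≤ l → c * q ≤ q * l := fun c l h => by nlinarith
  have upp : ∀ (c l : ℤ), l ≤ c → q * l ≤ c * q := fun c l h => by nlinarith
  obtain ⟨hk1, hk2⟩ := hkl
  have w2 : (u.1 - u.2) % 4 = 0 → (-11 ≤ lo k 2 ∧ hi k 2 ≤ 11) →
      ((2, u.1 - u.2) : Line) ∈ LL n q := by
    intro h ⟨h1, h2⟩
    have a1 := low _ _ h1
    have a2 := upp _ _ h2
    exact nl_m2 (by linarith) (by linarith) h
  have w2' : (u.1 - u.2) % 4 = 2 → (-3 ≤ lo k 2 ∧ hi k 2 ≤ 3) →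
      ((2, u.1 - u.2) : Line) ∈ LL n q := by
    intro h ⟨h1, h2⟩
    have a1 := low _ _ h1
    have a2 := upp _ _ h2
    exact nl_m2' (by linarith) (by linarith) h
  have w3 : (u.1 + u.2) % 4 = 0 → (3 ≤ lo k 3 ∧ hi k 3 ≤ 25) →
      ((3, u.1 + u.2) : Line) ∈ LL n q := by
    intro h ⟨h1, h2⟩
    have a1 := low _ _ h1
    have a2 := upp _ _ h2
    exact nl_m3 (by linarith) (by linarith) h
  have w3' : (u.1 + u.2) % 4 = 2 → (11 ≤ lo k 3 ∧ hi k 3 ≤ 17) →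
      ((3, u.1 + u.2) : Line) ∈ LL n q := by
    intro h ⟨h1, h2⟩
    have a1 := low _ _ h1
    have a2 := upp _ _ h2
    exact nl_m3' (by linarith) (by linarith) h
  have c0 : u.1 % 2 = 0 → ((0, u.1) : Line) ∈ LL n q := fun h => nl_m0 hb1 (by linarith) h
  have c1 : u.2 % 2 = 0 → ((1, u.2) : Line) ∈ LL n q := fun h => nl_m1 hb3 (by linarith) h
  have hcase : k.ty = 0 ∨ k.ty = 1 ∨ k.ty = 2 ∨ k.ty = 3 ∨ k.ty = 4 := by omega
  rcases hcase with h | h | h | h | h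
  · rw [h] at hk1 hk2
    norm_num at hk1 hk2
    rw [if_pos (c0 (by omega)), if_pos (c1 (by omega))]
    unfold nd
    rw [h]
    exact add_le_add (add_le_add (by norm_num) (nl_ite (w2 (by omega)))) (nl_ite (w3 (by omega)))
  · rw [h] at hk1 hk2
    norm_num at hk1 hk2
    rw [if_pos (c0 (by omega)), if_pos (c1 (by omega))]
    unfold nd
    rw [h]
    exact add_le_add (add_le_add (by norm_num) (nl_ite (w2' (by omega)))) (nl_ite (w3' (by omega)))
  · rw [h] at hk1 hk2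
    norm_num at hk1 hk2
    unfold nd
    rw [h]
    exact add_le_add (le_trans (nl_ite (w2 (by omega))) (Nat.le_add_left _ _))
      (nl_ite (w3' (by omega)))
  · rw [h] at hk1 hk2
    norm_num at hk1 hk2
    unfold nd
    rw [h]
    exact add_le_add (le_trans (nl_ite (w2' (by omega))) (Nat.le_add_left _ _))
      (nl_ite (w3 (by omega)))
  · rw [h] at hk1 hk2
    norm_num at hk1 hk2
    rw [if_pos (c0 (by omega)), if_pos (c1 (by omega))]
    unfold nd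
    rw [h]
    exact le_trans (by norm_num) (le_trans (Nat.le_add_right _ _) (Nat.le_add_right _ _))

theorem p_nl (h1 : S_ok) (h2 : S_mg) (_h3 : S_cl) : S_nl := by
  intro n q W R A hP i hi
  have hA : 0 ≤ A := by have := hP.1; omega
  have hq : 0 < q := by
    obtain ⟨a1, a2, a3, a4, a5, a6, a7, a8, a9⟩ := hP
    omega
  have hn : 14 * q ≤ n := hP.2.2.2.2.2.2.2.1
  rw [mem_JJ hA] at hi
  obtain ⟨hj, hu, -⟩ := hi
  have hk := h1 i.1 hj
  rw [mem_St] at hu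
  obtain ⟨hb, hin⟩ := hu
  have hm := h2 n q W R A hP (sg i.1) hk i.2.1 hin
  have hcard : (Finset.univ.filter (fun X : Fin 4 => ((X, lv X i.2.1) : Line) ∈ LL n q)).card ≤
      ((LL n q).filter (fun l => l ∈ ed i)).card := by
    apply Finset.card_le_card_of_injOn (fun X => ((X, lv X i.2.1) : Line))
    · intro X hX
      have hX' := (Finset.mem_filter.mp hX).2
      refine Finset.mem_coe.mpr (Finset.mem_filter.mpr ⟨hX', ?_⟩)
      rw [mem_ed]
      have : ((X, lv X i.2.1) : Line).2 - lv ((X, lv X i.2.1) : Line).1 i.2.1 = 0 := sub_self _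
      rw [this]
      exact nl_zero _ _ _ _
    · intro X _ Y _ h
      exact congrArg Prod.fst h
  refine le_trans ?_ hcard
  exact nl_key n q A hq hA hn (sg i.1) hk.2.2.2.2.1 i.2.1 hb hin.2.2.2.2 hm

end Pool.Agent.MP_b8d9b4_co.Low
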