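import Pool.Agent.Lib.MP_b8d9b4_co.Low.Stm

/-!
# MP_b8d9b4_co, low range: piece ok
-/

set_option autoImplicit false

namespace Pool.Agent.MP_b8d9b4_co.Low

theorem ok_all : ∀ k ∈ segs, Ok k := by
  unfold Ok
  decide +kernel

theorem ok_len : segs.length = 408 := by decide +kernel

theorem ok_mem (j : ℕ) (hj : j < 408) : sg j ∈ segs := by
  unfold sg
  have h : j < segs.length := by rw [ok_len]; exact hj
  rw [List.getD_eq_getElem _ _ h]
  exact List.getElem_mem h

theorem p_ok : S_ok := fun j hj => ok_all _ (ok_mem j hj)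

end Pool.Agent.MP_b8d9b4_co.Low
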