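import Pool.Agent.Lib.MP_b8d9b4_co.Low.Stm

/-!
# [LOW sum] total weights
-/

set_option autoImplicit false

namespace Pool.Agent.MP_b8d9b4_co.Low

open Pool.Agent.MP_b8d9b4_co.Top (Sq Line lv att board)

/-- the allowed pairs of offsets, as a finset with a known number of elements -/
private theorem sum_AB (ty : ℕ) (A : ℤ) (hA : 28 ≤ A) :
    ∃ T : Finset (ℤ × ℤ), (∀ a b : ℤ, (a, b) ∈ T ↔ AB ty A a b) ∧
      ((T.card : ℝ) = if ty = 4 then (A : ℝ) ^ 2 else 1) := by
  by_cases h : ty = 4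
  · have hinj : Function.Injective (fun t : ℤ => 2 * t + 1) := by
      intro a b hab
      simp only at hab
      omega
    refine ⟨((Finset.Ico 0 A).image (fun t : ℤ => 2 * t + 1)) ×ˢ
      ((Finset.Ico A (2 * A)).image (fun t : ℤ => 2 * t + 1)), ?_, ?_⟩
    · intro a b
      unfold AB
      rw [if_pos h, Finset.mem_product, Finset.mem_image, Finset.mem_image]
      simp only [Finset.mem_Ico]
      constructor
      · rintro ⟨⟨t, ht, rfl⟩, ⟨r, hr, rfl⟩⟩
        omega
      · rintro ⟨h1, h2, h3, h4, h5, h6⟩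
        exact ⟨⟨a / 2, by omega, by omega⟩, ⟨b / 2, by omega, by omega⟩⟩
    · rw [if_pos h, Finset.card_product, Finset.card_image_of_injective _ hinj,
        Finset.card_image_of_injective _ hinj, Int.card_Ico, Int.card_Ico]
      have h1 : ((A - 0).toNat : ℝ) = (A : ℝ) := by
        have h2 : (((A - 0).toNat : ℤ) : ℝ) = ((A : ℤ) : ℝ) := by
          congr 1
          omega
        rw [← h2]
        norm_cast
      have h3 : ((2 * A - A).toNat : ℝ) = (A : ℝ) := by
        have h2 : (((2 * A - A).toNat : ℤ) : ℝ) = ((A : ℤ) : ℝ) := by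
          congr 1
          omega
        rw [← h2]
        norm_cast
      rw [Nat.cast_mul, h1, h3]
      ring
  · refine ⟨{(0, 0)}, ?_, ?_⟩
    · intro a b
      unfold AB
      rw [if_neg h, Finset.mem_singleton, Prod.mk.injEq]
    · rw [if_neg h, Finset.card_singleton, Nat.cast_one]

theorem p_sum : S_sum := by
  intro n q W R A hP σ s hs
  obtain ⟨hA, -⟩ := hP
  have hA0 : (0 : ℤ) ≤ A := by omega
  have hAr : (A : ℝ) ≠ 0 := by
    have : (28 : ℝ) ≤ (A : ℝ) := by exact_mod_cast hA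
    linarith
  classical
  have hfib : ∑ i ∈ JJ q W R A with i.1 ∈ s, wt σ W A i =
      ∑ j ∈ s, ∑ i ∈ (JJ q W R A).filter (fun i => i.1 ∈ s) with i.1 = j, wt σ W A i := by
    rw [Finset.sum_fiberwise_of_maps_to]
    intro i hi
    exact (Finset.mem_filter.1 hi).2
  rw [hfib]
  refine Finset.sum_congr rfl fun j hj => ?_
  have hj408 : j < 408 := Finset.mem_range.1 (hs hj)
  obtain ⟨T, hT, hTc⟩ := sum_AB (sg j).ty A hA
  have hset : ((JJ q W R A).filter (fun i => i.1 ∈ s)).filter (fun i => i.1 = j) =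
      ((St (sg j) q W R) ×ˢ T).image (fun x : Sq × ℤ × ℤ => ((j, x) : Ix)) := by
    ext ⟨j', u, a, b⟩
    rw [Finset.mem_filter, Finset.mem_filter, mem_JJ hA0, Finset.mem_image]
    constructor
    · rintro ⟨⟨⟨h1, h2, h3⟩, h4⟩, h5⟩
      simp only at h1 h2 h3 h4 h5
      subst h5
      exact ⟨(u, a, b), Finset.mem_product.2 ⟨h2, (hT a b).2 h3⟩, rfl⟩
    · rintro ⟨⟨u', a', b'⟩, h1, h2⟩
      obtain ⟨rfl, h3⟩ := Prod.mk.inj h2
      obtain ⟨rfl, h4⟩ := Prod.mk.inj h3
      obtain ⟨rfl, rfl⟩ := Prod.mk.inj h4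
      rw [Finset.mem_product] at h1
      exact ⟨⟨⟨hj408, h1.1, (hT a' b').1 h1.2⟩, hj⟩, rfl⟩
  rw [hset, Finset.sum_image (fun x _ y _ h => (Prod.mk.inj h).2)]
  have hconst : ∀ x ∈ (St (sg j) q W R) ×ˢ T, wt σ W A ((j, x) : Ix) =
      am σ j * 4 / (W : ℝ) / (if (sg j).ty = 4 then (A : ℝ) ^ 2 else 1) := fun _ _ => rfl
  rw [Finset.sum_congr rfl hconst, Finset.sum_const, nsmul_eq_mul, Finset.card_product,
    Nat.cast_mul, hTc]
  have hne : (if (sg j).ty = 4 then (A : ℝ) ^ 2 else 1) ≠ 0 := by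
    split_ifs
    · exact pow_ne_zero _ hAr
    · exact one_ne_zero
  generalize (if (sg j).ty = 4 then (A : ℝ) ^ 2 else 1) = D at hne
  generalize ((St (sg j) q W R).card : ℝ) = N
  generalize am σ j = m
  field_simp

end Pool.Agent.MP_b8d9b4_co.Low
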