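import Pool.Agent.Lib.MP_b8d9b4_co.Low.P.num
import Pool.Agent.Lib.MP_b8d9b4_co.Low.P.ok

/-!
# MP_b8d9b4_co, low range: piece tab
-/

set_option autoImplicit false

namespace Pool.Agent.MP_b8d9b4_co.Low

open Pool.Agent.MP_b8d9b4_co.Top (Sq Line lv att board)

/-- the projections, shifted by 14 for the diagonals -/
def tab_pn (X : Fin 4) (x y : ℕ) : ℕ :=
  match X with
  | 0 => x
  | 1 => y
  | 2 => x + 14 - y
  | 3 => x + y

/-- the shift -/
def tab_off (X : Fin 4) : ℤ :=
  match X with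
  | 0 => 0
  | 1 => 0
  | 2 => 14
  | 3 => 0

/-- the load as a natural number -/
def tab_ld (X : Fin 4) (c t : ℕ) (k : Seg) : ℕ :=
  if min (tab_pn X k.x1 k.y1) (tab_pn X k.x2 k.y2) ≤ t ∧
      t < max (tab_pn X k.x1 k.y1) (tab_pn X k.x2 k.y2) then
    cf k.ty X c * k.al * (1980 / (max (tab_pn X k.x1 k.y1) (tab_pn X k.x2 k.y2) -
      min (tab_pn X k.x1 k.y1) (tab_pn X k.x2 k.y2))) else 0

theorem tab_X : ∀ X : Fin 4, ∀ c < 3, ∀ t < 28,
    (segsX.map (tab_ld X c t)).sum ≤ 1980 * 10 ^ 8 := by decide +kernel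

theorem tab_Y : ∀ X : Fin 4, ∀ c < 3, ∀ t < 28,
    (segsY.map (tab_ld X c t)).sum ≤ 1980 * 10 ^ 8 := by decide +kernel

theorem tab_pn_cast (X : Fin 4) (x y : ℕ) (hy : y ≤ 14) :
    ((tab_pn X x y : ℕ) : ℤ) = lv X ((x : ℤ), (y : ℤ)) + tab_off X := by
  fin_cases X
  · simp [tab_pn, lv, tab_off]
  · simp [tab_pn, lv, tab_off]
  · simp only [tab_pn, lv, tab_off]
    omega
  · simp [tab_pn, lv, tab_off]

theorem tab_le (k : Seg) (hk : Ok k) (X : Fin 4) (c : ℕ) (t : ℤ) (ht : 0 ≤ t + tab_off X) :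
    ld k X c t ≤ (tab_ld X c (t + tab_off X).toNat k : ℝ) / (1980 * 10 ^ 8) := by
  obtain ⟨-, hx2, hy1, hy2, -, hlen, -⟩ := hk
  have h1 := tab_pn_cast X k.x1 k.y1 hy1
  have h2 := tab_pn_cast X k.x2 k.y2 hy2
  have hlen := hlen X
  have hR : (0 : ℝ) ≤ (tab_ld X c (t + tab_off X).toNat k : ℝ) / (1980 * 10 ^ 8) := by positivity
  unfold ld
  split_ifs with h
  · unfold len lo hi at hlen
    unfold lo hi at h
    unfold len lo hi
    set p := lv X ((k.x1 : ℤ), (k.y1 : ℤ)) with hp
    set p' := lv X ((k.x2 : ℤ), (k.y2 : ℤ)) with hp'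
    unfold tab_ld
    set a := tab_pn X k.x1 k.y1 with ha
    set b := tab_pn X k.x2 k.y2 with hb
    have hc : min a b ≤ (t + tab_off X).toNat ∧ (t + tab_off X).toNat < max a b := by omega
    rw [if_pos hc]
    have hL : ((max a b - min a b : ℕ) : ℤ) = max p p' - min p p' := by omega
    have hLpos : 0 < max a b - min a b := by omega
    have hdvd : (max a b - min a b) ∣ 1980 := by
      have h3 := hlen.2
      rw [← hL] at h3
      exact_mod_cast h3
    have hLR : (((max p p' - min p p' : ℤ)) : ℝ) = ((max a b - min a b : ℕ) : ℝ) := by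
      rw [← hL]
      push_cast
      rfl
    rw [hLR]
    generalize hLL : max a b - min a b = LL at *
    obtain ⟨m, hm⟩ := hdvd
    have h4 : 1980 / LL = m := by
      rw [hm]
      exact Nat.mul_div_cancel_left m hLpos
    rw [h4]
    have h5 : (1980 : ℝ) = (LL : ℝ) * m := by exact_mod_cast hm
    have h6 : (0 : ℝ) < LL := by exact_mod_cast hLpos
    have h7 : (0 : ℝ) < m := by
      have : 0 < m := by
        rcases Nat.eq_zero_or_pos m with h | h
        · subst h
          simp at hm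
        · exact h
      exact_mod_cast this
    apply le_of_eq
    rw [h5]
    push_cast
    field_simp
  · exact hR

theorem tab_sum (L : List Seg) (hL : ∀ k ∈ L, Ok k) (X : Fin 4) (c : ℕ) (t : ℤ)
    (ht : 0 ≤ t + tab_off X) :
    (L.map (fun k => ld k X c t)).sum ≤
      ((L.map (tab_ld X c (t + tab_off X).toNat)).sum : ℝ) / (1980 * 10 ^ 8) := by
  induction L with
  | nil => simp
  | cons k L ih =>
    rw [List.map_cons, List.map_cons, List.sum_cons, List.sum_cons]
    have h1 := tab_le k (hL k (List.mem_cons_self)) X c t ht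
    have h2 := ih (fun k' hk' => hL k' (List.mem_cons_of_mem _ hk'))
    push_cast
    rw [add_div]
    exact add_le_add h1 (by push_cast at h2; exact h2)

theorem tab_zero (k : Seg) (hk : Ok k) (X : Fin 4) (c : ℕ) (t : ℤ)
    (ht : t + tab_off X < 0 ∨ 28 ≤ t + tab_off X) : ld k X c t = 0 := by
  obtain ⟨hx1, hx2, hy1, hy2, -, -, -⟩ := hk
  have h1 := tab_pn_cast X k.x1 k.y1 hy1
  have h2 := tab_pn_cast X k.x2 k.y2 hy2
  have h3 : tab_pn X k.x1 k.y1 ≤ 28 := by
    fin_cases X
    · simp [tab_pn]; omega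
    · simp [tab_pn]; omega
    · simp [tab_pn]; omega
    · simp [tab_pn]; omega
  have h4 : tab_pn X k.x2 k.y2 ≤ 28 := by
    fin_cases X
    · simp [tab_pn]; omega
    · simp [tab_pn]; omega
    · simp [tab_pn]; omega
    · simp [tab_pn]; omega
  unfold ld
  rw [if_neg]
  unfold lo hi
  omega

theorem tab_list (L : List Seg) (hL : ∀ k ∈ L, Ok k) (X : Fin 4) (c : ℕ)
    (hT : ∀ t < 28, (L.map (tab_ld X c t)).sum ≤ 1980 * 10 ^ 8) (t : ℤ) :
    (L.map (fun k => ld k X c t)).sum ≤ 1 := by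
  by_cases ht : t + tab_off X < 0 ∨ 28 ≤ t + tab_off X
  · have h : (L.map (fun k => ld k X c t)).sum = 0 := by
      apply List.sum_eq_zero
      intro x hx
      rw [List.mem_map] at hx
      obtain ⟨k, hk, rfl⟩ := hx
      exact tab_zero k (hL k hk) X c t ht
    rw [h]
    norm_num
  · have h1 := tab_sum L hL X c t (by omega)
    have h2 := hT (t + tab_off X).toNat (by omega)
    have h3 : ((L.map (tab_ld X c (t + tab_off X).toNat)).sum : ℝ) ≤ 1980 * 10 ^ 8 := by
      exact_mod_cast h2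
    refine h1.trans ?_
    rw [div_le_one (by norm_num)]
    exact h3

theorem p_tab : S_tab := by
  intro X c t hc
  constructor
  · have h := num_sumX (fun k => ld k X c t)
    rw [h]
    exact tab_list segsX (fun k hk => ok_all k (List.mem_append_left _ hk)) X c
      (fun t ht => tab_X X c hc t ht) t
  · have h := num_sumY (fun k => ld k X c t)
    rw [h]
    exact tab_list segsY (fun k hk => ok_all k (List.mem_append_right _ hk)) X c
      (fun t ht => tab_Y X c hc t ht) t

end Pool.Agent.MP_b8d9b4_co.Low
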