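import Pool.Agent.Lib.MP_b8d9b4_co.Low.Stm
import Pool.Agent.Lib.MP_b8d9b4_co.Top.P.tr

/-!
# MP_b8d9b4_co, low range: from integer coordinates to `Fin n × Fin n`
-/

set_option autoImplicit false

namespace Pool.Agent.MP_b8d9b4_co.Low

open Pool.Agent.MP_b8d9b4_co.Top (Sq Line lv att board queensGraph tr_e tr_e_inj tr_e_mem tr_e_surj
  tr_att InNbhd)

private lemma tri_symm {q v : Sq} (h : att q v) : att v q := by
  obtain ⟨X, hX⟩ := h
  exact ⟨X, hX.symm⟩

theorem p_tri : S_tri := by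
  classical
  intro n S hS
  obtain ⟨hsub, hind, hdom⟩ := hS
  set S' : Finset (Fin n × Fin n) := Finset.univ.filter (fun p => tr_e n p ∈ S) with hS'
  have hmem : ∀ p, p ∈ S' ↔ tr_e n p ∈ S := by
    intro p
    rw [hS', Finset.mem_filter]
    exact ⟨fun h => h.2, fun h => ⟨Finset.mem_univ _, h⟩⟩
  have himg : S'.image (tr_e n) = S := by
    ext v
    rw [Finset.mem_image]
    constructor
    · rintro ⟨p, hp, rfl⟩
      exact (hmem p).mp hp
    · intro hv
      obtain ⟨p, rfl⟩ := tr_e_surj n v (hsub hv)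
      exact ⟨p, (hmem p).mpr hv, rfl⟩
  have hcard : S'.card = S.card := by
    rw [← himg, Finset.card_image_of_injective _ (tr_e_inj n)]
  refine ⟨S', ⟨?_, ?_⟩, hcard⟩
  · intro p hp q hq hpq hadj
    have hp' : tr_e n p ∈ S := (hmem p).1 hp
    have hq' : tr_e n q ∈ S := (hmem q).1 hq
    refine hind _ hp' _ hq' (fun h => hpq (tr_e_inj n h)) ?_
    exact (tr_att n p q).2 (Or.inr hadj)
  · intro T hT hST p hp
    by_contra hpS
    obtain ⟨v, hv, hatt⟩ := hdom (tr_e n p) (tr_e_mem n p)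
    obtain ⟨q, rfl⟩ := tr_e_surj n v (hsub hv)
    have hqS : q ∈ S' := (hmem q).2 hv
    have hqT : q ∈ T := hST hqS
    have hne : q ≠ p := fun h => hpS (h ▸ hqS)
    rcases (tr_att n q p).1 hatt with h | h
    · exact hne h.symm
    · exact hT hqT hp hne h

end Pool.Agent.MP_b8d9b4_co.Low
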