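import Pool.Agent.Lib.MP_b8d9b4_co.Low.Stm

/-!
# MP_b8d9b4_co, low range: piece [LOW low]
-/

set_option autoImplicit false

namespace Pool.Agent.MP_b8d9b4_co.Low

open Pool.Agent.MP_b8d9b4_co.Top (Sq Line lv att board mem_board)

/-- the triple of an index -/
private def low_tr (i : Ix) : Sq × Sq × Sq :=
  (i.2.1, (i.2.1.1, i.2.1.2 + i.2.2.1), (i.2.1.1 + i.2.2.2, i.2.1.2))

private theorem low_fin4 (X : Fin 4) : X = 0 ∨ X = 1 ∨ X = 2 ∨ X = 3 := by
  revert X; decide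

private theorem low_zero (ty : ℕ) (X : Fin 4) (a b : ℤ) : (0 : ℤ) ∈ TT ty X a b := by
  unfold TT
  split_ifs
  · rcases low_fin4 X with rfl | rfl | rfl | rfl <;> simp
  · simp

/-- the lines through the square are in the hyperedge -/
private theorem low_u (i : Ix) (X : Fin 4) : ((X, lv X i.2.1) : Line) ∈ ed i := by
  rw [mem_ed]
  simp only [sub_self]
  exact low_zero _ _ _ _

private theorem low_v (i : Ix) (h : (sg i.1).ty = 4) (X : Fin 4) :
    ((X, lv X (low_tr i).2.1) : Line) ∈ ed i := by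
  rw [mem_ed, h]
  obtain ⟨j, u, a, b⟩ := i
  unfold TT low_tr
  rcases low_fin4 X with rfl | rfl | rfl | rfl
  · simp [lv]
  · simp [lv]
  · simp [lv]
  · simp [lv]

private theorem low_w (i : Ix) (h : (sg i.1).ty = 4) (X : Fin 4) :
    ((X, lv X (low_tr i).2.2) : Line) ∈ ed i := by
  rw [mem_ed, h]
  obtain ⟨j, u, a, b⟩ := i
  unfold TT low_tr
  rcases low_fin4 X with rfl | rfl | rfl | rfl
  · simp [lv]
  · simp [lv]
  · simp [lv]
  · simp [lv]

/-- all the squares of a triple -/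
private theorem low_x (i : Ix) (h : (sg i.1).ty = 4) {x : Sq}
    (hx : x ∈ ({(low_tr i).1, (low_tr i).2.1, (low_tr i).2.2} : Finset Sq)) (X : Fin 4) :
    ((X, lv X x) : Line) ∈ ed i := by
  rw [Finset.mem_insert, Finset.mem_insert, Finset.mem_singleton] at hx
  rcases hx with rfl | rfl | rfl
  · exact low_u i X
  · exact low_v i h X
  · exact low_w i h X

/-- squares with lines in disjoint hyperedges do not attack each other -/
private theorem low_att {i i' : Ix} (hd : Disjoint (ed i) (ed i')) {x y : Sq}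
    (hx : ∀ X : Fin 4, ((X, lv X x) : Line) ∈ ed i)
    (hy : ∀ X : Fin 4, ((X, lv X y) : Line) ∈ ed i') : ¬ att x y := by
  rintro ⟨X, h⟩
  have h1 := hx X
  rw [h] at h1
  exact Finset.disjoint_left.1 hd h1 (hy X)

theorem p_low (h1 : S_mat) (h2 : S_ivt) (h3 : S_cov) (h4 : S_gl) (h5 : S_ok) (h6 : S_mg) :
    S_low := by
  classical
  obtain ⟨n0, hm⟩ := h1
  refine ⟨n0, fun n j hn hj1 hj2 => ?_⟩
  obtain ⟨q, W, R, A, M, hP, hMJ, hdis, hc1, hc2⟩ := hm n j hn hj1 hj2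
  have hA : 28 ≤ A := hP.1
  have hA0 : 0 ≤ A := by linarith
  have hW : 0 < W := hP.2.2.1
  have hR : R = W + 56 * A + 56 := hP.2.2.2.2.1
  have hq : 0 < q := by
    have := hP.2.2.2.2.2.2.1
    linarith
  have hnq : 14 * q ≤ (n : ℤ) := hP.2.2.2.2.2.2.2.1
  -- facts about the members
  have hM : ∀ i ∈ M, i.1 < 408 ∧ InSt (sg i.1) q W R i.2.1 ∧ AB (sg i.1).ty A i.2.2.1 i.2.2.2 := by
    intro i hi
    have h7 := (mem_JJ hA0 i).1 (hMJ hi)
    exact ⟨h7.1, (mem_St.1 h7.2.1).2, h7.2.2⟩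
  have hbd : ∀ i ∈ M, 4 * A + 4 ≤ i.2.1.1 ∧ i.2.1.1 ≤ n - (4 * A + 4) ∧ 4 * A + 4 ≤ i.2.1.2 ∧
      i.2.1.2 ≤ n - (4 * A + 4) := by
    intro i hi
    obtain ⟨h7, h8, -⟩ := hM i hi
    have h9 := h5 i.1 h7
    have h10 := h6 n q W R A hP (sg i.1) h9 i.2.1 h8
    obtain ⟨o1, o2, o3, o4, -, -, -⟩ := h9
    have h11 := h10 0
    have h12 := h10 1
    generalize sg i.1 = k at *
    have e1 : 0 ≤ lo k 0 := by
      unfold lo
      exact le_min (Int.natCast_nonneg _) (Int.natCast_nonneg _)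
    have e2 : 0 ≤ lo k 1 := by
      unfold lo
      exact le_min (Int.natCast_nonneg _) (Int.natCast_nonneg _)
    have e3 : Low.hi k 0 ≤ 14 := by
      unfold Low.hi
      refine max_le ?_ ?_
      · show (k.x1 : ℤ) ≤ 14
        omega
      · show (k.x2 : ℤ) ≤ 14
        omega
    have e4 : Low.hi k 1 ≤ 14 := by
      unfold Low.hi
      refine max_le ?_ ?_
      · show (k.y1 : ℤ) ≤ 14
        omega
      · show (k.y2 : ℤ) ≤ 14
        omega
    have f1 : 0 ≤ q * lo k 0 := mul_nonneg hq.le e1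
    have f2 : 0 ≤ q * lo k 1 := mul_nonneg hq.le e2
    have f3 : q * Low.hi k 0 ≤ q * 14 := mul_le_mul_of_nonneg_left e3 hq.le
    have f4 : q * Low.hi k 1 ≤ q * 14 := mul_le_mul_of_nonneg_left e4 hq.le
    have g1 : lv 0 i.2.1 = i.2.1.1 := rfl
    have g2 : lv 1 i.2.1 = i.2.1.2 := rfl
    rw [g1] at h11
    rw [g2] at h12
    refine ⟨?_, ?_, ?_, ?_⟩ <;> linarith [h11.1, h11.2, h12.1, h12.2]
  have hinj : ∀ i ∈ M, ∀ i' ∈ M, i.2.1 = i'.2.1 → i = i' := by
    intro i hi i' hi' h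
    by_contra hne
    have h7 := low_u i 0
    rw [h] at h7
    exact Finset.disjoint_left.1 (hdis i hi i' hi' hne) h7 (low_u i' 0)
  have hab : ∀ i ∈ M, (sg i.1).ty = 4 → 1 ≤ i.2.2.1 ∧ i.2.2.1 < 2 * A ∧ 2 * A < i.2.2.2 ∧
      i.2.2.2 < 4 * A := by
    intro i hi ht
    have h7 := (hM i hi).2.2
    unfold AB at h7
    rw [if_pos ht] at h7
    exact ⟨h7.2.1, h7.2.2.1, h7.2.2.2.2.1, h7.2.2.2.2.2⟩
  -- the sets
  have hF : ∀ p, p ∈ (M.filter (fun i => (sg i.1).ty ≠ 4)).image (fun i => i.2.1) ↔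
      ∃ i ∈ M, (sg i.1).ty ≠ 4 ∧ i.2.1 = p := by
    intro p
    rw [Finset.mem_image]
    constructor
    · rintro ⟨i, hi, rfl⟩
      exact ⟨i, (Finset.mem_filter.1 hi).1, (Finset.mem_filter.1 hi).2, rfl⟩
    · rintro ⟨i, hi, ht, rfl⟩
      exact ⟨i, Finset.mem_filter.2 ⟨hi, ht⟩, rfl⟩
  have hG : ∀ g, g ∈ (M.filter (fun i => (sg i.1).ty = 4)).image low_tr ↔
      ∃ i ∈ M, (sg i.1).ty = 4 ∧ low_tr i = g := by
    intro g
    rw [Finset.mem_image]
    constructor
    · rintro ⟨i, hi, rfl⟩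
      exact ⟨i, (Finset.mem_filter.1 hi).1, (Finset.mem_filter.1 hi).2, rfl⟩
    · rintro ⟨i, hi, ht, rfl⟩
      exact ⟨i, Finset.mem_filter.2 ⟨hi, ht⟩, rfl⟩
  have hFc : ((M.filter (fun i => (sg i.1).ty ≠ 4)).image (fun i => i.2.1)).card =
      (M.filter (fun i => (sg i.1).ty ≠ 4)).card := by
    refine Finset.card_image_of_injOn fun i hi i' hi' h => ?_
    exact hinj i (Finset.mem_filter.1 hi).1 i' (Finset.mem_filter.1 hi').1 h
  have hGc : ((M.filter (fun i => (sg i.1).ty = 4)).image low_tr).card =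
      (M.filter (fun i => (sg i.1).ty = 4)).card := by
    refine Finset.card_image_of_injOn fun i hi i' hi' h => ?_
    exact hinj i (Finset.mem_filter.1 hi).1 i' (Finset.mem_filter.1 hi').1
      (show i.2.1 = i'.2.1 from congrArg (fun g : Sq × Sq × Sq => g.1) h)
  refine h2 n ((M.filter (fun i => (sg i.1).ty ≠ 4)).image (fun i => i.2.1))
    ((M.filter (fun i => (sg i.1).ty = 4)).image low_tr) (LL n q)
    ((LL n q).filter (fun l => ∀ i ∈ M, l ∉ ed i)) ?_ ?_ ?_ ?_ ?_ ?_ ?_ ?_ j ?_ ?_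
  · intro p hp
    obtain ⟨i, hi, -, rfl⟩ := (hF p).1 hp
    have h7 := hbd i hi
    rw [mem_board]
    refine ⟨?_, ?_, ?_, ?_⟩ <;> linarith [h7.1, h7.2.1, h7.2.2.1, h7.2.2.2]
  · intro g hg
    obtain ⟨i, hi, ht, rfl⟩ := (hG g).1 hg
    have h7 := hbd i hi
    have h8 := hab i hi ht
    rw [mem_board, mem_board, mem_board]
    simp only [low_tr]
    omega
  · intro p hp p' hp' hne
    obtain ⟨i, hi, -, rfl⟩ := (hF p).1 hp
    obtain ⟨i', hi', -, rfl⟩ := (hF p').1 hp'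
    exact low_att (hdis i hi i' hi' fun h => hne (by rw [h])) (low_u i) (low_u i')
  · intro p hp g hg
    obtain ⟨i, hi, ht, rfl⟩ := (hF p).1 hp
    obtain ⟨i', hi', ht', rfl⟩ := (hG g).1 hg
    have hd := hdis i hi i' hi' fun h => ht (by rw [h]; exact ht')
    exact ⟨low_att hd (low_u i) (low_u i'), low_att hd (low_u i) (low_v i' ht'),
      low_att hd (low_u i) (low_w i' ht')⟩
  · intro g hg g' hg' hne x hx y hy
    obtain ⟨i, hi, ht, rfl⟩ := (hG g).1 hg
    obtain ⟨i', hi', ht', rfl⟩ := (hG g').1 hg'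
    exact low_att (hdis i hi i' hi' fun h => hne (by rw [h])) (low_x i ht hx) (low_x i' ht' hy)
  · intro g hg
    obtain ⟨i, hi, ht, rfl⟩ := (hG g).1 hg
    have h8 := hab i hi ht
    refine ⟨rfl, ?_, rfl, ?_, ?_⟩
    · intro h
      have h9 := congrArg Prod.snd h
      simp only [low_tr] at h9
      omega
    · intro h
      have h9 := congrArg Prod.fst h
      simp only [low_tr] at h9
      omega
    · rintro ⟨X, hX⟩
      rcases low_fin4 X with rfl | rfl | rfl | rfl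
      · simp only [low_tr, lv] at hX
        omega
      · simp only [low_tr, lv] at hX
        omega
      · simp only [low_tr, lv] at hX
        omega
      · simp only [low_tr, lv] at hX
        omega
  · intro x hx
    exact h3 n q W R A hP x hx
  · intro l hl hl1 hl2
    rw [Finset.mem_filter]
    refine ⟨hl, fun i hi hli => ?_⟩
    by_cases ht : (sg i.1).ty = 4
    · obtain ⟨h7, h8⟩ := h4 n q W R A hP i (hMJ hi) ht l hli hl
      exact hl2 (low_tr i) ((hG _).2 ⟨i, hi, ht, rfl⟩) h7 h8.symm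
    · rw [mem_ed] at hli
      unfold TT at hli
      rw [if_neg ht, Finset.mem_singleton] at hli
      exact hl1 i.2.1 ((hF _).2 ⟨i, hi, ht, rfl⟩) (sub_eq_zero.1 hli).symm
  · rw [hFc, hGc]
    exact hc1
  · rw [hFc, hGc]
    exact hc2

end Pool.Agent.MP_b8d9b4_co.Low
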