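import Pool.Agent.Lib.MP_b8d9b4_co.Low.Stm

/-! Piece ms: the number of squares of a strip. -/

set_option autoImplicit false

namespace Pool.Agent.MP_b8d9b4_co.Low

open Pool.Agent.MP_b8d9b4_co.Top (Sq Line lv att board)

private theorem ms_cnt (a b ρ : ℤ) (hab : a ≤ b) (hρ : ρ = 0 ∨ ρ = 1) :
    2 * (b - a) ≤ 2 * (((Finset.Icc (2 * a) (2 * b)).filter (fun x => x % 2 = ρ)).card : ℤ) ∧
    2 * (((Finset.Icc (2 * a) (2 * b)).filter (fun x => x % 2 = ρ)).card : ℤ) ≤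
      2 * (b - a) + 2 := by
  rcases hρ with rfl | rfl
  · have h : (Finset.Icc (2 * a) (2 * b)).filter (fun x => x % 2 = 0) =
        (Finset.Icc a b).image (fun y => 2 * y) := by
      ext x
      rw [Finset.mem_filter, Finset.mem_image, Finset.mem_Icc]
      constructor
      · rintro ⟨⟨h1, h2⟩, h3⟩
        refine ⟨x / 2, ?_, ?_⟩
        · rw [Finset.mem_Icc]
          omega
        · omega
      · rintro ⟨y, hy, rfl⟩
        rw [Finset.mem_Icc] at hy
        omega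
    rw [h, Finset.card_image_of_injective _ (by
      intro x y hxy
      simp only at hxy
      omega), Int.card_Icc]
    have : ((b + 1 - a).toNat : ℤ) = b + 1 - a := Int.toNat_of_nonneg (by omega)
    rw [this]
    omega
  · have h : (Finset.Icc (2 * a) (2 * b)).filter (fun x => x % 2 = 1) =
        (Finset.Ico a b).image (fun y => 2 * y + 1) := by
      ext x
      rw [Finset.mem_filter, Finset.mem_image, Finset.mem_Icc]
      constructor
      · rintro ⟨⟨h1, h2⟩, h3⟩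
        refine ⟨x / 2, ?_, ?_⟩
        · rw [Finset.mem_Ico]
          omega
        · omega
      · rintro ⟨y, hy, rfl⟩
        rw [Finset.mem_Ico] at hy
        omega
    rw [h, Finset.card_image_of_injective _ (by
      intro x y hxy
      simp only at hxy
      omega), Int.card_Ico]
    have : ((b - a).toNat : ℤ) = b - a := Int.toNat_of_nonneg (by omega)
    rw [this]
    omega

theorem p_ms (h1 : S_c2) (h2 : S_mg) : S_ms := by
  classical
  intro n q W R A hPar k hk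
  have hmg := h2 n q W R A hPar k hk
  obtain ⟨hA, hA2, hW, hW7920, hR, hq4, hRq, hn1, hn2⟩ := hPar
  obtain ⟨hx12, hx2, hy1, hy2, hty, hlen, -⟩ := hk
  obtain ⟨P, hP⟩ : ∃ P : ℤ, P = (k.x2 : ℤ) - k.x1 := ⟨_, rfl⟩
  obtain ⟨Q, hQ⟩ : ∃ Q : ℤ, Q = (k.y2 : ℤ) - k.y1 := ⟨_, rfl⟩
  have hP1 : 1 ≤ P := by
    rw [hP]
    omega
  have hlen0 : len k 0 = P := by
    show max (k.x1 : ℤ) (k.x2 : ℤ) - min (k.x1 : ℤ) (k.x2 : ℤ) = P
    rw [hP]
    omega
  have hdvd : P * 4 ∣ W := by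
    have h3 := (hlen 0).2
    rw [hlen0] at h3
    have h4 : P * 4 ∣ 1980 * 4 := mul_dvd_mul_right h3 4
    exact h4.trans (by norm_num; exact hW7920)
  obtain ⟨ρ, hρ⟩ : ∃ ρ : ℤ, ρ = if k.ty = 2 ∨ k.ty = 3 then 1 else 0 := ⟨_, rfl⟩
  obtain ⟨τ, hτ⟩ : ∃ τ : ℤ, τ = if k.ty = 0 ∨ k.ty = 2 then 0 else 2 := ⟨_, rfl⟩
  have hρ01 : ρ = 0 ∨ ρ = 1 := by
    rw [hρ]
    split_ifs <;> simp
  have hτ02 : τ = 0 ∨ τ = 2 := by
    rw [hτ]
    split_ifs <;> simp
  choose Sx hSx hSc using fun x : ℤ =>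
    h1 P 4 W (x - τ) (-(P * (q * k.y1)) - Q * (x - q * k.x1)) (by omega) (by norm_num) hW hdvd
  have hin : ∀ x y : ℤ, InSt k q W R (x, y) ↔
      (q * k.x1 + R ≤ x ∧ x ≤ q * k.x2 - R ∧ x % 2 = ρ) ∧ y ∈ Sx x := by
    intro x y
    rw [hSx]
    unfold InSt ph kl
    simp only
    rw [← hP, ← hQ, ← hρ, ← hτ]
    have e : P * (y - q * k.y1) - Q * (x - q * k.x1) =
      P * y + (-(P * (q * k.y1)) - Q * (x - q * k.x1)) := by ring
    rw [e]
    have e2 : (x - y) % 4 = τ ↔ (4 : ℤ) ∣ y - (x - τ) := by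
      rcases hτ02 with rfl | rfl <;> omega
    rw [e2]
    tauto
  have hbd : ∀ x y : ℤ, InSt k q W R (x, y) → (x, y) ∈ board (14 * q) := by
    intro x y hxy
    have h3 := hmg (x, y) hxy 0
    have h4 := hmg (x, y) hxy 1
    unfold board
    rw [Finset.mem_product, Finset.mem_Icc, Finset.mem_Icc]
    have l0 : lo k 0 = min (k.x1 : ℤ) (k.x2 : ℤ) := rfl
    have l1 : lo k 1 = min (k.y1 : ℤ) (k.y2 : ℤ) := rfl
    have u0 : hi k 0 = max (k.x1 : ℤ) (k.x2 : ℤ) := rfl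
    have u1 : hi k 1 = max (k.y1 : ℤ) (k.y2 : ℤ) := rfl
    have v0 : lv 0 (x, y) = x := rfl
    have v1 : lv 1 (x, y) = y := rfl
    rw [v0] at h3
    rw [v1] at h4
    have hq0 : 0 ≤ q := by omega
    have a0 : 0 ≤ q * lo k 0 := mul_nonneg hq0 (by rw [l0]; omega)
    have a1 : 0 ≤ q * lo k 1 := mul_nonneg hq0 (by rw [l1]; omega)
    have b0 : q * hi k 0 ≤ q * 14 := mul_le_mul_of_nonneg_left (by rw [u0]; omega) hq0
    have b1 : q * hi k 1 ≤ q * 14 := mul_le_mul_of_nonneg_left (by rw [u1]; omega) hq0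
    simp only
    refine ⟨⟨?_, ?_⟩, ?_, ?_⟩ <;> linarith [h3.1, h3.2, h4.1, h4.2]
  set Xs : Finset ℤ := (Finset.Icc (q * k.x1 + R) (q * k.x2 - R)).filter (fun x => x % 2 = ρ)
    with hXs
  have hmaps : ∀ p ∈ St k q W R, p.1 ∈ Xs := by
    rintro ⟨x, y⟩ hp
    rw [mem_St, hin] at hp
    rw [hXs, Finset.mem_filter, Finset.mem_Icc]
    exact ⟨⟨hp.2.1.1, hp.2.1.2.1⟩, hp.2.1.2.2⟩
  have hfib : ∀ x ∈ Xs, ((St k q W R).filter (fun p => p.1 = x)).card = (Sx x).card := by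
    intro x hx
    have e : (St k q W R).filter (fun p => p.1 = x) = (Sx x).image (fun y => ((x, y) : Sq)) := by
      ext ⟨x', y⟩
      rw [Finset.mem_filter, Finset.mem_image, mem_St]
      constructor
      · rintro ⟨⟨-, h3⟩, h4⟩
        simp only at h4
        subst h4
        exact ⟨y, ((hin _ _).1 h3).2, rfl⟩
      · rintro ⟨y', hy', h3⟩
        rw [Prod.mk.injEq] at h3
        obtain ⟨rfl, rfl⟩ := h3
        rw [hXs, Finset.mem_filter, Finset.mem_Icc] at hx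
        have h4 : InSt k q W R (x, y') := (hin _ _).2 ⟨⟨hx.1.1, hx.1.2, hx.2⟩, hy'⟩
        exact ⟨⟨hbd _ _ h4, h4⟩, rfl⟩
    rw [e, Finset.card_image_of_injective _ (by
      intro a b hab
      exact (Prod.mk.inj hab).2)]
  have hcard : ((St k q W R).card : ℤ) * (P * 4) = (Xs.card : ℤ) * W := by
    have h3 : (St k q W R).card = ∑ x ∈ Xs, ((St k q W R).filter (fun p => p.1 = x)).card :=
      Finset.card_eq_sum_card_fiberwise hmaps
    rw [h3]
    push_cast
    rw [Finset.sum_mul]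
    have h4 : ∀ x ∈ Xs, (((St k q W R).filter (fun p => p.1 = x)).card : ℤ) * (P * 4) = W := by
      intro x hx
      rw [hfib x hx]
      exact hSc x
    rw [Finset.sum_congr rfl h4, Finset.sum_const, nsmul_eq_mul]
  -- the number of columns
  obtain ⟨q', hq'⟩ := hq4
  obtain ⟨W', hW'⟩ := hW7920
  have hpq : P * q = q * k.x2 - q * k.x1 := by
    rw [hP]
    ring
  have hPq : q ≤ P * q := by nlinarith
  have hm : P * q - 2 * R ≤ 2 * (Xs.card : ℤ) ∧ 2 * (Xs.card : ℤ) ≤ P * q - 2 * R + 2 := by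
    have e1 : q * (k.x1 : ℤ) + R = 2 * (2 * q' * k.x1 + (3960 * W' + 28 * A + 28)) := by
      rw [hq', hR, hW']
      ring
    have e2 : q * (k.x2 : ℤ) - R = 2 * (2 * q' * k.x2 - (3960 * W' + 28 * A + 28)) := by
      rw [hq', hR, hW']
      ring
    have h3 := ms_cnt (2 * q' * k.x1 + (3960 * W' + 28 * A + 28))
      (2 * q' * k.x2 - (3960 * W' + 28 * A + 28)) ρ (by linarith) hρ01
    rw [← e1, ← e2, ← hXs] at h3
    constructor
    · linarith [h3.1]
    · linarith [h3.2]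
  have hR0 : 1 ≤ R := by
    rw [hR]
    linarith
  -- the estimate
  have h5 : P * (8 * ((St k q W R).card : ℤ) - q * W) = (2 * (Xs.card : ℤ) - P * q) * W := by
    linear_combination 2 * hcard
  have h6 : |2 * (Xs.card : ℤ) - P * q| ≤ 2 * R := by
    rw [abs_le]
    constructor
    · linarith [hm.1]
    · linarith [hm.2]
  have h7 : P * |8 * ((St k q W R).card : ℤ) - q * W| ≤ 2 * R * W := by
    have h8 : |P * (8 * ((St k q W R).card : ℤ) - q * W)| =
        |(2 * (Xs.card : ℤ) - P * q) * W| := by rw [h5]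
    rw [abs_mul, abs_mul, abs_of_pos hW, abs_of_pos (by linarith : (0 : ℤ) < P)] at h8
    rw [h8]
    exact mul_le_mul_of_nonneg_right h6 hW.le
  have h9 : 0 ≤ |8 * ((St k q W R).card : ℤ) - q * W| := abs_nonneg _
  nlinarith

end Pool.Agent.MP_b8d9b4_co.Low
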