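import Pool.Agent.Lib.MP_b8d9b4_co.Low.Stm

/-!
# MP_b8d9b4_co, low range: piece num
-/

set_option autoImplicit false

namespace Pool.Agent.MP_b8d9b4_co.Low

theorem num_list {α M : Type} [AddCommMonoid M] (f : α → M) (d : α) (L : List α) :
    ∑ j ∈ Finset.range L.length, f (L.getD j d) = (L.map f).sum := by
  induction L with
  | nil => simp
  | cons a L ih =>
    rw [List.length_cons, Finset.sum_range_succ', List.map_cons, List.sum_cons, ← ih]
    simp only [List.getD_cons_succ, List.getD_cons_zero]
    rw [add_comm]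

theorem num_lenX : segsX.length = 168 := by decide +kernel
theorem num_lenY : segsY.length = 240 := by decide +kernel

theorem num_sgX (j : ℕ) (hj : j < 168) : sg j = segsX.getD j ⟨9, 0, 0, 0, 0, 0⟩ := by
  unfold sg segs
  rw [List.getD_append _ _ _ _ (by rw [num_lenX]; exact hj)]

theorem num_sgY (j : ℕ) : sg (168 + j) = segsY.getD j ⟨9, 0, 0, 0, 0, 0⟩ := by
  unfold sg segs
  rw [List.getD_append_right _ _ _ _ (by rw [num_lenX]; omega), num_lenX, Nat.add_sub_cancel_left]

theorem num_sumX {M : Type} [AddCommMonoid M] (f : Seg → M) :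
    ∑ j ∈ Finset.range 168, f (sg j) = (segsX.map f).sum := by
  rw [← num_list f ⟨9, 0, 0, 0, 0, 0⟩, num_lenX]
  refine Finset.sum_congr rfl fun j hj => ?_
  rw [Finset.mem_range] at hj
  rw [num_sgX j hj]

theorem num_sumY {M : Type} [AddCommMonoid M] (f : Seg → M) :
    ∑ j ∈ Finset.Ico 168 408, f (sg j) = (segsY.map f).sum := by
  rw [← num_list f ⟨9, 0, 0, 0, 0, 0⟩, num_lenY, Finset.sum_Ico_eq_sum_range]
  refine Finset.sum_congr rfl fun j hj => ?_
  rw [num_sgY j]

theorem num_ty : ∀ k ∈ segsX, k.ty ≠ 4 := by decide +kernel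

theorem num_a : 5599999000 ≤ (segsX.map fun k => nd k * k.al).sum := by decide +kernel
theorem num_b : 5599999000 ≤ (segsY.map fun k => nd k * k.al).sum := by decide +kernel
theorem num_c : (segsX.map fun k => k.al).sum = 1404158576 := by decide +kernel
theorem num_d : (segsY.map fun k => if k.ty ≠ 4 then k.al else 0).sum = 1399999920 := by
  decide +kernel
theorem num_e : (segsY.map fun k => if k.ty = 4 then k.al else 0).sum = 588538656 := by
  decide +kernel

theorem p_num : S_num := by
  refine ⟨fun j hj => ?_, ?_, ?_, ?_, ?_, ?_⟩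
  · rw [num_sgX j hj]
    have h : j < segsX.length := by rw [num_lenX]; exact hj
    rw [List.getD_eq_getElem _ _ h]
    exact num_ty _ (List.getElem_mem h)
  · have h := num_sumX (fun k => nd k * k.al)
    rw [h]
    exact num_a
  · have h := num_sumY (fun k => nd k * k.al)
    rw [h]
    exact num_b
  · have h := num_sumX (fun k => k.al)
    rw [h]
    exact num_c
  · rw [Finset.sum_filter]
    have h := num_sumY (fun k => if k.ty ≠ 4 then k.al else 0)
    rw [h]
    exact num_d
  · rw [Finset.sum_filter]
    have h := num_sumY (fun k => if k.ty = 4 then k.al else 0)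
    rw [h]
    exact num_e

end Pool.Agent.MP_b8d9b4_co.Low
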